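import Pool.Agent.IcoLocal.SymDefs
import Pool.Agent.Lib_helper76.IcoVol

/-!
# Steiner's question for icosahedral polyhedra: the centrally symmetric case
-/

open scoped RealInnerProductSpace

namespace Pool.Agent.Results.MP_fa01f0_gt.CentrallySymmetric

open Pool.Agent.Lib_helper76.Ico

/-- Coordinates of a centrally symmetric configuration. -/
structure Coord (w : Fin 12 → E3) (c : E3) (p q : Fin 3 → Fin 3 → ℝ) : Prop where
  h0 : ∀ j, w 0 j = c j + (q 1 j + p 2 j)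
  h1 : ∀ j, w 1 j = c j + (q 1 j - p 2 j)
  h2 : ∀ j, w 2 j = c j + (q 2 j + p 0 j)
  h3 : ∀ j, w 3 j = c j + (q 2 j - p 0 j)
  h4 : ∀ j, w 4 j = c j + (q 0 j + p 1 j)
  h5 : ∀ j, w 5 j = c j + (q 0 j - p 1 j)
  h6 : ∀ j, w 6 j = c j - (q 1 j + p 2 j)
  h7 : ∀ j, w 7 j = c j - (q 1 j - p 2 j)
  h8 : ∀ j, w 8 j = c j - (q 2 j + p 0 j)
  h9 : ∀ j, w 9 j = c j - (q 2 j - p 0 j)
  h10 : ∀ j, w 10 j = c j - (q 0 j + p 1 j)
  h11 : ∀ j, w 11 j = c j - (q 0 j - p 1 j)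

lemma Coord.exists {w : Fin 12 → E3} {c : E3} (hw : ∀ i, w (i + 6) = (2 : ℝ) • c - w i) :
    ∃ p q, Coord w c p q := by
  refine ⟨![fun j => (w 2 j - w 3 j) / 2, fun j => (w 4 j - w 5 j) / 2,
      fun j => (w 0 j - w 1 j) / 2],
    ![fun j => (w 4 j + w 5 j) / 2 - c j, fun j => (w 0 j + w 1 j) / 2 - c j,
      fun j => (w 2 j + w 3 j) / 2 - c j], ?_⟩
  have e6 : w 6 = (2 : ℝ) • c - w 0 := hw 0
  have e7 : w 7 = (2 : ℝ) • c - w 1 := hw 1
  have e8 : w 8 = (2 : ℝ) • c - w 2 := hw 2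
  have e9 : w 9 = (2 : ℝ) • c - w 3 := hw 3
  have e10 : w 10 = (2 : ℝ) • c - w 4 := hw 4
  have e11 : w 11 = (2 : ℝ) • c - w 5 := hw 5
  constructor <;> intro j <;>
    simp [e6, e7, e8, e9, e10, e11] <;> ring

lemma vol_eq {w : Fin 12 → E3} {c : E3} {p q : Fin 3 → Fin 3 → ℝ} (h : Coord w c p q) :
    vol w = volpq p q := by
  simp only [vol, Fin.sum_univ_succ, Fin.sum_univ_zero, Matrix.det_fin_three, Matrix.of_apply]
  simp [tri, h.h0, h.h1, h.h2, h.h3, h.h4, h.h5, h.h6, h.h7, h.h8, h.h9, h.h10, h.h11, volpq, det3]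
  ring

lemma tri_area_first {w : Fin 12 → E3} {c : E3} {p q : Fin 3 → Fin 3 → ℝ} (h : Coord w c p q)
    (i : Fin 10) :
    triArea (w (tri (Fin.castAdd 10 i) 0)) (w (tri (Fin.castAdd 10 i) 1))
      (w (tri (Fin.castAdd 10 i) 2))
      = Real.sqrt (fS (fx p q i) (fy p q i) (fz p q i) ⬝ᵥ fS (fx p q i) (fy p q i) (fz p q i)) := by
  have e1 : (w (tri (Fin.castAdd 10 i) 1)).ofLp - (w (tri (Fin.castAdd 10 i) 0)).ofLp
      = fy p q i - fx p q i := by
    ext j
    fin_cases i <;>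
      simp [tri, fx, fy, h.h0, h.h1, h.h2, h.h3, h.h4, h.h5, h.h6, h.h7, h.h8, h.h9, h.h10,
        h.h11] <;> ring
  have e2 : (w (tri (Fin.castAdd 10 i) 2)).ofLp - (w (tri (Fin.castAdd 10 i) 0)).ofLp
      = fz p q i - fx p q i := by
    ext j
    fin_cases i <;>
      simp [tri, fx, fz, h.h0, h.h1, h.h2, h.h3, h.h4, h.h5, h.h6, h.h7, h.h8, h.h9, h.h10,
        h.h11] <;> ring
  rw [triArea_eq, fS_dot, fS_dot, e1, e2]

lemma tri_area_second {w : Fin 12 → E3} {c : E3} {p q : Fin 3 → Fin 3 → ℝ} (h : Coord w c p q)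
    (i : Fin 10) :
    triArea (w (tri (Fin.natAdd 10 i) 0)) (w (tri (Fin.natAdd 10 i) 1))
      (w (tri (Fin.natAdd 10 i) 2))
      = Real.sqrt (fS (fx p q i) (fy p q i) (fz p q i) ⬝ᵥ fS (fx p q i) (fy p q i) (fz p q i)) := by
  have e1 : (w (tri (Fin.natAdd 10 i) 1)).ofLp - (w (tri (Fin.natAdd 10 i) 0)).ofLp
      = -(fz p q i - fx p q i) := by
    ext j
    fin_cases i <;>
      simp [tri, fx, fz, h.h0, h.h1, h.h2, h.h3, h.h4, h.h5, h.h6, h.h7, h.h8, h.h9, h.h10,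
        h.h11] <;> ring
  have e2 : (w (tri (Fin.natAdd 10 i) 2)).ofLp - (w (tri (Fin.natAdd 10 i) 0)).ofLp
      = -(fy p q i - fx p q i) := by
    ext j
    fin_cases i <;>
      simp [tri, fx, fy, h.h0, h.h1, h.h2, h.h3, h.h4, h.h5, h.h6, h.h7, h.h8, h.h9, h.h10,
        h.h11] <;> ring
  rw [triArea_eq, fS_dot, fS_dot, e1, e2]
  congr 1
  rw [neg_dotProduct_neg, neg_dotProduct_neg, neg_dotProduct_neg,
    dotProduct_comm (fz p q i - fx p q i) (fy p q i - fx p q i)]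
  ring

lemma area_eq {w : Fin 12 → E3} {c : E3} {p q : Fin 3 → Fin 3 → ℝ} (h : Coord w c p q) :
    area w = 2 * Ssum p q := by
  have e : area w = ∑ f : Fin (10 + 10), triArea (w (tri f 0)) (w (tri f 1)) (w (tri f 2)) := rfl
  rw [e, Fin.sum_univ_add]
  rw [Finset.sum_congr rfl fun i _ => tri_area_first h i,
    Finset.sum_congr rfl fun i _ => tri_area_second h i, two_mul]
  rfl

lemma regular_symm (i : Fin 12) : regular (i + 6) = (2 : ℝ) • (0 : E3) - regular i := by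
  rw [smul_zero, zero_sub]
  fin_cases i <;> ext j <;> fin_cases j <;> simp [regular]

lemma regular_coord : Coord regular 0 ![![1, 0, 0], ![0, 1, 0], ![0, 0, 1]]
    ![![Real.goldenRatio, 0, 0], ![0, Real.goldenRatio, 0], ![0, 0, Real.goldenRatio]] := by
  constructor <;> intro j <;> fin_cases j <;> simp [regular]

lemma regular_Ssum : Ssum ![![1, 0, 0], ![0, 1, 0], ![0, 0, 1]]
    ![![Real.goldenRatio, 0, 0], ![0, Real.goldenRatio, 0], ![0, 0, Real.goldenRatio]]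
      = 10 * Real.sqrt 3 := by
  have hφ := Real.goldenRatio_sq
  have h : ∀ i : Fin 10, Real.sqrt (fS
      (fx ![![1, 0, 0], ![0, 1, 0], ![0, 0, 1]]
        ![![Real.goldenRatio, 0, 0], ![0, Real.goldenRatio, 0], ![0, 0, Real.goldenRatio]] i)
      (fy ![![1, 0, 0], ![0, 1, 0], ![0, 0, 1]]
        ![![Real.goldenRatio, 0, 0], ![0, Real.goldenRatio, 0], ![0, 0, Real.goldenRatio]] i)
      (fz ![![1, 0, 0], ![0, 1, 0], ![0, 0, 1]]
        ![![Real.goldenRatio, 0, 0], ![0, Real.goldenRatio, 0], ![0, 0, Real.goldenRatio]] i) ⬝ᵥ fS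
      (fx ![![1, 0, 0], ![0, 1, 0], ![0, 0, 1]]
        ![![Real.goldenRatio, 0, 0], ![0, Real.goldenRatio, 0], ![0, 0, Real.goldenRatio]] i)
      (fy ![![1, 0, 0], ![0, 1, 0], ![0, 0, 1]]
        ![![Real.goldenRatio, 0, 0], ![0, Real.goldenRatio, 0], ![0, 0, Real.goldenRatio]] i)
      (fz ![![1, 0, 0], ![0, 1, 0], ![0, 0, 1]]
        ![![Real.goldenRatio, 0, 0], ![0, Real.goldenRatio, 0], ![0, 0, Real.goldenRatio]] i))
      = Real.sqrt 3 := by
    intro i
    congr 1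
    rw [fS_dot]
    fin_cases i <;> simp [fx, fy, fz, dotProduct, Fin.sum_univ_three] <;> nlinarith [hφ]
  unfold Ssum
  rw [Finset.sum_congr rfl fun i _ => h i]
  simp

lemma area_regular : area regular = 20 * Real.sqrt 3 := by
  rw [area_eq regular_coord, regular_Ssum]
  ring

lemma vol_regular : vol regular = 10 / 3 * (3 + Real.sqrt 5) := by
  rw [vol_eq regular_coord]
  have hφ := Real.goldenRatio_sq
  have hφ2 : Real.goldenRatio = (1 + Real.sqrt 5) / 2 := rfl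
  simp [volpq, det3]
  nlinarith [hφ, hφ2]

/-- **Steiner's isoperimetric question for the icosahedron, centrally symmetric case.**
For every position of the twelve vertices of the icosahedral triangulation that is symmetric about
some centre `c`, the ratio `area ^ 3 / vol ^ 2` is at least that of the regular icosahedron. -/
theorem ineq (w : Fin 12 → E3) (c : E3) (hw : ∀ i, w (i + 6) = (2 : ℝ) • c - w i) :
    area regular ^ 3 * vol w ^ 2 ≤ area w ^ 3 * vol regular ^ 2 := by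
  obtain ⟨p, q, h⟩ := Coord.exists hw
  rw [area_regular, vol_regular, area_eq h, vol_eq h]
  have h1 := iso_pq p q
  have h3 : (Real.sqrt 3) ^ 2 = 3 := Real.sq_sqrt (by norm_num)
  have e : (20 * Real.sqrt 3) ^ 3 = 24000 * Real.sqrt 3 := by
    linear_combination (8000 * Real.sqrt 3) * h3
  rw [e]
  exact h1

end Pool.Agent.Results.MP_fa01f0_gt.CentrallySymmetric
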