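import Pool.Agent.IcoLocal.Nbhd

/-!
# Steiner's inequality for icosahedra whose six main diagonals have collinear midpoints
-/

open Matrix Filter Topology
open scoped RealInnerProductSpace

namespace Pool.Agent.IcoLocal

open Pool.Agent.Lib_helper76.Ico
open Pool.Agent.Results.MP_fa01f0_gt.CentrallySymmetric

/-- The pair of antipodal faces, without a condition. -/
lemma pair_ge (a q : Fin 3 → ℝ) :
    2 * Real.sqrt (nn a) ≤ Real.sqrt (nn (a + q)) + Real.sqrt (nn (a - q)) := by
  rcases (nn_nonneg a).lt_or_eq with ha | ha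
  · refine le_trans ?_ (pair_lower a q ha)
    have h1 : 0 ≤ nn (a ⨯₃ q) / nn a := div_nonneg (nn_nonneg _) ha.le
    have h2 := Real.sqrt_le_sqrt (show nn a ≤ nn a + nn (a ⨯₃ q) / nn a by linarith)
    linarith
  · rw [← ha, Real.sqrt_zero, mul_zero]
    positivity

lemma pair_eq (a q : Fin 3 → ℝ)
    (h : Real.sqrt (nn (a + q)) + Real.sqrt (nn (a - q)) ≤ 2 * Real.sqrt (nn a)) :
    nn (a ⨯₃ q) = 0 := by
  rcases (nn_nonneg a).lt_or_eq with ha | ha
  · have h0 := (pair_lower a q ha).trans h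
    have h1 : 0 ≤ nn (a ⨯₃ q) / nn a := div_nonneg (nn_nonneg _) ha.le
    have h2 : Real.sqrt (nn a + nn (a ⨯₃ q) / nn a) ≤ Real.sqrt (nn a) := by linarith
    rw [Real.sqrt_le_sqrt_iff ha.le] at h2
    have h3 : nn (a ⨯₃ q) / nn a = 0 := le_antisymm (by linarith) h1
    exact (div_eq_zero_iff.1 h3).resolve_right ha.ne'
  · have h1 := lagrange a q
    have h2 := nn_nonneg (a ⨯₃ q)
    rw [← ha, zero_mul] at h1
    nlinarith [sq_nonneg (a ⬝ᵥ q)]

section rankone

variable {u : V} {z : Fin 12 → ℝ} {e : Fin 3 → ℝ}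

lemma P_line (hu : ∀ i, u i = z i • e) (f : Fin 10) : P u f = 0 := by
  ext j
  simp only [P, fS, hu]
  fin_cases j <;> simp [cross_apply] <;> ring

lemma eta_line (hu : ∀ i, u i = z i • e) (x : V) : eta x u = 0 := by
  unfold eta
  refine Finset.sum_eq_zero fun f _ => ?_
  simp only [hu, d3, Pi.smul_apply, smul_eq_mul]
  ring

/-- the area decreases if the symmetric part is removed -/
lemma area_ge (x : V) (hx : ∀ i, x (i + 6) = -x i) (hue : ∀ i, u (i + 6) = u i)
    (hu : ∀ i, u i = z i • e) : area0 x ≤ area (toE (x + u)) := by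
  rw [area_toE, area0, Finset.mul_sum]
  refine Finset.sum_le_sum fun f _ => ?_
  rw [face_first, face_second x u hx hue, nn_neg, P_line hu, add_zero]
  exact pair_ge _ _

lemma area_ge_eq (x : V) (hx : ∀ i, x (i + 6) = -x i) (hue : ∀ i, u (i + 6) = u i)
    (hu : ∀ i, u i = z i • e) (h : area (toE (x + u)) ≤ area0 x) (f : Fin 10) :
    nn (P x f ⨯₃ Q x u f) = 0 := by
  rw [area_toE, area0, Finset.mul_sum] at h
  have hle : ∀ g ∈ (Finset.univ : Finset (Fin 10)), 2 * Real.sqrt (nn (P x g)) ≤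
      Real.sqrt (nn (fS ((x + u) (va g)) ((x + u) (vb g)) ((x + u) (vc g))))
        + Real.sqrt (nn (fS ((x + u) (va g + 6)) ((x + u) (vc g + 6)) ((x + u) (vb g + 6)))) := by
    intro g _
    rw [face_first, face_second x u hx hue, nn_neg, P_line hu, add_zero]
    exact pair_ge _ _
  have heq := (Finset.sum_eq_sum_iff_of_le hle).1 (le_antisymm (Finset.sum_le_sum hle) h) f
    (Finset.mem_univ f)
  rw [face_first, face_second x u hx hue, nn_neg, P_line hu, add_zero] at heq
  exact pair_eq _ _ heq.symm.le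

lemma vol_line (x : V) (hx : ∀ i, x (i + 6) = -x i) (hue : ∀ i, u (i + 6) = u i)
    (hu : ∀ i, u i = z i • e) : vol (toE (x + u)) = vol0 x := by
  rw [vol_split x u hx hue, eta_line hu, add_zero]

/-- Equality at the regular icosahedron. -/
lemma line_regular (hue : ∀ i, u (i + 6) = u i) (hu : ∀ i, u i = z i • e) (h0 : ∑ i, u i = 0)
    (h : area (toE (X5 + u)) ≤ area0 X5) : u = 0 := by
  by_contra hne
  have h1 := second_pos u hue h0 hne
  have h2 := area_ge_eq (X (Real.sqrt 5)) (X_odd _) hue hu h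
  rw [eta_line hu] at h1
  simp only [P_line hu, h2, dotProduct_zero] at h1
  simp at h1

end rankone

/-- The symmetric part of a map with collinear midpoints. -/
lemma evenPart_line (w : Fin 12 → E3) (c e : E3) (ζ : Fin 12 → ℝ)
    (hw : ∀ i, w i + w (i + 6) = (2 : ℝ) • c + ζ i • e) :
    ∃ z : Fin 12 → ℝ, ∀ i, evenPart w i = z i • e.ofLp := by
  have h1 : ∀ i, (w i).ofLp + (w (i + 6)).ofLp = (2 : ℝ) • c.ofLp + ζ i • e.ofLp := fun i =>
    congrArg WithLp.ofLp (hw i)
  have h2 : ∑ i, evenPart w i = 0 := evenPart_sum w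
  have h3 : ∀ i, evenPart w i = (c.ofLp - cen w) + (ζ i / 2) • e.ofLp := by
    intro i
    rw [evenPart, h1]
    ext j
    simp only [Pi.smul_apply, Pi.sub_apply, Pi.add_apply, smul_eq_mul]
    ring
  have h4 : c.ofLp - cen w = (-(1 / 12) * ∑ i, ζ i / 2) • e.ofLp := by
    rw [Finset.sum_congr rfl fun i _ => h3 i, Finset.sum_add_distrib, Finset.sum_const,
      Finset.card_univ, Fintype.card_fin, ← Finset.sum_smul, ← Nat.cast_smul_eq_nsmul ℝ] at h2
    ext j
    have h5 := congrFun h2 j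
    simp only [Pi.smul_apply, Pi.sub_apply, Pi.add_apply, smul_eq_mul, Pi.zero_apply] at h5 ⊢
    push_cast at h5
    linarith
  refine ⟨fun i => -(1 / 12) * (∑ i, ζ i / 2) + ζ i / 2, fun i => ?_⟩
  rw [h3, h4, add_smul]

/-- Steiner's inequality for maps with collinear midpoints. -/
theorem collinear_ineq (w : Fin 12 → E3) (c e : E3) (ζ : Fin 12 → ℝ)
    (hw : ∀ i, w i + w (i + 6) = (2 : ℝ) • c + ζ i • e) :
    area regular ^ 3 * vol w ^ 2 ≤ area w ^ 3 * vol regular ^ 2 ∧
      (vol w ≠ 0 → area w ^ 3 * vol regular ^ 2 ≤ area regular ^ 3 * vol w ^ 2 →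
        evenPart w = 0) := by
  obtain ⟨z, hz⟩ := evenPart_line w c e ζ hw
  have hx := oddPart_odd w
  have hu := evenPart_even w
  have h0 := ineq (toE (oddPart w)) 0 (by
    intro i
    rw [smul_zero, zero_sub]
    simp only [toE, hx]
    rfl)
  rw [area_odd _ hx, vol_odd _ hx] at h0
  have hA := area_ge (oddPart w) hx hu hz
  rw [← area_split] at hA
  have hV := vol_line (oddPart w) hx hu hz
  rw [← vol_split_eq] at hV
  have hcube : area0 (oddPart w) ^ 3 ≤ area w ^ 3 :=
    (Odd.strictMono_pow (by decide : Odd 3)).monotone hA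
  have hmul := mul_le_mul_of_nonneg_right hcube (sq_nonneg (vol regular))
  rw [hV]
  refine ⟨h0.trans hmul, fun hv heq => ?_⟩
  have hV0 : 0 < vol regular ^ 2 := by
    have := vol_regular_ne
    positivity
  -- the antisymmetric part is similar to the regular one
  have hA' : area w ^ 3 ≤ area0 (oddPart w) ^ 3 := le_of_mul_le_mul_right (heq.trans h0) hV0
  have hA2 : area w ≤ area0 (oddPart w) :=
    (Odd.strictMono_pow (by decide : Odd 3)).le_iff_le.1 hA'
  have eA : area regular = area0 X5 := by rw [area_regular, area0_X]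
  have eV : vol regular = vol0 X5 := by rw [vol_regular, vol0_X]
  have heq' : area0 (oddPart w) ^ 3 * vol0 X5 ^ 2 ≤ area0 X5 ^ 3 * vol0 (oddPart w) ^ 2 := by
    rw [← eA, ← eV]
    exact hmul.trans heq
  obtain ⟨k, R, hk, hR, hkR⟩ := odd_strict (oddPart w) hx hv heq'
  -- transport
  have hki : 0 < k⁻¹ := inv_pos.2 hk
  set u' : V := fun i => k⁻¹ • (Rᵀ *ᵥ evenPart w i) with hu'
  have hR' : R * Rᵀ = 1 := orth_comm hR
  have e1 : (fun i => simL k⁻¹ R (toE (oddPart w + evenPart w) i)) = toE (X5 + u') := by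
    funext i
    unfold simL toE
    congr 1
    change k⁻¹ • (Rᵀ *ᵥ (oddPart w i + evenPart w i)) = X5 i + u' i
    rw [Matrix.mulVec_add, smul_add, hkR i, Matrix.mulVec_smul, smul_smul,
      inv_mul_cancel₀ hk.ne', one_smul, Matrix.mulVec_mulVec, hR, Matrix.one_mulVec]
  have e2 : (fun i => simL k⁻¹ R (toE (oddPart w) i)) = toE X5 := by
    funext i
    unfold simL toE
    congr 1
    change k⁻¹ • (Rᵀ *ᵥ oddPart w i) = X5 i
    rw [hkR i, Matrix.mulVec_smul, smul_smul,
      inv_mul_cancel₀ hk.ne', one_smul, Matrix.mulVec_mulVec, hR, Matrix.one_mulVec]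
  have a1 := simL_area k⁻¹ hR (toE (oddPart w + evenPart w))
  have a2 := simL_area k⁻¹ hR (toE (oddPart w))
  rw [e1, ← area_split] at a1
  rw [e2, area_odd _ hx, area_odd _ (X_odd _)] at a2
  have h1 : area (toE (X5 + u')) ≤ area0 X5 := by
    rw [a1, a2]
    exact mul_le_mul_of_nonneg_left hA2 (by positivity)
  have h2 : u' = 0 := by
    refine line_regular (z := z) (e := k⁻¹ • (Rᵀ *ᵥ e.ofLp)) (fun i => ?_) (fun i => ?_) ?_ h1
    · simp only [hu', hu]
    · simp only [hu', hz]
      rw [Matrix.mulVec_smul, smul_comm]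
    · simp only [hu']
      rw [← Finset.smul_sum, ← Matrix.mulVec_sum, evenPart_sum, Matrix.mulVec_zero, smul_zero]
  funext i
  have h3 : k⁻¹ • (Rᵀ *ᵥ evenPart w i) = 0 := congrFun h2 i
  have h4 : Rᵀ *ᵥ evenPart w i = 0 := (smul_eq_zero.1 h3).resolve_left hki.ne'
  have h5 : R *ᵥ (Rᵀ *ᵥ evenPart w i) = 0 := by rw [h4, Matrix.mulVec_zero]
  rw [Matrix.mulVec_mulVec, hR', Matrix.one_mulVec] at h5
  exact h5

/-- Steiner's inequality, with its equality case, for all vertex maps close to a given one of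
nonzero volume such that the midpoints of the six main diagonals are collinear. -/
theorem near_collinear (w₀ : Fin 12 → E3) (c e : E3) (ζ : Fin 12 → ℝ)
    (hw : ∀ i, w₀ i + w₀ (i + 6) = (2 : ℝ) • c + ζ i • e) (hv : vol w₀ ≠ 0) :
    ∃ ε > 0, ∀ w : Fin 12 → E3, (∀ i, dist (w i) (w₀ i) < ε) →
      area regular ^ 3 * vol w ^ 2 ≤ area w ^ 3 * vol regular ^ 2 ∧
      (area regular ^ 3 * vol w ^ 2 = area w ^ 3 * vol regular ^ 2 →
        ∃ r > 0, ∀ i j, dist (w i) (w j) = r * dist (regular i) (regular j)) := by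
  obtain ⟨h0, h1⟩ := collinear_ineq w₀ c e ζ hw
  rcases h0.lt_or_eq with hlt | heq
  · have hc1 : Continuous fun w : Fin 12 → E3 => area regular ^ 3 * vol w ^ 2 :=
      continuous_const.mul (continuous_vol.pow 2)
    have hc2 : Continuous fun w : Fin 12 → E3 => area w ^ 3 * vol regular ^ 2 :=
      (continuous_area.pow 3).mul continuous_const
    refine exists_radius' ((hc1.continuousAt.eventually_lt hc2.continuousAt hlt).mono
      fun w h => ⟨h.le, fun he => absurd he h.ne⟩)
  · have h2 := h1 hv heq.symm.le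
    refine near_symm w₀ (WithLp.toLp 2 (cen w₀)) (fun i => ?_) hv
    have h3 := congrFun h2 i
    rw [evenPart] at h3
    ext j
    have h4 := congrFun h3 j
    simp only [Pi.smul_apply, Pi.sub_apply, Pi.add_apply, smul_eq_mul, Pi.zero_apply] at h4
    simp only [PiLp.sub_apply, PiLp.smul_apply, smul_eq_mul]
    linarith

end Pool.Agent.IcoLocal
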