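import Pool.Agent.IcoLocal.SymDefs

/-!
# Local minimality of the regular icosahedron: vector algebra
-/

open Matrix

namespace Pool.Agent.IcoLocal

open Pool.Agent.Lib_helper76.Ico
open Pool.Agent.Results.MP_fa01f0_gt.CentrallySymmetric

/-- Positions of the twelve vertices. -/
abbrev V : Type := Fin 12 → Fin 3 → ℝ

/-- square of the Euclidean length -/
def nn (a : Fin 3 → ℝ) : ℝ := a ⬝ᵥ a

lemma nn_nonneg (a : Fin 3 → ℝ) : 0 ≤ nn a := by
  simp only [nn, dotProduct, Fin.sum_univ_three]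
  nlinarith [mul_self_nonneg (a 0), mul_self_nonneg (a 1), mul_self_nonneg (a 2)]

lemma nn_neg (a : Fin 3 → ℝ) : nn (-a) = nn a := by
  simp only [nn, dotProduct, Fin.sum_univ_three, Pi.neg_apply]
  ring

lemma lagrange (a q : Fin 3 → ℝ) : nn (a ⨯₃ q) = nn a * nn q - (a ⬝ᵥ q) ^ 2 := by
  simp only [nn, dotProduct, Fin.sum_univ_three, cross_apply, Matrix.cons_val_zero,
    Matrix.cons_val_one, Matrix.cons_val_two, Matrix.head_cons, Matrix.tail_cons, Matrix.cons_val]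
  ring

/-- The pair of antipodal faces. -/
lemma pair_lower (a q : Fin 3 → ℝ) (ha : 0 < nn a) :
    2 * Real.sqrt (nn a + nn (a ⨯₃ q) / nn a) ≤ Real.sqrt (nn (a + q)) + Real.sqrt (nn (a - q)) := by
  have e1 : nn (a + q) = nn a + nn q + 2 * (a ⬝ᵥ q) := by
    simp only [nn, dotProduct, Fin.sum_univ_three, Pi.add_apply]; ring
  have e2 : nn (a - q) = nn a + nn q - 2 * (a ⬝ᵥ q) := by
    simp only [nn, dotProduct, Fin.sum_univ_three, Pi.sub_apply]; ring
  have hD := lagrange a q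
  set A := nn a with hA
  set B := nn q with hB
  set C := a ⬝ᵥ q with hC
  have hB0 : 0 ≤ B := nn_nonneg q
  have hD0 : 0 ≤ A * B - C ^ 2 := hD ▸ nn_nonneg _
  rw [hD, e1, e2]
  have h1 : 0 ≤ A + B + 2 * C := e1 ▸ nn_nonneg _
  have h2 : 0 ≤ A + B - 2 * C := e2 ▸ nn_nonneg _
  have hs1 := Real.sq_sqrt h1
  have hs2 := Real.sq_sqrt h2
  have hn1 := Real.sqrt_nonneg (A + B + 2 * C)
  have hn2 := Real.sqrt_nonneg (A + B - 2 * C)
  have hkey : A + B - 2 * C ^ 2 / A ≤ Real.sqrt (A + B + 2 * C) * Real.sqrt (A + B - 2 * C) := by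
    rw [← Real.sqrt_mul h1]
    apply Real.le_sqrt_of_sq_le
    have e3 : (A + B + 2 * C) * (A + B - 2 * C) - (A + B - 2 * C ^ 2 / A) ^ 2
        = 4 * C ^ 2 * (A * B - C ^ 2) / A ^ 2 := by
      field_simp
      ring
    have : 0 ≤ 4 * C ^ 2 * (A * B - C ^ 2) / A ^ 2 := by positivity
    linarith
  have h4 : 0 ≤ A + (A * B - C ^ 2) / A := by positivity
  have h5 : (2 * Real.sqrt (A + (A * B - C ^ 2) / A)) ^ 2
      ≤ (Real.sqrt (A + B + 2 * C) + Real.sqrt (A + B - 2 * C)) ^ 2 := by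
    rw [mul_pow, Real.sq_sqrt h4]
    have e5 : (A * B - C ^ 2) / A = B - C ^ 2 / A := by field_simp
    rw [e5]
    have e6 : 2 * C ^ 2 / A = 2 * (C ^ 2 / A) := by ring
    rw [e6] at hkey
    nlinarith [hkey, hs1, hs2]
  exact abs_le_of_sq_le_sq' h5 (by positivity) |>.2

/-- The increase of the area of a pair of antipodal faces. -/
lemma pair_lower' (P R q : Fin 3 → ℝ) (hP : 0 < nn P) (ha : 0 < nn (P + R)) :
    2 * Real.sqrt (nn P) + 2 * ((P ⬝ᵥ R) / Real.sqrt (nn P)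
        + (nn ((P + R) ⨯₃ q) / nn (P + R)) /
          (Real.sqrt (nn (P + R) + nn ((P + R) ⨯₃ q) / nn (P + R)) + Real.sqrt (nn (P + R))))
      ≤ Real.sqrt (nn (P + R + q)) + Real.sqrt (nn (P + R - q)) := by
  refine le_trans ?_ (pair_lower (P + R) q ha)
  have hsP : 0 < Real.sqrt (nn P) := Real.sqrt_pos.2 hP
  have hsa : 0 < Real.sqrt (nn (P + R)) := Real.sqrt_pos.2 ha
  have hD : 0 ≤ nn ((P + R) ⨯₃ q) / nn (P + R) := div_nonneg (nn_nonneg _) ha.le
  have h1 : Real.sqrt (nn P) + (P ⬝ᵥ R) / Real.sqrt (nn P) ≤ Real.sqrt (nn (P + R)) := by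
    have e : Real.sqrt (nn P) + (P ⬝ᵥ R) / Real.sqrt (nn P)
        = (P ⬝ᵥ (P + R)) / Real.sqrt (nn P) := by
      rw [dotProduct_add]
      have : P ⬝ᵥ P = Real.sqrt (nn P) ^ 2 := (Real.sq_sqrt hP.le).symm
      rw [this]
      field_simp
    rw [e, div_le_iff₀ hsP, ← Real.sqrt_mul ha.le]
    apply Real.le_sqrt_of_sq_le
    have := nn_nonneg (P ⨯₃ (P + R))
    rw [lagrange] at this
    nlinarith
  have h2 : Real.sqrt (nn (P + R) + nn ((P + R) ⨯₃ q) / nn (P + R))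
      = Real.sqrt (nn (P + R)) + (nn ((P + R) ⨯₃ q) / nn (P + R)) /
          (Real.sqrt (nn (P + R) + nn ((P + R) ⨯₃ q) / nn (P + R)) + Real.sqrt (nn (P + R))) := by
    have hpos : 0 < Real.sqrt (nn (P + R) + nn ((P + R) ⨯₃ q) / nn (P + R))
        + Real.sqrt (nn (P + R)) := by
      have := Real.sqrt_nonneg (nn (P + R) + nn ((P + R) ⨯₃ q) / nn (P + R))
      linarith
    rw [← sub_eq_iff_eq_add', eq_div_iff hpos.ne']
    have s1 := Real.sq_sqrt (add_nonneg ha.le hD)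
    have s2 := Real.sq_sqrt ha.le
    nlinarith
  linarith

end Pool.Agent.IcoLocal
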