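import Pool.Agent.IcoLocal.Second
import Pool.Agent.IcoLocal.Sym

/-!
# Local minimality of the regular icosahedron: positivity and continuity
-/

open Matrix Filter Topology

namespace Pool.Agent.IcoLocal

open Pool.Agent.Lib_helper76.Ico
open Pool.Agent.Results.MP_fa01f0_gt.CentrallySymmetric

lemma sosQ_nonneg (s : ℝ) (hs : 0 ≤ s) (v : V) : 0 ≤ sosQ s v := by
  unfold sosQ
  positivity

lemma sum12 (F : Fin 12 → ℝ) : ∑ i, F i = F 0 + (F 1 + (F 2 + (F 3 + (F 4 + (F 5 + (F 6 + (F 7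
    + (F 8 + (F 9 + (F 10 + (F 11 + 0))))))))))) := by
  simp only [Fin.sum_univ_succ, Fin.sum_univ_zero]
  rfl

lemma second_pos (v : V) (hv : ∀ i, v (i + 6) = v i) (h0 : ∑ i, v i = 0) (hne : v ≠ 0) :
    0 < (3 + Real.sqrt 5) * ∑ f, (P (X (Real.sqrt 5)) f ⬝ᵥ P v f
      + nn (P (X (Real.sqrt 5)) f ⨯₃ Q (X (Real.sqrt 5)) v f) / 6)
        - 6 * eta (X (Real.sqrt 5)) v := by
  have hs : Real.sqrt 5 ^ 2 = 5 := Real.sq_sqrt (by norm_num)
  rw [main_id _ hs v hv]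
  have e6 : v 6 = v 0 := hv 0
  have e7 : v 7 = v 1 := hv 1
  have e8 : v 8 = v 2 := hv 2
  have e9 : v 9 = v 3 := hv 3
  have e10 : v 10 = v 4 := hv 4
  have e11 : v 11 = v 5 := hv 5
  have hsum : ∀ k, v 0 k + v 1 k + v 2 k + v 3 k + v 4 k + v 5 k = 0 := by
    intro k
    have h := congrFun h0 k
    rw [Finset.sum_apply] at h
    simp only [Fin.sum_univ_succ, Fin.sum_univ_zero] at h
    have h' : v 0 k + (v 1 k + (v 2 k + (v 3 k + (v 4 k + (v 5 k + (v 6 k + (v 7 k + (v 8 k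
      + (v 9 k + (v 10 k + (v 11 k + 0))))))))))) = 0 := h
    rw [e6, e7, e8, e9, e10, e11] at h'
    linarith
  rw [hsum 0, hsum 1, hsum 2]
  have hq := sosQ_nonneg (Real.sqrt 5) (Real.sqrt_nonneg 5) v
  have hS : ∑ i, ∑ k, v i k ^ 2 = 2 * (v 0 0 ^ 2 + v 0 1 ^ 2 + v 0 2 ^ 2 + v 1 0 ^ 2 + v 1 1 ^ 2
      + v 1 2 ^ 2 + v 2 0 ^ 2 + v 2 1 ^ 2 + v 2 2 ^ 2 + v 3 0 ^ 2 + v 3 1 ^ 2 + v 3 2 ^ 2
      + v 4 0 ^ 2 + v 4 1 ^ 2 + v 4 2 ^ 2 + v 5 0 ^ 2 + v 5 1 ^ 2 + v 5 2 ^ 2) := by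
    have h' : ∑ i, ∑ k, v i k ^ 2 = (∑ k, v 0 k ^ 2) + ((∑ k, v 1 k ^ 2) + ((∑ k, v 2 k ^ 2)
      + ((∑ k, v 3 k ^ 2) + ((∑ k, v 4 k ^ 2) + ((∑ k, v 5 k ^ 2) + ((∑ k, v 6 k ^ 2)
      + ((∑ k, v 7 k ^ 2) + ((∑ k, v 8 k ^ 2) + ((∑ k, v 9 k ^ 2) + ((∑ k, v 10 k ^ 2)
      + ((∑ k, v 11 k ^ 2) + 0))))))))))) := by
      exact sum12 _
    rw [h', e6, e7, e8, e9, e10, e11]
    simp only [Fin.sum_univ_three]
    ring
  have hpos : 0 < ∑ i, ∑ k, v i k ^ 2 := by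
    obtain ⟨i, hi⟩ := Function.ne_iff.1 hne
    obtain ⟨k, hk⟩ := Function.ne_iff.1 hi
    have hk' : 0 < v i k ^ 2 := by
      have : v i k ≠ 0 := hk
      positivity
    refine Finset.sum_pos' (fun i _ => Finset.sum_nonneg fun k _ => sq_nonneg _)
      ⟨i, Finset.mem_univ i, Finset.sum_pos' (fun k _ => sq_nonneg _)
        ⟨k, Finset.mem_univ k, hk'⟩⟩
  rw [hS] at hpos
  nlinarith

lemma P_zero (f : Fin 10) : P 0 f = 0 := by
  ext j
  fin_cases j <;> simp [P, fS, cross_apply]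

lemma nn_PX (f : Fin 10) : nn (P (X (Real.sqrt 5)) f) = 3 := by
  have hs : Real.sqrt 5 ^ 2 = 5 := Real.sq_sqrt (by norm_num)
  fin_cases f
  · show nn (P (X (Real.sqrt 5)) 0) = 3
    rw [PX0 _ hs]; simp [nn, dotProduct, Fin.sum_univ_three]; norm_num
  · show nn (P (X (Real.sqrt 5)) 1) = 3
    rw [PX1 _ hs]; simp [nn, dotProduct, Fin.sum_univ_three]; norm_num
  · show nn (P (X (Real.sqrt 5)) 2) = 3
    rw [PX2 _ hs]; simp [nn, dotProduct, Fin.sum_univ_three]; norm_num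
  · show nn (P (X (Real.sqrt 5)) 3) = 3
    rw [PX3 _ hs]; simp [nn, dotProduct, Fin.sum_univ_three]; norm_num
  · show nn (P (X (Real.sqrt 5)) 4) = 3
    rw [PX4 _ hs]; simp [nn, dotProduct, Fin.sum_univ_three]; nlinarith
  · show nn (P (X (Real.sqrt 5)) 5) = 3
    rw [PX5 _ hs]; simp [nn, dotProduct, Fin.sum_univ_three]; nlinarith
  · show nn (P (X (Real.sqrt 5)) 6) = 3
    rw [PX6 _ hs]; simp [nn, dotProduct, Fin.sum_univ_three]; nlinarith
  · show nn (P (X (Real.sqrt 5)) 7) = 3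
    rw [PX7 _ hs]; simp [nn, dotProduct, Fin.sum_univ_three]; nlinarith
  · show nn (P (X (Real.sqrt 5)) 8) = 3
    rw [PX8 _ hs]; simp [nn, dotProduct, Fin.sum_univ_three]; nlinarith
  · show nn (P (X (Real.sqrt 5)) 9) = 3
    rw [PX9 _ hs]; simp [nn, dotProduct, Fin.sum_univ_three]; nlinarith

lemma X_odd (s : ℝ) (i : Fin 12) : X s (i + 6) = -X s i := by
  fin_cases i <;> ext j <;> fin_cases j <;> simp [X] <;> ring

lemma toE_X : toE (X (Real.sqrt 5)) = regular := by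
  funext i
  have hφ : Real.goldenRatio = (1 + Real.sqrt 5) / 2 := rfl
  fin_cases i <;> ext j <;> fin_cases j <;> simp [toE, X, regular, hφ] <;> ring

lemma area0_X : area0 (X (Real.sqrt 5)) = 20 * Real.sqrt 3 := by
  rw [← area_odd _ (X_odd _), toE_X, area_regular]

lemma vol0_X : vol0 (X (Real.sqrt 5)) = 10 / 3 * (3 + Real.sqrt 5) := by
  rw [← vol_odd _ (X_odd _), toE_X, vol_regular]

lemma Theta_base (v : V) : Theta (X (Real.sqrt 5)) 0 v 0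
    = 2 / Real.sqrt 3 * ∑ f, (P (X (Real.sqrt 5)) f ⬝ᵥ P v f
      + nn (P (X (Real.sqrt 5)) f ⨯₃ Q (X (Real.sqrt 5)) v f) / 6) := by
  rw [Theta, div_mul_eq_mul_div, eq_div_iff (by positivity), mul_assoc, Finset.sum_mul]
  congr 1
  refine Finset.sum_congr rfl fun f _ => ?_
  have h3 : Real.sqrt 3 ^ 2 = 3 := Real.sq_sqrt (by norm_num)
  have h3' : Real.sqrt 3 ≠ 0 := by positivity
  rw [theta, P_zero, add_zero, nn_PX, zero_mul, add_zero]
  field_simp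
  nlinarith [h3]

/-- The compact set of directions. -/
def K : Set V := {v | ‖v‖ = 1 ∧ (∀ i, v (i + 6) = v i) ∧ ∑ i, v i = 0}

lemma isCompact_K : IsCompact K := by
  have h1 : IsClosed {v : V | (∀ i, v (i + 6) = v i) ∧ ∑ i, v i = 0} := by
    apply IsClosed.and
    · rw [show {v : V | ∀ i, v (i + 6) = v i} = ⋂ i, {v : V | v (i + 6) = v i} by
        ext v; simp]
      exact isClosed_iInter fun i =>
        isClosed_eq (continuous_apply (i + 6)) (continuous_apply i)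
    · exact isClosed_eq (continuous_finsetSum _ fun i _ => continuous_apply i) continuous_const
  have h2 := (isCompact_sphere (0 : V) 1).inter_right h1
  have e : K = Metric.sphere (0 : V) 1 ∩ {v : V | (∀ i, v (i + 6) = v i) ∧ ∑ i, v i = 0} := by
    ext v
    constructor
    · rintro ⟨h1, h2⟩
      exact ⟨by rw [mem_sphere_zero_iff_norm]; exact h1, h2⟩
    · rintro ⟨h1, h2⟩
      exact ⟨by rw [mem_sphere_zero_iff_norm] at h1; exact h1, h2⟩
  rw [e]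
  exact h2

end Pool.Agent.IcoLocal
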