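import Pool.Agent.IcoLocal.Nbhd

/-!
# Cutting an icosahedron along a centrally symmetric hexagon and glueing each half to its
# point reflection
-/

open Matrix Filter Topology
open scoped RealInnerProductSpace

namespace Pool.Agent.IcoLocal

open Pool.Agent.Lib_helper76.Ico
open Pool.Agent.Results.MP_fa01f0_gt.CentrallySymmetric

/-- The triangles number `g` and `f` have a common vertex. -/
def Meets (g f : Fin 20) : Prop := ∃ k l, tri g k = tri f l

instance (g f : Fin 20) : Decidable (Meets g f) := by unfold Meets; infer_instance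

/-- Area of the image of triangle number `f`. -/
noncomputable def fArea (w : Fin 12 → E3) (f : Fin 20) : ℝ :=
  triArea (w (tri f 0)) (w (tri f 1)) (w (tri f 2))

/-- Signed volume of the cone with apex `c` over the image of triangle number `f`. -/
noncomputable def cone (c : E3) (w : Fin 12 → E3) (f : Fin 20) : ℝ :=
  (Matrix.of fun i j => (w (tri f i) - c) j).det / 6

lemma area_eq_sum (w : Fin 12 → E3) : area w = ∑ f, fArea w f := rfl

lemma vol_eq_sum (w : Fin 12 → E3) (c : E3) : vol w = ∑ f, cone c w f := by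
  rw [← vol_translate w c]
  rfl

lemma opp0 (f : Fin 20) : tri (f + 10) 0 = tri f 0 + 6 := by
  revert f; decide

lemma opp1 (f : Fin 20) : tri (f + 10) 1 = tri f 2 + 6 := by
  revert f; decide

lemma opp2 (f : Fin 20) : tri (f + 10) 2 = tri f 1 + 6 := by
  revert f; decide

lemma meets_opp (g f : Fin 20) : Meets g (f + 10) ↔ ¬ Meets g f := by
  revert g f; decide

lemma not_opp (g f : Fin 20) (h : Meets g f) (k l : Fin 3) : tri f k ≠ tri g l + 6 := by
  revert g f h k l; decide

lemma mem_of_not_meets (g f : Fin 20) (h : ¬ Meets g f) (k l : Fin 3) : tri f k ≠ tri g l := by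
  intro h1
  exact h ⟨l, k, h1.symm⟩

lemma opp_notin (g : Fin 20) (k l : Fin 3) : tri g k + 6 ≠ tri g l := by
  revert g k l; decide

lemma triArea_neg (c x y z : E3) :
    triArea ((2 : ℝ) • c - x) ((2 : ℝ) • c - z) ((2 : ℝ) • c - y) = triArea x y z := by
  unfold triArea
  have h1 : (2 : ℝ) • c - z - ((2 : ℝ) • c - x) = -(z - x) := by abel
  have h2 : (2 : ℝ) • c - y - ((2 : ℝ) • c - x) = -(y - x) := by abel
  rw [h1, h2, norm_neg, norm_neg, inner_neg_neg, real_inner_comm]
  congr 2
  ring

lemma fArea_opp (w : Fin 12 → E3) (c : E3) (hw : ∀ i, w (i + 6) = (2 : ℝ) • c - w i) (f : Fin 20) :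
    fArea w (f + 10) = fArea w f := by
  unfold fArea
  rw [opp0, opp1, opp2, hw, hw, hw, triArea_neg]

lemma cone_opp (w : Fin 12 → E3) (c : E3) (hw : ∀ i, w (i + 6) = (2 : ℝ) • c - w i) (f : Fin 20) :
    cone c w (f + 10) = cone c w f := by
  unfold cone
  have h0 := hw (tri f 0)
  have h1 := hw (tri f 1)
  have h2 := hw (tri f 2)
  have e0 : ∀ j, (w (tri (f + 10) 0) - c) j = -((w (tri f 0) - c) j) := by
    intro j; rw [opp0, h0]; simp; ring
  have e1 : ∀ j, (w (tri (f + 10) 1) - c) j = -((w (tri f 2) - c) j) := by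
    intro j; rw [opp1, h2]; simp; ring
  have e2 : ∀ j, (w (tri (f + 10) 2) - c) j = -((w (tri f 1) - c) j) := by
    intro j; rw [opp2, h1]; simp; ring
  rw [Matrix.det_fin_three, Matrix.det_fin_three]
  simp only [Matrix.of_apply, e0, e1, e2]
  ring

lemma sum_split (g : Fin 20) (F : Fin 20 → ℝ) :
    ∑ f, F f = ∑ f with Meets g f, F f + ∑ f with ¬ Meets g f, F f :=
  (Finset.sum_filter_add_sum_filter_not _ _ _).symm

lemma add1010 (f : Fin 20) : f + 10 + 10 = f := by
  revert f; decide

lemma sum_opp (g : Fin 20) (F : Fin 20 → ℝ) :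
    ∑ f with ¬ Meets g f, F f = ∑ f with Meets g f, F (f + 10) := by
  refine (Finset.sum_bij (fun f _ => f + 10) ?_ ?_ ?_ ?_).symm
  · intro f hf
    simp only [Finset.mem_filter, Finset.mem_univ, true_and] at hf ⊢
    rw [meets_opp]
    exact not_not.2 hf
  · intro a _ b _ h
    exact add_right_cancel h
  · intro f hf
    simp only [Finset.mem_filter, Finset.mem_univ, true_and] at hf
    refine ⟨f + 10, ?_, add1010 f⟩
    simp only [Finset.mem_filter, Finset.mem_univ, true_and]
    rw [meets_opp]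
    exact hf
  · intro f _; rfl

lemma sum_opp' (g : Fin 20) (F : Fin 20 → ℝ) :
    ∑ f with Meets g f, F f = ∑ f with ¬ Meets g f, F (f + 10) := by
  rw [sum_opp g (fun f => F (f + 10))]
  refine Finset.sum_congr rfl fun f _ => ?_
  rw [add1010]

section halves

variable (g : Fin 20) (w : Fin 12 → E3) (c : E3)

/-- The centrally symmetric map which agrees with `w` on the triangles meeting triangle `g`. -/
noncomputable def half1 : Fin 12 → E3 := fun i =>
  if ∃ k, tri g k + 6 = i then (2 : ℝ) • c - w (i + 6) else w i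

/-- The centrally symmetric map which agrees with `w` on the triangles not meeting triangle `g`. -/
noncomputable def half2 : Fin 12 → E3 := fun i =>
  if ∃ k, tri g k = i then (2 : ℝ) • c - w (i + 6) else w i

lemma add66 (i : Fin 12) : i + 6 + 6 = i := by
  revert i; decide

variable (hK : ∀ i, (∀ k, tri g k ≠ i) → (∀ k, tri g k ≠ i + 6) → w (i + 6) = (2 : ℝ) • c - w i)

include hK

lemma half1_symm (i : Fin 12) : half1 g w c (i + 6) = (2 : ℝ) • c - half1 g w c i := by
  unfold half1
  by_cases h1 : ∃ k, tri g k + 6 = i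
  · obtain ⟨k, rfl⟩ := h1
    have h2 : ¬ ∃ l, tri g l + 6 = tri g k + 6 + 6 := by
      rintro ⟨l, hl⟩
      rw [add66] at hl
      exact opp_notin g l k hl
    rw [if_neg h2, if_pos ⟨k, rfl⟩]
    abel
  · by_cases h2 : ∃ k, tri g k + 6 = i + 6
    · rw [if_pos h2, if_neg h1, add66]
    · rw [if_neg h1, if_neg h2]
      refine hK i (fun k hk => h2 ⟨k, by rw [hk]⟩) (fun k hk => h1 ⟨k, by rw [hk, add66]⟩)

lemma half2_symm (i : Fin 12) : half2 g w c (i + 6) = (2 : ℝ) • c - half2 g w c i := by
  unfold half2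
  by_cases h1 : ∃ k, tri g k = i
  · obtain ⟨k, rfl⟩ := h1
    have h2 : ¬ ∃ l, tri g l = tri g k + 6 := by
      rintro ⟨l, hl⟩
      exact opp_notin g k l hl.symm
    rw [if_neg h2, if_pos ⟨k, rfl⟩]
    abel
  · by_cases h2 : ∃ k, tri g k = i + 6
    · rw [if_pos h2, if_neg h1, add66]
    · rw [if_neg h1, if_neg h2]
      exact hK i (fun k hk => h1 ⟨k, hk⟩) (fun k hk => h2 ⟨k, hk⟩)

omit hK in
lemma half1_eq {f : Fin 20} (hf : Meets g f) (k : Fin 3) :
    half1 g w c (tri f k) = w (tri f k) := by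
  unfold half1
  rw [if_neg]
  rintro ⟨l, hl⟩
  exact not_opp g f hf k l hl.symm

omit hK in
lemma half2_eq {f : Fin 20} (hf : ¬ Meets g f) (k : Fin 3) :
    half2 g w c (tri f k) = w (tri f k) := by
  unfold half2
  rw [if_neg]
  rintro ⟨l, hl⟩
  exact mem_of_not_meets g f hf k l hl.symm

lemma area_half1 : area (half1 g w c) = 2 * ∑ f with Meets g f, fArea w f := by
  rw [area_eq_sum, sum_split g, sum_opp g, two_mul]
  congr 1
  · refine Finset.sum_congr rfl fun f hf => ?_
    simp only [Finset.mem_filter, Finset.mem_univ, true_and] at hf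
    unfold fArea
    rw [half1_eq g w c hf, half1_eq g w c hf, half1_eq g w c hf]
  · refine Finset.sum_congr rfl fun f hf => ?_
    simp only [Finset.mem_filter, Finset.mem_univ, true_and] at hf
    rw [fArea_opp _ c (half1_symm g w c hK)]
    unfold fArea
    rw [half1_eq g w c hf, half1_eq g w c hf, half1_eq g w c hf]

lemma vol_half1 : vol (half1 g w c) = 2 * ∑ f with Meets g f, cone c w f := by
  rw [vol_eq_sum _ c, sum_split g, sum_opp g, two_mul]
  congr 1
  · refine Finset.sum_congr rfl fun f hf => ?_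
    simp only [Finset.mem_filter, Finset.mem_univ, true_and] at hf
    unfold cone
    simp only [half1_eq g w c hf]
  · refine Finset.sum_congr rfl fun f hf => ?_
    simp only [Finset.mem_filter, Finset.mem_univ, true_and] at hf
    rw [cone_opp _ c (half1_symm g w c hK)]
    unfold cone
    simp only [half1_eq g w c hf]

lemma area_half2 : area (half2 g w c) = 2 * ∑ f with ¬ Meets g f, fArea w f := by
  rw [area_eq_sum, sum_split g, sum_opp' g, two_mul]
  congr 1
  · refine Finset.sum_congr rfl fun f hf => ?_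
    simp only [Finset.mem_filter, Finset.mem_univ, true_and] at hf
    rw [fArea_opp _ c (half2_symm g w c hK)]
    unfold fArea
    rw [half2_eq g w c hf, half2_eq g w c hf, half2_eq g w c hf]
  · refine Finset.sum_congr rfl fun f hf => ?_
    simp only [Finset.mem_filter, Finset.mem_univ, true_and] at hf
    unfold fArea
    rw [half2_eq g w c hf, half2_eq g w c hf, half2_eq g w c hf]

lemma vol_half2 : vol (half2 g w c) = 2 * ∑ f with ¬ Meets g f, cone c w f := by
  rw [vol_eq_sum _ c, sum_split g, sum_opp' g, two_mul]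
  congr 1
  · refine Finset.sum_congr rfl fun f hf => ?_
    simp only [Finset.mem_filter, Finset.mem_univ, true_and] at hf
    rw [cone_opp _ c (half2_symm g w c hK)]
    unfold cone
    simp only [half2_eq g w c hf]
  · refine Finset.sum_congr rfl fun f hf => ?_
    simp only [Finset.mem_filter, Finset.mem_univ, true_and] at hf
    unfold cone
    simp only [half2_eq g w c hf]

end halves

lemma eq_zero_of_regular (g : Fin 20) (a : Fin 3 → ℝ)
    (h : ∀ i, (∀ k, tri g k ≠ i) → (∀ k, tri g k ≠ i + 6) → a ⬝ᵥ (regular i).ofLp = 0) : a = 0 := by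
  have hφ : Real.goldenRatio ^ 2 = Real.goldenRatio + 1 := Real.goldenRatio_sq
  obtain ⟨φ, hφ'⟩ : ∃ φ, φ = Real.goldenRatio := ⟨_, rfl⟩
  rw [← hφ'] at hφ
  have e0 : a ⬝ᵥ (regular 0).ofLp = φ * a 1 + a 2 := by
    simp [regular, dotProduct, Fin.sum_univ_three, ← hφ', mul_comm]
  have e1 : a ⬝ᵥ (regular 1).ofLp = φ * a 1 - a 2 := by
    simp [regular, dotProduct, Fin.sum_univ_three, ← hφ', mul_comm, sub_eq_add_neg]
  have e2 : a ⬝ᵥ (regular 2).ofLp = a 0 + φ * a 2 := by
    simp [regular, dotProduct, Fin.sum_univ_three, ← hφ', mul_comm]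
  have e3 : a ⬝ᵥ (regular 3).ofLp = -a 0 + φ * a 2 := by
    simp [regular, dotProduct, Fin.sum_univ_three, ← hφ', mul_comm]
  have e4 : a ⬝ᵥ (regular 4).ofLp = φ * a 0 + a 1 := by
    simp [regular, dotProduct, Fin.sum_univ_three, ← hφ', mul_comm]
  have e5 : a ⬝ᵥ (regular 5).ofLp = φ * a 0 - a 1 := by
    simp [regular, dotProduct, Fin.sum_univ_three, ← hφ', mul_comm, sub_eq_add_neg]
  have h0 := h 0
  have h1 := h 1
  have h2 := h 2
  have h3 := h 3
  have h4 := h 4
  have h5 := h 5
  rw [e0] at h0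
  rw [e1] at h1
  rw [e2] at h2
  rw [e3] at h3
  rw [e4] at h4
  rw [e5] at h5
  have key : a 0 = 0 ∧ a 1 = 0 ∧ a 2 = 0 := by
    clear e0 e1 e2 e3 e4 e5 h
    fin_cases g <;> simp (decide := true) at h0 h1 h2 h3 h4 h5 <;> grind
  ext j
  fin_cases j
  · exact key.1
  · exact key.2.1
  · exact key.2.2

lemma vol_regular_pos : 0 < vol regular := by
  rw [vol_regular]; positivity

lemma area_nonneg (w : Fin 12 → E3) : 0 ≤ area w :=
  Finset.sum_nonneg fun _ _ => mul_nonneg (by norm_num) (Real.sqrt_nonneg _)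

/-- Cube root form of the inequality. -/
lemma area_ge_rpow (w : Fin 12 → E3)
    (h : area regular ^ 3 * vol w ^ 2 ≤ area w ^ 3 * vol regular ^ 2) :
    area regular * (|vol w| / vol regular) ^ (2 / 3 : ℝ) ≤ area w := by
  have hV := vol_regular_pos
  have hx : 0 ≤ |vol w| / vol regular := div_nonneg (abs_nonneg _) hV.le
  have h3 : ((|vol w| / vol regular) ^ (2 / 3 : ℝ)) ^ 3 = (|vol w| / vol regular) ^ 2 := by
    rw [← Real.rpow_natCast, ← Real.rpow_mul hx]
    norm_num
  refine le_of_pow_le_pow_left₀ (n := 3) (by norm_num) (area_nonneg w) ?_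
  rw [mul_pow, h3, div_pow, sq_abs, ← mul_div_assoc, div_le_iff₀ (by positivity)]
  exact h

section main

variable (g : Fin 20) (w : Fin 12 → E3) (c : E3)
  (hK : ∀ i, (∀ k, tri g k ≠ i) → (∀ k, tri g k ≠ i + 6) → w (i + 6) = (2 : ℝ) • c - w i)

include hK

lemma area_halves : 2 * area w = area (half1 g w c) + area (half2 g w c) := by
  rw [area_half1 g w c hK, area_half2 g w c hK, area_eq_sum w, sum_split g]
  ring

/-- The unconditional inequality for a map with a centrally symmetric hexagon. -/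
theorem cut_ineq :
    area regular * ((|2 * ∑ f with Meets g f, cone c w f| / vol regular) ^ (2 / 3 : ℝ)
      + (|2 * ∑ f with ¬ Meets g f, cone c w f| / vol regular) ^ (2 / 3 : ℝ)) ≤ 2 * area w := by
  have h1 := area_ge_rpow _ (ineq (half1 g w c) c (half1_symm g w c hK))
  have h2 := area_ge_rpow _ (ineq (half2 g w c) c (half2_symm g w c hK))
  rw [vol_half1 g w c hK] at h1
  rw [vol_half2 g w c hK] at h2
  rw [area_halves g w c hK, mul_add]
  exact add_le_add h1 h2

/-- If the two halves are both regular, then the whole map is centrally symmetric. -/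
lemma symm_of_halves {k₁ k₂ : ℝ} {R₁ R₂ : Matrix (Fin 3) (Fin 3) ℝ}
    (h1 : ∀ i, (half1 g w c i).ofLp = c.ofLp + k₁ • (R₁ *ᵥ (regular i).ofLp))
    (h2 : ∀ i, (half2 g w c i).ofLp = c.ofLp + k₂ • (R₂ *ᵥ (regular i).ofLp)) :
    ∀ i, w (i + 6) = (2 : ℝ) • c - w i := by
  have hM : k₁ • R₁ - k₂ • R₂ = 0 := by
    ext a b
    have h3 : (k₁ • R₁ - k₂ • R₂) a = 0 := by
      refine eq_zero_of_regular g _ fun i hi1 hi2 => ?_
      have e1 : half1 g w c i = w i := by
        unfold half1
        rw [if_neg]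
        rintro ⟨k, hk⟩
        refine hi2 k ?_
        rw [← hk, add66]
      have e2 : half2 g w c i = w i := by
        unfold half2
        rw [if_neg]
        rintro ⟨k, hk⟩
        exact hi1 k hk
      have h4 := h1 i
      rw [e1] at h4
      have h5 := h2 i
      rw [e2, h4] at h5
      have h6 := congrFun (add_left_cancel h5) a
      simp only [Pi.smul_apply, smul_eq_mul, Matrix.mulVec] at h6
      show ((k₁ • R₁ - k₂ • R₂) a) ⬝ᵥ (regular i).ofLp = 0
      have h7 : (k₁ • R₁ - k₂ • R₂) a = k₁ • R₁ a - k₂ • R₂ a := rfl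
      rw [h7, sub_dotProduct, smul_dotProduct, smul_dotProduct, smul_eq_mul, smul_eq_mul, h6,
        sub_self]
    rw [h3]; rfl
  have hM' : k₁ • R₁ = k₂ • R₂ := sub_eq_zero.1 hM
  have h12 : ∀ i, half1 g w c i = half2 g w c i := by
    intro i
    have : (half1 g w c i).ofLp = (half2 g w c i).ofLp := by
      rw [h1, h2, ← Matrix.smul_mulVec, ← Matrix.smul_mulVec, hM']
    exact (WithLp.ofLp_injective 2) this
  have hw1 : ∀ i, half1 g w c i = w i := by
    intro i
    by_cases hi : ∃ k, tri g k + 6 = i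
    · rw [h12 i]
      unfold half2
      rw [if_neg]
      rintro ⟨k, hk⟩
      obtain ⟨l, hl⟩ := hi
      exact opp_notin g l k (hl.trans hk.symm)
    · unfold half1
      rw [if_neg hi]
  intro i
  have := half1_symm g w c hK i
  rwa [hw1, hw1] at this

omit hK in
lemma sum_cone : vol w = ∑ f with Meets g f, cone c w f + ∑ f with ¬ Meets g f, cone c w f := by
  rw [vol_eq_sum w c, sum_split g]

/-- Steiner's inequality, and centrally symmetric equality case, when the hexagon cuts the volume
into equal halves. -/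
theorem cut_halved (hV : ∑ f with Meets g f, cone c w f = ∑ f with ¬ Meets g f, cone c w f) :
    area regular ^ 3 * vol w ^ 2 ≤ area w ^ 3 * vol regular ^ 2 ∧
      (vol w ≠ 0 → area w ^ 3 * vol regular ^ 2 ≤ area regular ^ 3 * vol w ^ 2 →
        ∀ i, w (i + 6) = (2 : ℝ) • c - w i) := by
  have hs := sum_cone g w c
  have v1 : vol (half1 g w c) = vol w := by
    rw [vol_half1 g w c hK, hs, ← hV]; ring
  have v2 : vol (half2 g w c) = vol w := by
    rw [vol_half2 g w c hK, hs, hV]; ring
  have r1 := ineq (half1 g w c) c (half1_symm g w c hK)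
  have r2 := ineq (half2 g w c) c (half2_symm g w c hK)
  rw [v1] at r1
  rw [v2] at r2
  have hA := area_halves g w c hK
  have p0 := area_nonneg w
  have p1 := area_nonneg (half1 g w c)
  have p2 := area_nonneg (half2 g w c)
  have hVr : 0 < vol regular ^ 2 := by have := vol_regular_pos; positivity
  obtain ⟨A, hAd⟩ : ∃ A, A = area w := ⟨_, rfl⟩
  obtain ⟨A1, hA1⟩ : ∃ A1, A1 = area (half1 g w c) := ⟨_, rfl⟩
  obtain ⟨A2, hA2⟩ : ∃ A2, A2 = area (half2 g w c) := ⟨_, rfl⟩
  rw [← hAd, ← hA1, ← hA2] at hA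
  rw [← hAd] at p0 ⊢
  rw [← hA1] at p1 r1
  rw [← hA2] at p2 r2
  have main : area regular ^ 3 * vol w ^ 2 ≤ A ^ 3 * vol regular ^ 2 := by
    rcases le_total A1 A with h | h
    · exact r1.trans (mul_le_mul_of_nonneg_right (pow_le_pow_left₀ p1 h 3) hVr.le)
    · have h' : A2 ≤ A := by linarith
      exact r2.trans (mul_le_mul_of_nonneg_right (pow_le_pow_left₀ p2 h' 3) hVr.le)
  refine ⟨main, fun hv heq => ?_⟩
  have c1 : A ≤ A1 := by
    have := le_of_mul_le_mul_right (heq.trans r1) hVr
    exact le_of_pow_le_pow_left₀ (by norm_num) p1 this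
  have c2 : A ≤ A2 := by
    have := le_of_mul_le_mul_right (heq.trans r2) hVr
    exact le_of_pow_le_pow_left₀ (by norm_num) p2 this
  have d1 : A1 = A := by linarith
  have d2 : A2 = A := by linarith
  obtain ⟨k₁, R₁, -, -, h1⟩ := eq_regular (half1 g w c) c (half1_symm g w c hK) (by rwa [v1])
    (by rw [v1, ← hA1, d1]; exact heq)
  obtain ⟨k₂, R₂, -, -, h2⟩ := eq_regular (half2 g w c) c (half2_symm g w c hK) (by rwa [v2])
    (by rw [v2, ← hA2, d2]; exact heq)
  exact symm_of_halves g w c hK h1 h2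

/-- Steiner's inequality, with its equality case, near a map with a centrally symmetric hexagon
which halves its volume. -/
theorem near_halved (hV : ∑ f with Meets g f, cone c w f = ∑ f with ¬ Meets g f, cone c w f)
    (hv : vol w ≠ 0) :
    ∃ ε > 0, ∀ w' : Fin 12 → E3, (∀ i, dist (w' i) (w i) < ε) →
      area regular ^ 3 * vol w' ^ 2 ≤ area w' ^ 3 * vol regular ^ 2 ∧
      (area regular ^ 3 * vol w' ^ 2 = area w' ^ 3 * vol regular ^ 2 →
        ∃ r > 0, ∀ i j, dist (w' i) (w' j) = r * dist (regular i) (regular j)) := by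
  obtain ⟨h0, h1⟩ := cut_halved g w c hK hV
  rcases h0.lt_or_eq with hlt | heq
  · have hc1 : Continuous fun w : Fin 12 → E3 => area regular ^ 3 * vol w ^ 2 :=
      continuous_const.mul (continuous_vol.pow 2)
    have hc2 : Continuous fun w : Fin 12 → E3 => area w ^ 3 * vol regular ^ 2 :=
      (continuous_area.pow 3).mul continuous_const
    refine exists_radius' ((hc1.continuousAt.eventually_lt hc2.continuousAt hlt).mono
      fun w h => ⟨h.le, fun he => absurd he h.ne⟩)
  · exact near_symm w c (h1 hv heq.symm.le) hv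

end main

end Pool.Agent.IcoLocal
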