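import Pool.Agent.IcoLocal.Basic

/-!
# Local minimality of the regular icosahedron: area and volume of `x + u`
-/

open Matrix

namespace Pool.Agent.IcoLocal

open Pool.Agent.Lib_helper76.Ico
open Pool.Agent.Results.MP_fa01f0_gt.CentrallySymmetric

/-- first vertex of the face -/
def va (f : Fin 10) : Fin 12 := tri (Fin.castAdd 10 f) 0
/-- second vertex of the face -/
def vb (f : Fin 10) : Fin 12 := tri (Fin.castAdd 10 f) 1
/-- third vertex of the face -/
def vc (f : Fin 10) : Fin 12 := tri (Fin.castAdd 10 f) 2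

lemma tri_nat0 (f : Fin 10) : tri (Fin.natAdd 10 f) 0 = va f + 6 := by
  fin_cases f <;> rfl
lemma tri_nat1 (f : Fin 10) : tri (Fin.natAdd 10 f) 1 = vc f + 6 := by
  fin_cases f <;> rfl
lemma tri_nat2 (f : Fin 10) : tri (Fin.natAdd 10 f) 2 = vb f + 6 := by
  fin_cases f <;> rfl

/-- Area vector of the face `f`. -/
noncomputable def P (x : V) (f : Fin 10) : Fin 3 → ℝ := fS (x (va f)) (x (vb f)) (x (vc f))

/-- Mixed area vector of the face `f`. -/
noncomputable def Q (x u : V) (f : Fin 10) : Fin 3 → ℝ :=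
  (1 / 2 : ℝ) • ((x (vb f) - x (va f)) ⨯₃ (u (vc f) - u (va f))
    + (u (vb f) - u (va f)) ⨯₃ (x (vc f) - x (va f)))

/-- The determinant of three vectors. -/
def d3 (a b c : Fin 3 → ℝ) : ℝ :=
  a 0 * (b 1 * c 2 - b 2 * c 1) - a 1 * (b 0 * c 2 - b 2 * c 0) + a 2 * (b 0 * c 1 - b 1 * c 0)

lemma det_eq (a b c : Fin 3 → ℝ) : (Matrix.of ![a, b, c]).det = d3 a b c := by
  rw [Matrix.det_fin_three]
  simp [d3]
  ring

/-- volume of the centrally symmetric part -/
noncomputable def vol0 (x : V) : ℝ := ∑ f, d3 (x (va f)) (x (vb f)) (x (vc f)) / 3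

/-- the quadratic part of the volume -/
noncomputable def eta (x u : V) : ℝ :=
  ∑ f, (d3 (x (va f)) (u (vb f)) (u (vc f)) + d3 (u (va f)) (x (vb f)) (u (vc f))
    + d3 (u (va f)) (u (vb f)) (x (vc f))) / 3

/-- area of the centrally symmetric part -/
noncomputable def area0 (x : V) : ℝ := 2 * ∑ f, Real.sqrt (nn (P x f))

/-- The increase of the area of a pair of faces, rescaled. -/
noncomputable def theta (x u v : V) (y : ℝ) (f : Fin 10) : ℝ :=
  (P x f ⬝ᵥ P v f) / Real.sqrt (nn (P x f))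
    + (nn ((P x f + P u f) ⨯₃ Q x v f) / nn (P x f + P u f)) /
      (Real.sqrt (nn (P x f + P u f) + y * (nn ((P x f + P u f) ⨯₃ Q x v f) / nn (P x f + P u f)))
        + Real.sqrt (nn (P x f + P u f)))

/-- The total rescaled increase. -/
noncomputable def Theta (x u v : V) (y : ℝ) : ℝ := 2 * ∑ f, theta x u v y f

/-- the vertex map with the coordinates of `x` -/
noncomputable def toE (x : V) : Fin 12 → E3 := fun i => WithLp.toLp 2 (x i)

lemma P_smul (t : ℝ) (v : V) (f : Fin 10) : P (t • v) f = t ^ 2 • P v f := by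
  ext j
  fin_cases j <;> simp [P, fS, cross_apply] <;> ring

lemma Q_smul (t : ℝ) (x v : V) (f : Fin 10) : Q x (t • v) f = t • Q x v f := by
  ext j
  fin_cases j <;> simp [Q, cross_apply] <;> ring

lemma cross_smul_nn (a q : Fin 3 → ℝ) (t : ℝ) : nn (a ⨯₃ (t • q)) = t ^ 2 * nn (a ⨯₃ q) := by
  rw [map_smul]
  simp only [nn, dotProduct, Fin.sum_univ_three, Pi.smul_apply, smul_eq_mul]
  ring

lemma area_toE (w : V) : area (toE w) = ∑ f : Fin 10,
    (Real.sqrt (nn (fS (w (va f)) (w (vb f)) (w (vc f))))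
      + Real.sqrt (nn (fS (w (va f + 6)) (w (vc f + 6)) (w (vb f + 6))))) := by
  have e : area (toE w) = ∑ f : Fin (10 + 10),
      triArea (toE w (tri f 0)) (toE w (tri f 1)) (toE w (tri f 2)) := rfl
  rw [e, Fin.sum_univ_add, ← Finset.sum_add_distrib]
  refine Finset.sum_congr rfl fun f _ => ?_
  rw [triArea_eq, triArea_eq, tri_nat0, tri_nat1, tri_nat2]
  rfl

lemma face_first (x u : V) (f : Fin 10) :
    fS ((x + u) (va f)) ((x + u) (vb f)) ((x + u) (vc f)) = P x f + P u f + Q x u f := by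
  ext j
  fin_cases j <;> simp [P, Q, fS, cross_apply] <;> ring

lemma face_second (x u : V) (hx : ∀ i, x (i + 6) = -x i) (hu : ∀ i, u (i + 6) = u i) (f : Fin 10) :
    fS ((x + u) (va f + 6)) ((x + u) (vc f + 6)) ((x + u) (vb f + 6))
      = -(P x f + P u f - Q x u f) := by
  ext j
  fin_cases j <;> simp [P, Q, fS, cross_apply, hx, hu] <;> ring

lemma area_odd (x : V) (hx : ∀ i, x (i + 6) = -x i) : area (toE x) = area0 x := by
  have h := area_toE x
  rw [h, area0, Finset.mul_sum]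
  refine Finset.sum_congr rfl fun f _ => ?_
  have e2 : fS (x (va f + 6)) (x (vc f + 6)) (x (vb f + 6)) = -(P x f) := by
    ext j
    fin_cases j <;> simp [P, fS, cross_apply, hx] <;> ring
  rw [e2, nn_neg]
  show Real.sqrt (nn (P x f)) + _ = _
  ring

lemma area_lower (x v : V) (t : ℝ) (hx : ∀ i, x (i + 6) = -x i) (hv : ∀ i, v (i + 6) = v i)
    (hP : ∀ f, 0 < nn (P x f)) (ha : ∀ f, 0 < nn (P x f + P (t • v) f)) :
    area0 x + t ^ 2 * Theta x (t • v) v (t ^ 2) ≤ area (toE (x + t • v)) := by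
  rw [area_toE, area0, Theta, mul_left_comm, ← mul_add, Finset.mul_sum, ← Finset.sum_add_distrib,
    Finset.mul_sum]
  refine Finset.sum_le_sum fun f _ => ?_
  have hu : ∀ i, (t • v) (i + 6) = (t • v) i := fun i => by
    rw [Pi.smul_apply, Pi.smul_apply, hv]
  rw [face_first, face_second x (t • v) hx hu, nn_neg]
  have key := pair_lower' (P x f) (P (t • v) f) (Q x (t • v) f) (hP f) (ha f)
  have e1 : P x f ⬝ᵥ P (t • v) f = t ^ 2 * (P x f ⬝ᵥ P v f) := by
    rw [P_smul, dotProduct_smul, smul_eq_mul]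
  have e2 : nn ((P x f + P (t • v) f) ⨯₃ Q x (t • v) f)
      = t ^ 2 * nn ((P x f + P (t • v) f) ⨯₃ Q x v f) := by
    rw [Q_smul, cross_smul_nn]
  rw [e1, e2] at key
  refine le_trans (le_of_eq ?_) key
  rw [theta]
  have e3 : t ^ 2 * nn ((P x f + P (t • v) f) ⨯₃ Q x v f) / nn (P x f + P (t • v) f)
      = t ^ 2 * (nn ((P x f + P (t • v) f) ⨯₃ Q x v f) / nn (P x f + P (t • v) f)) := by ring
  rw [e3]
  ring

lemma vol_toE (w : V) : vol (toE w) = ∑ f : Fin 10,
    (d3 (w (va f)) (w (vb f)) (w (vc f)) + d3 (w (va f + 6)) (w (vc f + 6)) (w (vb f + 6))) / 6 := by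
  have e : vol (toE w) = ∑ f : Fin (10 + 10),
      (Matrix.of fun i j => toE w (tri f i) j).det / 6 := rfl
  rw [e, Fin.sum_univ_add, ← Finset.sum_add_distrib]
  refine Finset.sum_congr rfl fun f _ => ?_
  rw [Matrix.det_fin_three, Matrix.det_fin_three]
  simp only [Matrix.of_apply, tri_nat0, tri_nat1, tri_nat2]
  simp only [toE, d3, va, vb, vc]
  ring

lemma vol_split (x u : V) (hx : ∀ i, x (i + 6) = -x i) (hu : ∀ i, u (i + 6) = u i) :
    vol (toE (x + u)) = vol0 x + eta x u := by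
  rw [vol_toE, vol0, eta, ← Finset.sum_add_distrib]
  refine Finset.sum_congr rfl fun f _ => ?_
  simp only [Pi.add_apply, hx, hu, d3, Pi.neg_apply]
  ring

lemma eta_smul (x v : V) (t : ℝ) : eta x (t • v) = t ^ 2 * eta x v := by
  rw [eta, eta, Finset.mul_sum]
  refine Finset.sum_congr rfl fun f _ => ?_
  simp only [d3, Pi.smul_apply, smul_eq_mul]
  ring

lemma vol_odd (x : V) (hx : ∀ i, x (i + 6) = -x i) : vol (toE x) = vol0 x := by
  have h := vol_split x 0 hx (fun i => rfl)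
  rw [add_zero] at h
  rw [h]
  simp [eta, d3]

end Pool.Agent.IcoLocal
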