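import Pool.Agent.IcoLocal.OddEq
import Pool.Agent.IcoLocal.Cont

/-!
# The equality case for centrally symmetric icosahedra (no smallness assumed)
-/

open Matrix

namespace Pool.Agent.IcoLocal

open Pool.Agent.Lib_helper76.Ico
open Pool.Agent.Results.MP_fa01f0_gt.CentrallySymmetric

/-- Equality in the linear coordinates, if the volume is not zero. -/
theorem eq_case_all {r : ℝ} (hr : r ^ 2 = 5) {N Y : Matrix (Fin 3) (Fin 3) ℝ}
    {p q : Fin 3 → Fin 3 → ℝ} (h : Rep r N Y p q) {θ : ℝ} (hθ0 : 0 < θ) (hθ : θ < 146 / 1000)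
    (hV : N.det + θ * Y.det ≠ 0) (heq : al p q ^ 3 ≤ (N.det + θ * Y.det) ^ 2) :
    Y = 0 ∧ ∃ (c : ℝ) (Q : Matrix (Fin 3) (Fin 3) ℝ), 0 < c ∧ Qᵀ * Q = 1 ∧ N = c • Q := by
  rcases lt_trichotomy N.det 0 with h0 | h0 | h0
  · have h1 := h.neg
    have hd : ∀ M : Matrix (Fin 3) (Fin 3) ℝ, (-M).det = -M.det := fun M => by
      rw [Matrix.det_neg, Fintype.card_fin]; ring
    obtain ⟨hY, c, Q, hc, hQ, -, hN⟩ := eq_case hr h1 hθ0 hθ (by rw [hd]; linarith) (by
      rw [al_neg, hd, hd]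
      calc al p q ^ 3 ≤ (N.det + θ * Y.det) ^ 2 := heq
        _ = (-N.det + θ * -Y.det) ^ 2 := by ring)
    refine ⟨neg_eq_zero.mp hY, c, -Q, hc, ?_, ?_⟩
    · rw [Matrix.transpose_neg, Matrix.neg_mul, Matrix.mul_neg, neg_neg, hQ]
    · rw [smul_neg, ← hN, neg_neg]
  · exfalso
    have hwY := weak' (r := -r) (by rw [neg_sq]; exact hr) h.dual
    rw [h0, zero_add] at heq hV
    have h1 : θ ^ 2 < 1 := by nlinarith
    have h2 : Y.det ^ 2 ≤ 0 := by nlinarith [sq_nonneg Y.det]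
    have h3 : Y.det = 0 := by
      have : Y.det ^ 2 = 0 := le_antisymm h2 (sq_nonneg _)
      exact pow_eq_zero_iff (two_ne_zero) |>.mp this
    exact hV (by rw [h3, mul_zero])
  · obtain ⟨hY, c, Q, hc, hQ, -, hN⟩ := eq_case hr h hθ0 hθ h0 heq
    exact ⟨hY, c, Q, hc, hQ, hN⟩

/-- The equality case: a centrally symmetric vertex map of nonzero volume whose isoperimetric ratio
is not larger than the one of the regular icosahedron is similar to the regular icosahedron. -/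
theorem eq_regular (w : Fin 12 → E3) (c : E3) (hw : ∀ i, w (i + 6) = (2 : ℝ) • c - w i)
    (hvol : vol w ≠ 0)
    (heq : area w ^ 3 * vol regular ^ 2 ≤ area regular ^ 3 * vol w ^ 2) :
    ∃ (k : ℝ) (R : Matrix (Fin 3) (Fin 3) ℝ), 0 < k ∧ Rᵀ * R = 1 ∧
      ∀ i, (w i).ofLp = c.ofLp + k • (R *ᵥ (regular i).ofLp) := by
  obtain ⟨p, q, h⟩ := Coord.exists hw
  rw [area_regular, vol_regular, area_eq h, vol_eq h] at heq
  rw [vol_eq h] at hvol
  have hr : (Real.sqrt 5) ^ 2 = 5 := Real.sq_sqrt (by norm_num)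
  have h3 : (Real.sqrt 3) ^ 2 = 3 := Real.sq_sqrt (by norm_num)
  obtain ⟨r, hrdef⟩ : ∃ r, r = Real.sqrt 5 := ⟨_, rfl⟩
  rw [← hrdef] at hr heq
  obtain ⟨s, hs⟩ : ∃ s, s = Real.sqrt 3 := ⟨_, rfl⟩
  have hs0 : 0 < s := by rw [hs]; positivity
  have hr0 : 0 < r := by rw [hrdef]; positivity
  rw [← hs] at h3 heq
  obtain ⟨N, Y, hRep⟩ := exists_rep hr p q
  have hr1 : 2236 / 1000 < r := by
    by_contra hlt
    push Not at hlt
    nlinarith
  have hr2 : r < 2237 / 1000 := by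
    by_contra hlt
    push Not at hlt
    nlinarith
  rw [volpq_eq hr hRep] at heq hvol
  have e1 : 10 / 3 * ((3 + r) * N.det + (3 - r) * Y.det)
      = 10 / 3 * (3 + r) * (N.det + (7 - 3 * r) / 2 * Y.det) := by
    linear_combination (5 * Y.det) * hr
  have e2 : 2 * Ssum p q = 20 * s * al p q := by
    unfold al
    rw [← hs]
    linear_combination (-2 / 3 * Ssum p q) * h3
  rw [e1] at hvol
  rw [e1, e2] at heq
  have hV : N.det + (7 - 3 * r) / 2 * Y.det ≠ 0 := fun h0 => hvol (by rw [h0, mul_zero])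
  have heq2 : al p q ^ 3 ≤ (N.det + (7 - 3 * r) / 2 * Y.det) ^ 2 := by
    have h4 : 0 < 24000 * s * (10 / 3 * (3 + r)) ^ 2 := by positivity
    have e3 : (20 * s * al p q) ^ 3 * (10 / 3 * (3 + r)) ^ 2
        = 24000 * s * (10 / 3 * (3 + r)) ^ 2 * al p q ^ 3 := by
      linear_combination (8000 * s * al p q ^ 3 * (10 / 3 * (3 + r)) ^ 2) * h3
    have e4 : (20 * s) ^ 3 * (10 / 3 * (3 + r) * (N.det + (7 - 3 * r) / 2 * Y.det)) ^ 2
        = 24000 * s * (10 / 3 * (3 + r)) ^ 2 * (N.det + (7 - 3 * r) / 2 * Y.det) ^ 2 := by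
      linear_combination (8000 * s * (10 / 3 * (3 + r) * (N.det + (7 - 3 * r) / 2 * Y.det)) ^ 2) * h3
    rw [e3, e4] at heq
    exact le_of_mul_le_mul_left heq h4
  obtain ⟨hY, k, R, hk, hR, hN⟩ := eq_case_all hr hRep (θ := (7 - 3 * r) / 2) (by linarith)
    (by linarith) hV heq2
  refine ⟨k, R, hk, hR, ?_⟩
  have hp : ∀ j i, p j i = k * R i j := by
    intro j i
    rw [hRep.1, hY, hN]
    simp
  have hq : ∀ j i, q j i = Real.goldenRatio * (k * R i j) := by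
    intro j i
    rw [hRep.2, hY, hN]
    have hφ : Real.goldenRatio = (1 + Real.sqrt 5) / 2 := rfl
    rw [hφ, ← hrdef]
    simp
  intro i
  ext j
  fin_cases i <;>
    simp [h.h0, h.h1, h.h2, h.h3, h.h4, h.h5, h.h6, h.h7, h.h8, h.h9, h.h10, h.h11, hp, hq,
      regular, Matrix.mulVec, dotProduct, Fin.sum_univ_three] <;> ring

/-- The equality case for the positions of the vertices in coordinates. -/
theorem odd_strict (x : V) (hx : ∀ i, x (i + 6) = -x i) (hv : vol0 x ≠ 0)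
    (heq : area0 x ^ 3 * vol0 (X (Real.sqrt 5)) ^ 2 ≤ area0 (X (Real.sqrt 5)) ^ 3 * vol0 x ^ 2) :
    ∃ (c : ℝ) (R : Matrix (Fin 3) (Fin 3) ℝ), 0 < c ∧ Rᵀ * R = 1 ∧
      ∀ i, x i = c • (R *ᵥ X (Real.sqrt 5) i) := by
  obtain ⟨k, R, hk, hR, h⟩ := eq_regular (toE x) 0 (by
      intro i
      rw [smul_zero, zero_sub]
      simp only [toE, hx]
      rfl) (by rw [vol_odd x hx]; exact hv) (by
      rw [area_odd x hx, vol_odd x hx, area_regular, vol_regular, ← area0_X, ← vol0_X]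
      exact heq)
  refine ⟨k, R, hk, hR, fun i => ?_⟩
  have h1 := h i
  rw [← toE_X] at h1
  have h2 : (0 : E3).ofLp = 0 := rfl
  rw [h2, zero_add] at h1
  exact h1

end Pool.Agent.IcoLocal
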