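import Pool.Agent.IcoLocal.Similar
import Pool.Agent.IcoLocal.OddStrict

/-!
# Local minimality of the regular icosahedron: end of the proof
-/

open Matrix Filter Topology

namespace Pool.Agent.IcoLocal

open Pool.Agent.Lib_helper76.Ico
open Pool.Agent.Results.MP_fa01f0_gt.CentrallySymmetric

lemma area_split (w : Fin 12 → E3) : area w = area (toE (oddPart w + evenPart w)) := by
  rw [← area_translate w (WithLp.toLp 2 (cen w))]
  congr 1
  funext i
  exact (split_eq w i).symm

lemma vol_split_eq (w : Fin 12 → E3) : vol w = vol (toE (oddPart w + evenPart w)) := by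
  rw [← vol_translate w (WithLp.toLp 2 (cen w))]
  congr 1
  funext i
  exact (split_eq w i).symm

/-- from a neighbourhood to a radius for every vertex -/
lemma exists_radius {p : (Fin 12 → E3) → Prop} (h : ∀ᶠ w in 𝓝 regular, p w) :
    ∃ ε > 0, ∀ w : Fin 12 → E3, (∀ i, dist (w i) (regular i) < ε) → p w := by
  obtain ⟨ε, hε, h⟩ := Metric.eventually_nhds_iff.1 h
  exact ⟨ε, hε, fun w hw => h ((dist_pi_lt_iff hε).2 hw)⟩

lemma continuous_vol : Continuous vol := by
  unfold vol
  refine continuous_finsetSum _ fun f _ => ?_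
  refine Continuous.div_const ?_ 6
  refine Continuous.matrix_det ?_
  refine continuous_pi fun i => continuous_pi fun j => ?_
  simp only [Matrix.of_apply]
  fun_prop

lemma vol_regular_ne : vol regular ≠ 0 := by
  rw [vol_regular]
  have : 0 < Real.sqrt 5 := Real.sqrt_pos.2 (by norm_num)
  positivity

/-- Local minimality, with the equality case. -/
theorem local_min :
    ∃ ε > 0, ∀ w : Fin 12 → E3, (∀ i, dist (w i) (regular i) < ε) →
      area regular ^ 3 * vol w ^ 2 ≤ area w ^ 3 * vol regular ^ 2 ∧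
      (area regular ^ 3 * vol w ^ 2 = area w ^ 3 * vol regular ^ 2 →
        ∃ r > 0, ∀ i j, dist (w i) (w j) = r * dist (regular i) (regular j)) := by
  have h1 := eventually_ineq
  have h2 : ∀ᶠ w in 𝓝 regular, vol w ≠ 0 :=
    continuous_vol.continuousAt.eventually_ne vol_regular_ne
  refine exists_radius ((h1.and h2).mono fun w hw => ?_)
  obtain ⟨⟨hle, hlt⟩, hv⟩ := hw
  refine ⟨hle, fun heq => ?_⟩
  have he : evenPart w = 0 := by
    by_contra hne
    exact absurd heq (hlt hne).ne
  have eA : area regular = area0 X5 := by rw [area_regular, area0_X]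
  have eV : vol regular = vol0 X5 := by rw [vol_regular, vol0_X]
  rw [vol_split_eq w, he, add_zero, vol_odd _ (oddPart_odd w)] at hv
  rw [area_split w, vol_split_eq w, he, add_zero, area_odd _ (oddPart_odd w),
    vol_odd _ (oddPart_odd w), eA, eV] at heq
  obtain ⟨c, R, hc, hR, hx⟩ := odd_strict (oddPart w) (oddPart_odd w) hv heq.symm.le
  exact similar_of_odd w he c R hc hR hx

/-- Uniqueness in the centrally symmetric class. -/
theorem symm_unique (w : Fin 12 → E3) (c : E3) (hw : ∀ i, w (i + 6) = (2 : ℝ) • c - w i)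
    (hv : vol w ≠ 0) (heq : area regular ^ 3 * vol w ^ 2 = area w ^ 3 * vol regular ^ 2) :
    ∃ r > 0, ∀ i j, dist (w i) (w j) = r * dist (regular i) (regular j) := by
  obtain ⟨k, R, hk, hR, hx⟩ := eq_regular w c hw hv heq.symm.le
  refine ⟨k, hk, fun i j => ?_⟩
  have h1 : (w i).ofLp - (w j).ofLp = k • (R *ᵥ ((regular i).ofLp - (regular j).ofLp)) := by
    rw [hx i, hx j, Matrix.mulVec_sub, smul_sub]
    abel
  have h3 : dist (w i) (w j) ^ 2 = (k * dist (regular i) (regular j)) ^ 2 := by
    rw [dist_sq_eq, h1, mul_pow, dist_sq_eq]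
    have : nn (k • (R *ᵥ ((regular i).ofLp - (regular j).ofLp)))
        = k ^ 2 * nn (R *ᵥ ((regular i).ofLp - (regular j).ofLp)) := by
      simp only [nn, dotProduct, Fin.sum_univ_three, Pi.smul_apply, smul_eq_mul]
      ring
    rw [this, nn_mulVec R hR]
  exact (sq_eq_sq₀ dist_nonneg (mul_nonneg hk.le dist_nonneg)).1 h3

end Pool.Agent.IcoLocal
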