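import Pool.Agent.IcoLocal.Near

/-!
# Local minimality of the regular icosahedron: assembly
-/

open Matrix Filter Topology

namespace Pool.Agent.IcoLocal

open Pool.Agent.Lib_helper76.Ico
open Pool.Agent.Results.MP_fa01f0_gt.CentrallySymmetric

/-- the antisymmetric part of a vertex map -/
noncomputable def oddPart (w : Fin 12 → E3) : V :=
  fun i => (1 / 2 : ℝ) • ((w i).ofLp - (w (i + 6)).ofLp)

/-- the centroid of the vertices -/
noncomputable def cen (w : Fin 12 → E3) : Fin 3 → ℝ := (1 / 12 : ℝ) • ∑ i, (w i).ofLp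

/-- the symmetric part of a vertex map, centred -/
noncomputable def evenPart (w : Fin 12 → E3) : V :=
  fun i => (1 / 2 : ℝ) • ((w i).ofLp + (w (i + 6)).ofLp) - cen w

lemma add_six_six (i : Fin 12) : i + 6 + 6 = i := by
  revert i; decide

lemma oddPart_odd (w : Fin 12 → E3) (i : Fin 12) : oddPart w (i + 6) = -oddPart w i := by
  simp only [oddPart, add_six_six, ← smul_neg, neg_sub]

lemma evenPart_even (w : Fin 12 → E3) (i : Fin 12) : evenPart w (i + 6) = evenPart w i := by
  simp only [evenPart, add_six_six]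
  rw [add_comm (w (i + 6)).ofLp]

lemma sum_shift (F : Fin 12 → Fin 3 → ℝ) : ∑ i, F (i + 6) = ∑ i, F i :=
  Fintype.sum_equiv (Equiv.addRight (6 : Fin 12)) _ _ fun _ => rfl

lemma evenPart_sum (w : Fin 12 → E3) : ∑ i, evenPart w i = 0 := by
  simp only [evenPart]
  rw [Finset.sum_sub_distrib, ← Finset.smul_sum, Finset.sum_add_distrib,
    sum_shift fun i => (w i).ofLp, Finset.sum_const, Finset.card_univ, Fintype.card_fin, cen,
    ← Nat.cast_smul_eq_nsmul ℝ, smul_smul, ← two_smul ℝ, smul_smul]
  norm_num

lemma split_eq (w : Fin 12 → E3) (i : Fin 12) :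
    toE (oddPart w + evenPart w) i = w i - WithLp.toLp 2 (cen w) := by
  ext j
  simp only [toE, oddPart, evenPart, Pi.add_apply, Pi.smul_apply, Pi.sub_apply, smul_eq_mul,
    PiLp.sub_apply]
  ring

lemma area_translate (w : Fin 12 → E3) (c : E3) : area (fun i => w i - c) = area w := by
  simp only [area, triArea, sub_sub_sub_cancel_right]

lemma vol_translate (w : Fin 12 → E3) (c : E3) : vol (fun i => w i - c) = vol w := by
  simp only [vol, Fin.sum_univ_succ, Fin.sum_univ_zero, Matrix.det_fin_three, Matrix.of_apply]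
  simp [tri]
  ring

lemma continuous_oddPart : Continuous oddPart := by
  unfold oddPart
  fun_prop

lemma continuous_evenPart : Continuous evenPart := by
  unfold evenPart cen
  fun_prop

lemma regular_neg (i : Fin 12) : regular (i + 6) = -regular i := by
  have := regular_symm i
  rw [smul_zero, zero_sub] at this
  exact this

lemma regular_sum : ∑ i, (regular i).ofLp = 0 := by
  have h := sum_shift fun i => (regular i).ofLp
  have h2 : ∑ i, (regular (i + 6)).ofLp = -∑ i, (regular i).ofLp := by
    rw [← Finset.sum_neg_distrib]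
    refine Finset.sum_congr rfl fun i _ => ?_
    rw [regular_neg]
    rfl
  rw [h2] at h
  have h3 := eq_neg_iff_add_eq_zero.1 h.symm
  have h4 : (2 : ℝ) • ∑ i, (regular i).ofLp = 0 := by rw [two_smul]; exact h3
  exact (smul_eq_zero.1 h4).resolve_left (by norm_num)

lemma oddPart_regular : oddPart regular = X5 := by
  funext i
  have h : (X5 i) = (regular i).ofLp := by
    rw [← toE_X]
    rfl
  rw [h, oddPart, regular_neg]
  ext j
  simp only [Pi.smul_apply, Pi.sub_apply, smul_eq_mul, PiLp.neg_apply]
  ring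

lemma evenPart_regular : evenPart regular = 0 := by
  funext i
  rw [evenPart, cen, regular_sum, regular_neg]
  ext j
  simp only [Pi.smul_apply, Pi.sub_apply, Pi.add_apply, smul_eq_mul, PiLp.neg_apply,
    Pi.zero_apply]
  ring

/-- The inequality for `x + t v`, `x` antisymmetric and `v` a symmetric direction. -/
lemma ineq_of_Xi (x v : V) (t : ℝ) (hx : ∀ i, x (i + 6) = -x i) (hv : ∀ i, v (i + 6) = v i)
    (ht : t ≠ 0) (hP : ∀ f, 0 < nn (P x f)) (ha : ∀ f, 0 < nn (P x f + P (t • v) f))
    (hXi : 0 < Xi x (t • v) v (t ^ 2)) :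
    area regular ^ 3 * vol (toE (x + t • v)) ^ 2
      < area (toE (x + t • v)) ^ 3 * vol regular ^ 2 := by
  have h0 := ineq (toE x) 0 (by
    intro i
    rw [smul_zero, zero_sub]
    simp only [toE, hx]
    rfl)
  rw [area_odd x hx, vol_odd x hx] at h0
  have hlow := area_lower x v t hx hv hP ha
  have hvol := vol_split x (t • v) hx (fun i => by rw [Pi.smul_apply, Pi.smul_apply, hv])
  rw [eta_smul] at hvol
  rw [hvol]
  have eA : area regular = area0 X5 := by rw [area_regular, area0_X]
  have eV : vol regular = vol0 X5 := by rw [vol_regular, vol0_X]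
  rw [eA, eV] at h0 ⊢
  have hcube : (area0 x + t ^ 2 * Theta x (t • v) v (t ^ 2)) ^ 3
      ≤ area (toE (x + t • v)) ^ 3 := (Odd.strictMono_pow (by decide : Odd 3)).monotone hlow
  have hid : (area0 x + t ^ 2 * Theta x (t • v) v (t ^ 2)) ^ 3 * vol0 X5 ^ 2
      - area0 X5 ^ 3 * (vol0 x + t ^ 2 * eta x v) ^ 2
      = (area0 x ^ 3 * vol0 X5 ^ 2 - area0 X5 ^ 3 * vol0 x ^ 2)
        + t ^ 2 * Xi x (t • v) v (t ^ 2) := by
    rw [Xi]
    ring
  have hpos : 0 < t ^ 2 * Xi x (t • v) v (t ^ 2) := by positivity
  have hmul : (area0 x + t ^ 2 * Theta x (t • v) v (t ^ 2)) ^ 3 * vol0 X5 ^ 2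
      ≤ area (toE (x + t • v)) ^ 3 * vol0 X5 ^ 2 :=
    mul_le_mul_of_nonneg_right hcube (sq_nonneg _)
  linarith

/-- Close to the regular icosahedron the inequality holds, and it is strict unless the map is
centrally symmetric. -/
theorem eventually_ineq : ∀ᶠ w in 𝓝 regular,
    area regular ^ 3 * vol w ^ 2 ≤ area w ^ 3 * vol regular ^ 2 ∧
      (evenPart w ≠ 0 → area regular ^ 3 * vol w ^ 2 < area w ^ 3 * vol regular ^ 2) := by
  have hc : Continuous fun w : Fin 12 → E3 => (oddPart w, evenPart w, ‖evenPart w‖ ^ 2) :=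
    continuous_oddPart.prodMk (continuous_evenPart.prodMk (continuous_evenPart.norm.pow 2))
  have hT : Tendsto (fun w : Fin 12 → E3 => (oddPart w, evenPart w, ‖evenPart w‖ ^ 2))
      (𝓝 regular) (𝓝 (X5, 0, 0)) := by
    have h := hc.tendsto regular
    rw [oddPart_regular, evenPart_regular, norm_zero, zero_pow (by norm_num)] at h
    exact h
  have hev := hT.eventually near_even
  filter_upwards [hev] with w hw
  obtain ⟨h1, h2, h3⟩ := hw
  have harea : area w = area (toE (oddPart w + evenPart w)) := by
    rw [← area_translate w (WithLp.toLp 2 (cen w))]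
    congr 1
    funext i
    exact (split_eq w i).symm
  have hvol : vol w = vol (toE (oddPart w + evenPart w)) := by
    rw [← vol_translate w (WithLp.toLp 2 (cen w))]
    congr 1
    funext i
    exact (split_eq w i).symm
  by_cases he : evenPart w = 0
  · refine ⟨?_, fun h => absurd he h⟩
    rw [harea, hvol, he, add_zero]
    exact ineq _ 0 (by
      intro i
      rw [smul_zero, zero_sub]
      simp only [toE, oddPart_odd]
      rfl)
  · have ht : ‖evenPart w‖ ≠ 0 := norm_ne_zero_iff.2 he
    set t := ‖evenPart w‖ with htdef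
    set v := t⁻¹ • evenPart w with hvdef
    have hu : evenPart w = t • v := by
      rw [hvdef, smul_smul, mul_inv_cancel₀ ht, one_smul]
    have hvK : v ∈ K := by
      refine ⟨?_, ?_, ?_⟩
      · rw [hvdef, norm_smul, norm_inv, Real.norm_eq_abs, abs_of_nonneg (norm_nonneg _)]
        exact inv_mul_cancel₀ ht
      · intro i
        rw [hvdef, Pi.smul_apply, Pi.smul_apply, evenPart_even]
      · rw [hvdef]
        simp only [Pi.smul_apply]
        rw [← Finset.smul_sum, evenPart_sum, smul_zero]
    have key : area regular ^ 3 * vol w ^ 2 < area w ^ 3 * vol regular ^ 2 := by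
      rw [harea, hvol, hu]
      have h3' : ∀ f, 0 < nn (P (oddPart w) f + P (t • v) f) := by
        intro f; rw [← hu]; exact h3 f
      have h1' : 0 < Xi (oddPart w) (t • v) v (t ^ 2) := by
        rw [← hu]; exact h1 v hvK
      exact ineq_of_Xi (oddPart w) v t (oddPart_odd w) hvK.2.1 ht h2 h3' h1'
    exact ⟨key.le, fun _ => key⟩

end Pool.Agent.IcoLocal
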