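import Pool.Agent.IcoLocal.Final

/-!
# Steiner's inequality in a neighbourhood of the class of all centrally symmetric icosahedra
-/

open Matrix Filter Topology
open scoped RealInnerProductSpace

namespace Pool.Agent.IcoLocal

open Pool.Agent.Lib_helper76.Ico
open Pool.Agent.Results.MP_fa01f0_gt.CentrallySymmetric

/-- the linear map `a ↦ k Rᵀ a` -/
noncomputable def simL (k : ℝ) (R : Matrix (Fin 3) (Fin 3) ℝ) (a : E3) : E3 :=
  WithLp.toLp 2 (k • (Rᵀ *ᵥ a.ofLp))

lemma simL_sub (k : ℝ) (R : Matrix (Fin 3) (Fin 3) ℝ) (a b : E3) :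
    simL k R (a - b) = simL k R a - simL k R b := by
  unfold simL
  rw [WithLp.ofLp_sub, Matrix.mulVec_sub, smul_sub, WithLp.toLp_sub]

lemma simL_inner (k : ℝ) {R : Matrix (Fin 3) (Fin 3) ℝ} (hR : Rᵀ * R = 1) (a b : E3) :
    ⟪simL k R a, simL k R b⟫ = k ^ 2 * ⟪a, b⟫ := by
  have h1 : ∀ a b : E3, ⟪a, b⟫ = a.ofLp ⬝ᵥ b.ofLp := by
    intro a b
    rw [PiLp.inner_apply]
    simp [dotProduct, Fin.sum_univ_three, mul_comm]
  rw [h1, h1]
  change (k • (Rᵀ *ᵥ a.ofLp)) ⬝ᵥ (k • (Rᵀ *ᵥ b.ofLp)) = _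
  rw [smul_dotProduct, dotProduct_smul, orth_dot (by
    rw [Matrix.transpose_transpose]; exact orth_comm hR), smul_eq_mul, smul_eq_mul]
  ring

lemma simL_norm (k : ℝ) {R : Matrix (Fin 3) (Fin 3) ℝ} (hR : Rᵀ * R = 1) (a : E3) :
    ‖simL k R a‖ ^ 2 = k ^ 2 * ‖a‖ ^ 2 := by
  rw [← real_inner_self_eq_norm_sq, simL_inner k hR, real_inner_self_eq_norm_sq]

lemma simL_dist {k : ℝ} (hk : 0 ≤ k) {R : Matrix (Fin 3) (Fin 3) ℝ} (hR : Rᵀ * R = 1) (a b : E3) :
    dist (simL k R a) (simL k R b) = k * dist a b := by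
  rw [dist_eq_norm, dist_eq_norm, ← simL_sub]
  refine (sq_eq_sq₀ (norm_nonneg _) (mul_nonneg hk (norm_nonneg _))).1 ?_
  rw [simL_norm k hR, mul_pow]

lemma simL_triArea (k : ℝ) {R : Matrix (Fin 3) (Fin 3) ℝ} (hR : Rᵀ * R = 1) (x y z : E3) :
    triArea (simL k R x) (simL k R y) (simL k R z) = k ^ 2 * triArea x y z := by
  unfold triArea
  rw [← simL_sub, ← simL_sub, simL_norm k hR, simL_norm k hR, simL_inner k hR]
  have e : k ^ 2 * ‖y - x‖ ^ 2 * (k ^ 2 * ‖z - x‖ ^ 2) - (k ^ 2 * ⟪y - x, z - x⟫) ^ 2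
      = (k ^ 2) ^ 2 * (‖y - x‖ ^ 2 * ‖z - x‖ ^ 2 - ⟪y - x, z - x⟫ ^ 2) := by ring
  rw [e, Real.sqrt_mul (by positivity), Real.sqrt_sq (by positivity)]
  ring

lemma simL_area (k : ℝ) {R : Matrix (Fin 3) (Fin 3) ℝ} (hR : Rᵀ * R = 1) (w : Fin 12 → E3) :
    area (fun i => simL k R (w i)) = k ^ 2 * area w := by
  unfold area
  rw [Finset.mul_sum]
  exact Finset.sum_congr rfl fun f _ => simL_triArea k hR _ _ _

lemma simL_vol (k : ℝ) (R : Matrix (Fin 3) (Fin 3) ℝ) (w : Fin 12 → E3) :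
    vol (fun i => simL k R (w i)) = k ^ 3 * R.det * vol w := by
  unfold vol
  rw [Finset.mul_sum]
  refine Finset.sum_congr rfl fun f _ => ?_
  have e : (Matrix.of fun i j => simL k R (w (tri f i)) j)
      = k • ((Matrix.of fun i j => w (tri f i) j) * R) := by
    ext i j
    simp only [Matrix.of_apply, Matrix.smul_apply, Matrix.mul_apply, smul_eq_mul]
    change (k • (Rᵀ *ᵥ (w (tri f i)).ofLp)) j = _
    simp only [Pi.smul_apply, smul_eq_mul, Matrix.mulVec, dotProduct, Matrix.transpose_apply]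
    congr 1
    exact Finset.sum_congr rfl fun l _ => mul_comm _ _
  rw [e, Matrix.det_smul, Matrix.det_mul, Fintype.card_fin]
  ring

lemma det_sq {R : Matrix (Fin 3) (Fin 3) ℝ} (hR : Rᵀ * R = 1) : R.det ^ 2 = 1 := by
  have := congrArg Matrix.det hR
  rw [Matrix.det_mul, Matrix.det_transpose, Matrix.det_one] at this
  rw [sq]
  exact this

lemma continuous_area : Continuous area := by
  unfold area triArea
  refine continuous_finsetSum _ fun f _ => ?_
  fun_prop

/-- from a neighbourhood to a radius for every vertex -/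
lemma exists_radius' {w₀ : Fin 12 → E3} {p : (Fin 12 → E3) → Prop} (h : ∀ᶠ w in 𝓝 w₀, p w) :
    ∃ ε > 0, ∀ w : Fin 12 → E3, (∀ i, dist (w i) (w₀ i) < ε) → p w := by
  obtain ⟨ε, hε, h⟩ := Metric.eventually_nhds_iff.1 h
  exact ⟨ε, hε, fun w hw => h ((dist_pi_lt_iff hε).2 hw)⟩

/-- Steiner's inequality, with its equality case, for all vertex maps close to a given centrally
symmetric one of nonzero volume. -/
theorem near_symm (w₀ : Fin 12 → E3) (c : E3) (hw : ∀ i, w₀ (i + 6) = (2 : ℝ) • c - w₀ i)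
    (hv : vol w₀ ≠ 0) :
    ∃ ε > 0, ∀ w : Fin 12 → E3, (∀ i, dist (w i) (w₀ i) < ε) →
      area regular ^ 3 * vol w ^ 2 ≤ area w ^ 3 * vol regular ^ 2 ∧
      (area regular ^ 3 * vol w ^ 2 = area w ^ 3 * vol regular ^ 2 →
        ∃ r > 0, ∀ i j, dist (w i) (w j) = r * dist (regular i) (regular j)) := by
  have h0 := ineq w₀ c hw
  rcases h0.lt_or_eq with hlt | heq
  · -- strict inequality at `w₀`
    have hc1 : Continuous fun w : Fin 12 → E3 => area regular ^ 3 * vol w ^ 2 :=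
      continuous_const.mul (continuous_vol.pow 2)
    have hc2 : Continuous fun w : Fin 12 → E3 => area w ^ 3 * vol regular ^ 2 :=
      (continuous_area.pow 3).mul continuous_const
    refine exists_radius' ((hc1.continuousAt.eventually_lt hc2.continuousAt hlt).mono
      fun w h => ⟨h.le, fun he => absurd he h.ne⟩)
  · -- `w₀` is similar to the regular icosahedron
    obtain ⟨k, R, hk, hR, hx⟩ := eq_regular w₀ c hw hv heq.symm.le
    obtain ⟨ε, hε, hmin⟩ := local_min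
    refine ⟨k * ε, mul_pos hk hε, fun w hwd => ?_⟩
    have hki : 0 < k⁻¹ := inv_pos.2 hk
    obtain ⟨y, hy⟩ : ∃ y : Fin 12 → E3, y = fun i => simL k⁻¹ R (w i - c) := ⟨_, rfl⟩
    have hreg : ∀ i, regular i = simL k⁻¹ R (w₀ i - c) := by
      intro i
      unfold simL
      rw [WithLp.ofLp_sub, hx i, add_sub_cancel_left, Matrix.mulVec_smul, smul_smul,
        inv_mul_cancel₀ hk.ne', one_smul, Matrix.mulVec_mulVec, hR, Matrix.one_mulVec]
    have hyd : ∀ i, dist (y i) (regular i) < ε := by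
      intro i
      rw [hy, hreg i, simL_dist hki.le hR, dist_sub_right]
      have := hwd i
      calc k⁻¹ * dist (w i) (w₀ i) < k⁻¹ * (k * ε) := mul_lt_mul_of_pos_left this hki
        _ = ε := by rw [← mul_assoc, inv_mul_cancel₀ hk.ne', one_mul]
    obtain ⟨h1, h2⟩ := hmin y hyd
    have hA : area y = (k⁻¹) ^ 2 * area w := by
      rw [hy]
      have := simL_area k⁻¹ hR (fun i => w i - c)
      rw [this, area_translate]
    have hV : vol y ^ 2 = (k⁻¹) ^ 6 * vol w ^ 2 := by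
      rw [hy]
      have := simL_vol k⁻¹ R (fun i => w i - c)
      rw [this, vol_translate]
      calc ((k⁻¹) ^ 3 * R.det * vol w) ^ 2 = (k⁻¹) ^ 6 * R.det ^ 2 * vol w ^ 2 := by ring
        _ = _ := by rw [det_sq hR, mul_one]
    rw [hA, hV] at h1 h2
    have hk6 : 0 < (k⁻¹) ^ 6 := by positivity
    have e1 : area regular ^ 3 * ((k⁻¹) ^ 6 * vol w ^ 2)
        = (k⁻¹) ^ 6 * (area regular ^ 3 * vol w ^ 2) := by ring
    have e2 : ((k⁻¹) ^ 2 * area w) ^ 3 * vol regular ^ 2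
        = (k⁻¹) ^ 6 * (area w ^ 3 * vol regular ^ 2) := by ring
    rw [e1, e2] at h1 h2
    refine ⟨le_of_mul_le_mul_left h1 hk6, fun he => ?_⟩
    obtain ⟨r, hr, hd⟩ := h2 (by rw [he])
    refine ⟨k * r, mul_pos hk hr, fun i j => ?_⟩
    have h3 := hd i j
    rw [hy, simL_dist hki.le hR, dist_sub_right] at h3
    calc dist (w i) (w j) = k * (k⁻¹ * dist (w i) (w j)) := by
          rw [← mul_assoc, mul_inv_cancel₀ hk.ne', one_mul]
      _ = k * (r * dist (regular i) (regular j)) := by rw [h3]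
      _ = _ := by ring

end Pool.Agent.IcoLocal
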