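import Pool.Agent.IcoLocal.Cont

/-!
# Local minimality of the regular icosahedron: compactness
-/

open Matrix Filter Topology

namespace Pool.Agent.IcoLocal

open Pool.Agent.Lib_helper76.Ico
open Pool.Agent.Results.MP_fa01f0_gt.CentrallySymmetric

lemma continuous_cross : Continuous (fun p : (Fin 3 → ℝ) × (Fin 3 → ℝ) => p.1 ⨯₃ p.2) := by
  refine continuous_pi fun j => ?_
  fin_cases j <;> simp [cross_apply] <;> fun_prop

lemma Continuous.cross' {Z : Type*} [TopologicalSpace Z] {a b : Z → Fin 3 → ℝ}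
    (ha : Continuous a) (hb : Continuous b) : Continuous fun z => a z ⨯₃ b z :=
  continuous_cross.comp (ha.prodMk hb)

lemma continuous_nn : Continuous nn := by
  unfold nn dotProduct
  fun_prop

lemma continuous_P (f : Fin 10) : Continuous fun x : V => P x f := by
  have h1 : Continuous fun x : V => x (vb f) - x (va f) := by fun_prop
  have h2 : Continuous fun x : V => x (vc f) - x (va f) := by fun_prop
  exact (Continuous.cross' h1 h2).const_smul (1 / 2 : ℝ)

lemma continuous_Q (f : Fin 10) : Continuous fun p : V × V => Q p.1 p.2 f := by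
  have h1 : Continuous fun p : V × V => p.1 (vb f) - p.1 (va f) := by fun_prop
  have h2 : Continuous fun p : V × V => p.2 (vc f) - p.2 (va f) := by fun_prop
  have h3 : Continuous fun p : V × V => p.2 (vb f) - p.2 (va f) := by fun_prop
  have h4 : Continuous fun p : V × V => p.1 (vc f) - p.1 (va f) := by fun_prop
  exact ((Continuous.cross' h1 h2).add (Continuous.cross' h3 h4)).const_smul (1 / 2 : ℝ)

lemma continuous_dot : Continuous (fun p : (Fin 3 → ℝ) × (Fin 3 → ℝ) => p.1 ⬝ᵥ p.2) := by
  unfold dotProduct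
  fun_prop

lemma continuous_eta : Continuous fun p : V × V => eta p.1 p.2 := by
  unfold eta d3
  fun_prop

lemma continuous_vol0 : Continuous vol0 := by
  unfold vol0 d3
  fun_prop

lemma continuous_area0 : Continuous area0 := by
  unfold area0
  refine continuous_const.mul (continuous_finsetSum _ fun f _ => ?_)
  exact Real.continuous_sqrt.comp (continuous_nn.comp (continuous_P f))

/-- the regular icosahedron -/
noncomputable abbrev X5 : V := X (Real.sqrt 5)

lemma continuousAt_theta (v : V) (f : Fin 10) : ContinuousAt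
    (fun p : (V × V × ℝ) × V => theta p.1.1 p.1.2.1 p.2 p.1.2.2 f) ((X5, 0, 0), v) := by
  have c1 : Continuous fun p : (V × V × ℝ) × V => P p.1.1 f :=
    (continuous_P f).comp (continuous_fst.comp continuous_fst)
  have c2 : Continuous fun p : (V × V × ℝ) × V => P p.1.2.1 f :=
    (continuous_P f).comp (continuous_fst.comp (continuous_snd.comp continuous_fst))
  have c3 : Continuous fun p : (V × V × ℝ) × V => P p.2 f :=
    (continuous_P f).comp continuous_snd
  have g4 : Continuous fun p : (V × V × ℝ) × V => ((p.1.1, p.2) : V × V) :=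
    (continuous_fst.comp continuous_fst).prodMk continuous_snd
  have h4 := (continuous_Q f).comp g4
  have c4 : Continuous fun p : (V × V × ℝ) × V => Q p.1.1 p.2 f := h4
  have c5 : Continuous fun p : (V × V × ℝ) × V => nn (P p.1.1 f + P p.1.2.1 f) :=
    continuous_nn.comp (c1.add c2)
  have c6 : Continuous fun p : (V × V × ℝ) × V =>
      nn ((P p.1.1 f + P p.1.2.1 f) ⨯₃ Q p.1.1 p.2 f) :=
    continuous_nn.comp (Continuous.cross' (c1.add c2) c4)
  have c7 : Continuous fun p : (V × V × ℝ) × V => Real.sqrt (nn (P p.1.1 f)) :=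
    Real.continuous_sqrt.comp (continuous_nn.comp c1)
  have c8 : Continuous fun p : (V × V × ℝ) × V => P p.1.1 f ⬝ᵥ P p.2 f :=
    continuous_dot.comp (c1.prodMk c3)
  have c9 : Continuous fun p : (V × V × ℝ) × V => p.1.2.2 :=
    continuous_snd.comp (continuous_snd.comp continuous_fst)
  have b1 : nn (P X5 f) = 3 := nn_PX f
  have b2 : nn (P X5 f + P 0 f) = 3 := by rw [P_zero, add_zero, b1]
  have h3 : Real.sqrt 3 ≠ 0 := by positivity
  have n5 : (fun p : (V × V × ℝ) × V => nn (P p.1.1 f + P p.1.2.1 f)) ((X5, 0, 0), v) ≠ 0 := by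
    change nn (P X5 f + P 0 f) ≠ 0
    rw [b2]; norm_num
  have d1 := c6.continuousAt.div c5.continuousAt n5
  have n7 : (fun p : (V × V × ℝ) × V => Real.sqrt (nn (P p.1.1 f))) ((X5, 0, 0), v) ≠ 0 := by
    change Real.sqrt (nn (P X5 f)) ≠ 0
    rw [b1]; exact h3
  have d2 := c8.continuousAt.div c7.continuousAt n7
  have d3' := (Real.continuous_sqrt.continuousAt.comp
      (c5.continuousAt.add (c9.continuousAt.mul d1))).add
      (Real.continuous_sqrt.continuousAt.comp c5.continuousAt)
  refine ContinuousAt.add d2 (ContinuousAt.div d1 d3' ?_)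
  change Real.sqrt (nn (P X5 f + P 0 f) + 0 * _) + Real.sqrt (nn (P X5 f + P 0 f)) ≠ 0
  rw [zero_mul, add_zero, b2]
  positivity

lemma continuousAt_Theta (v : V) : ContinuousAt
    (fun p : (V × V × ℝ) × V => Theta p.1.1 p.1.2.1 p.2 p.1.2.2) ((X5, 0, 0), v) :=
  continuousAt_const.mul (tendsto_finsetSum _ fun f _ => continuousAt_theta v f)

/-- The normalised difference of the two sides. -/
noncomputable def Xi (x u v : V) (y : ℝ) : ℝ :=
  3 * area0 x ^ 2 * Theta x u v y * vol0 X5 ^ 2 - 2 * area0 X5 ^ 3 * vol0 x * eta x v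
    + y * (3 * area0 x * Theta x u v y ^ 2 * vol0 X5 ^ 2 - area0 X5 ^ 3 * eta x v ^ 2)
    + y ^ 2 * Theta x u v y ^ 3 * vol0 X5 ^ 2

lemma continuousAt_Xi (v : V) : ContinuousAt
    (fun p : (V × V × ℝ) × V => Xi p.1.1 p.1.2.1 p.2 p.1.2.2) ((X5, 0, 0), v) := by
  have t1 := continuousAt_Theta v
  have t2 : ContinuousAt (fun p : (V × V × ℝ) × V => area0 p.1.1) ((X5, 0, 0), v) :=
    (continuous_area0.comp (continuous_fst.comp continuous_fst)).continuousAt
  have t3 : ContinuousAt (fun p : (V × V × ℝ) × V => vol0 p.1.1) ((X5, 0, 0), v) :=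
    (continuous_vol0.comp (continuous_fst.comp continuous_fst)).continuousAt
  have t4 : ContinuousAt (fun p : (V × V × ℝ) × V => eta p.1.1 p.2) ((X5, 0, 0), v) :=
    (continuous_eta.comp ((continuous_fst.comp continuous_fst).prodMk
      continuous_snd)).continuousAt
  have t5 : ContinuousAt (fun p : (V × V × ℝ) × V => p.1.2.2) ((X5, 0, 0), v) := by
    fun_prop
  unfold Xi
  exact (((((continuousAt_const.mul (t2.pow 2)).mul t1).mul continuousAt_const).sub
    ((continuousAt_const.mul t3).mul t4)).add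
    (t5.mul ((((continuousAt_const.mul t2).mul (t1.pow 2)).mul continuousAt_const).sub
      (continuousAt_const.mul (t4.pow 2))))).add
    (((t5.pow 2).mul (t1.pow 3)).mul continuousAt_const)

lemma Xi_base {v : V} (hv : v ∈ K) : 0 < Xi X5 0 v 0 := by
  obtain ⟨h1, h2, h3⟩ := hv
  have hne : v ≠ 0 := by
    rintro rfl
    simp at h1
  have key := second_pos v h2 h3 hne
  have hA := area0_X
  have hV := vol0_X
  have hT := Theta_base v
  set S := ∑ f, (P (X (Real.sqrt 5)) f ⬝ᵥ P v f
      + nn (P (X (Real.sqrt 5)) f ⨯₃ Q (X (Real.sqrt 5)) v f) / 6) with hS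
  set E := eta (X (Real.sqrt 5)) v with hE
  have q3 : 0 < Real.sqrt 3 := by positivity
  have q3' : Real.sqrt 3 ^ 2 = 3 := Real.sq_sqrt (by norm_num)
  have q5 : 0 < Real.sqrt 5 := by positivity
  have e1 : Xi X5 0 v 0 = area0 X5 ^ 2 * vol0 X5 *
      (3 * vol0 X5 * Theta X5 0 v 0 - 2 * area0 X5 * E) := by
    rw [Xi]
    ring
  have e2 : 3 * vol0 X5 * Theta X5 0 v 0 - 2 * area0 X5 * E
      = 20 / Real.sqrt 3 * ((3 + Real.sqrt 5) * S - 6 * E) := by
    rw [show area0 X5 = 20 * Real.sqrt 3 from hA,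
      show vol0 X5 = 10 / 3 * (3 + Real.sqrt 5) from hV,
      show Theta X5 0 v 0 = 2 / Real.sqrt 3 * S from hT]
    field_simp
    rw [q3']
    ring
  rw [e1, e2, show area0 X5 = 20 * Real.sqrt 3 from hA,
      show vol0 X5 = 10 / 3 * (3 + Real.sqrt 5) from hV]
  positivity

lemma near_even : ∀ᶠ p : V × V × ℝ in 𝓝 (X5, 0, 0),
    (∀ v ∈ K, 0 < Xi p.1 p.2.1 v p.2.2) ∧ (∀ f, 0 < nn (P p.1 f)) ∧
      (∀ f, 0 < nn (P p.1 f + P p.2.1 f)) := by
  refine Filter.Eventually.and ?_ (Filter.Eventually.and ?_ ?_)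
  · refine isCompact_K.eventually_forall_of_forall_eventually fun v hv => ?_
    exact (continuousAt_Xi v).eventually (lt_mem_nhds (Xi_base hv))
  · rw [Filter.eventually_all]
    intro f
    have c : Continuous fun p : V × V × ℝ => nn (P p.1 f) :=
      continuous_nn.comp ((continuous_P f).comp continuous_fst)
    refine c.continuousAt.eventually (lt_mem_nhds ?_)
    show 0 < nn (P X5 f)
    rw [nn_PX]; norm_num
  · rw [Filter.eventually_all]
    intro f
    have c : Continuous fun p : V × V × ℝ => nn (P p.1 f + P p.2.1 f) :=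
      continuous_nn.comp (((continuous_P f).comp continuous_fst).add
        ((continuous_P f).comp (continuous_fst.comp continuous_snd)))
    refine c.continuousAt.eventually (lt_mem_nhds ?_)
    show 0 < nn (P X5 f + P 0 f)
    rw [P_zero, add_zero, nn_PX]; norm_num

end Pool.Agent.IcoLocal
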