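import Pool.Agent.IcoLocal.Second

/-!
# Local minimality of the regular icosahedron: the second variation, antisymmetric directions
Generated certificate over `ℚ(√5)`.
-/

open Matrix

namespace Pool.Agent.IcoLocal

open Pool.Agent.Lib_helper76.Ico
open Pool.Agent.Results.MP_fa01f0_gt.CentrallySymmetric

lemma oCX0 (s : ℝ) (hs : s ^ 2 = 5) (v : V) (hv : ∀ i, v (i + 6) = -v i) :
    P (X s) 0 ⨯₃ Q (X s) v 0 = ![((-1/4)+(1/4)*s)*v 0 0 + ((-1/4)+(1/4)*s)*v 0 1 + ((-1/4)+(1/4)*s)*v 0 2 + ((-1/4)+(-1/4)*s)*v 2 0 + ((-1/4)+(-1/4)*s)*v 2 1 + ((-1/4)+(-1/4)*s)*v 2 2 + (1/2)*v 4 0 + (1/2)*v 4 1 + (1/2)*v 4 2,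
      (1/2)*v 0 0 + (1/2)*v 0 1 + (1/2)*v 0 2 + ((-1/4)+(1/4)*s)*v 2 0 + ((-1/4)+(1/4)*s)*v 2 1 + ((-1/4)+(1/4)*s)*v 2 2 + ((-1/4)+(-1/4)*s)*v 4 0 + ((-1/4)+(-1/4)*s)*v 4 1 + ((-1/4)+(-1/4)*s)*v 4 2,
      ((-1/4)+(-1/4)*s)*v 0 0 + ((-1/4)+(-1/4)*s)*v 0 1 + ((-1/4)+(-1/4)*s)*v 0 2 + (1/2)*v 2 0 + (1/2)*v 2 1 + (1/2)*v 2 2 + ((-1/4)+(1/4)*s)*v 4 0 + ((-1/4)+(1/4)*s)*v 4 1 + ((-1/4)+(1/4)*s)*v 4 2] := by
  have e6 : v 6 = -v 0 := hv 0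
  have e7 : v 7 = -v 1 := hv 1
  have e8 : v 8 = -v 2 := hv 2
  have e9 : v 9 = -v 3 := hv 3
  have e10 : v 10 = -v 4 := hv 4
  have e11 : v 11 = -v 5 := hv 5
  rw [PX0 s hs]
  ext j
  fin_cases j <;> simp [Q, cross_apply, X, va, vb, vc, tri, e6, e7, e8, e9, e10, e11] <;> ring_nf <;> simp only [hs] <;> ring

lemma oCX1 (s : ℝ) (hs : s ^ 2 = 5) (v : V) (hv : ∀ i, v (i + 6) = -v i) :
    P (X s) 1 ⨯₃ Q (X s) v 1 = ![((1/4)+(-1/4)*s)*v 0 0 + ((-1/4)+(1/4)*s)*v 0 1 + ((-1/4)+(1/4)*s)*v 0 2 + ((1/4)+(1/4)*s)*v 3 0 + ((-1/4)+(-1/4)*s)*v 3 1 + ((-1/4)+(-1/4)*s)*v 3 2 + (1/2)*v 5 0 + (-1/2)*v 5 1 + (-1/2)*v 5 2,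
      (1/2)*v 0 0 + (-1/2)*v 0 1 + (-1/2)*v 0 2 + ((-1/4)+(1/4)*s)*v 3 0 + ((1/4)+(-1/4)*s)*v 3 1 + ((1/4)+(-1/4)*s)*v 3 2 + ((1/4)+(1/4)*s)*v 5 0 + ((-1/4)+(-1/4)*s)*v 5 1 + ((-1/4)+(-1/4)*s)*v 5 2,
      ((-1/4)+(-1/4)*s)*v 0 0 + ((1/4)+(1/4)*s)*v 0 1 + ((1/4)+(1/4)*s)*v 0 2 + (1/2)*v 3 0 + (-1/2)*v 3 1 + (-1/2)*v 3 2 + ((1/4)+(-1/4)*s)*v 5 0 + ((-1/4)+(1/4)*s)*v 5 1 + ((-1/4)+(1/4)*s)*v 5 2] := by
  have e6 : v 6 = -v 0 := hv 0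
  have e7 : v 7 = -v 1 := hv 1
  have e8 : v 8 = -v 2 := hv 2
  have e9 : v 9 = -v 3 := hv 3
  have e10 : v 10 = -v 4 := hv 4
  have e11 : v 11 = -v 5 := hv 5
  rw [PX1 s hs]
  ext j
  fin_cases j <;> simp [Q, cross_apply, X, va, vb, vc, tri, e6, e7, e8, e9, e10, e11] <;> ring_nf <;> simp only [hs] <;> ring

lemma oCX2 (s : ℝ) (hs : s ^ 2 = 5) (v : V) (hv : ∀ i, v (i + 6) = -v i) :
    P (X s) 2 ⨯₃ Q (X s) v 2 = ![((-1/4)+(1/4)*s)*v 1 0 + ((1/4)+(-1/4)*s)*v 1 1 + ((-1/4)+(1/4)*s)*v 1 2 + ((1/4)+(1/4)*s)*v 2 0 + ((-1/4)+(-1/4)*s)*v 2 1 + ((1/4)+(1/4)*s)*v 2 2 + (-1/2)*v 5 0 + (1/2)*v 5 1 + (-1/2)*v 5 2,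
      (-1/2)*v 1 0 + (1/2)*v 1 1 + (-1/2)*v 1 2 + ((-1/4)+(1/4)*s)*v 2 0 + ((1/4)+(-1/4)*s)*v 2 1 + ((-1/4)+(1/4)*s)*v 2 2 + ((-1/4)+(-1/4)*s)*v 5 0 + ((1/4)+(1/4)*s)*v 5 1 + ((-1/4)+(-1/4)*s)*v 5 2,
      ((-1/4)+(-1/4)*s)*v 1 0 + ((1/4)+(1/4)*s)*v 1 1 + ((-1/4)+(-1/4)*s)*v 1 2 + (-1/2)*v 2 0 + (1/2)*v 2 1 + (-1/2)*v 2 2 + ((1/4)+(-1/4)*s)*v 5 0 + ((-1/4)+(1/4)*s)*v 5 1 + ((1/4)+(-1/4)*s)*v 5 2] := by
  have e6 : v 6 = -v 0 := hv 0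
  have e7 : v 7 = -v 1 := hv 1
  have e8 : v 8 = -v 2 := hv 2
  have e9 : v 9 = -v 3 := hv 3
  have e10 : v 10 = -v 4 := hv 4
  have e11 : v 11 = -v 5 := hv 5
  rw [PX2 s hs]
  ext j
  fin_cases j <;> simp [Q, cross_apply, X, va, vb, vc, tri, e6, e7, e8, e9, e10, e11] <;> ring_nf <;> simp only [hs] <;> ring

lemma oCX3 (s : ℝ) (hs : s ^ 2 = 5) (v : V) (hv : ∀ i, v (i + 6) = -v i) :
    P (X s) 3 ⨯₃ Q (X s) v 3 = ![((1/4)+(-1/4)*s)*v 1 0 + ((1/4)+(-1/4)*s)*v 1 1 + ((-1/4)+(1/4)*s)*v 1 2 + ((-1/4)+(-1/4)*s)*v 3 0 + ((-1/4)+(-1/4)*s)*v 3 1 + ((1/4)+(1/4)*s)*v 3 2 + (-1/2)*v 4 0 + (-1/2)*v 4 1 + (1/2)*v 4 2,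
      (-1/2)*v 1 0 + (-1/2)*v 1 1 + (1/2)*v 1 2 + ((-1/4)+(1/4)*s)*v 3 0 + ((-1/4)+(1/4)*s)*v 3 1 + ((1/4)+(-1/4)*s)*v 3 2 + ((1/4)+(1/4)*s)*v 4 0 + ((1/4)+(1/4)*s)*v 4 1 + ((-1/4)+(-1/4)*s)*v 4 2,
      ((-1/4)+(-1/4)*s)*v 1 0 + ((-1/4)+(-1/4)*s)*v 1 1 + ((1/4)+(1/4)*s)*v 1 2 + (-1/2)*v 3 0 + (-1/2)*v 3 1 + (1/2)*v 3 2 + ((-1/4)+(1/4)*s)*v 4 0 + ((-1/4)+(1/4)*s)*v 4 1 + ((1/4)+(-1/4)*s)*v 4 2] := by
  have e6 : v 6 = -v 0 := hv 0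
  have e7 : v 7 = -v 1 := hv 1
  have e8 : v 8 = -v 2 := hv 2
  have e9 : v 9 = -v 3 := hv 3
  have e10 : v 10 = -v 4 := hv 4
  have e11 : v 11 = -v 5 := hv 5
  rw [PX3 s hs]
  ext j
  fin_cases j <;> simp [Q, cross_apply, X, va, vb, vc, tri, e6, e7, e8, e9, e10, e11] <;> ring_nf <;> simp only [hs] <;> ring

lemma oCX4 (s : ℝ) (hs : s ^ 2 = 5) (v : V) (hv : ∀ i, v (i + 6) = -v i) :
    P (X s) 4 ⨯₃ Q (X s) v 4 = ![(-1/2)*v 0 0 + ((-3/4)+(-1/4)*s)*v 0 1 + (1/2)*v 1 0 + ((3/4)+(1/4)*s)*v 1 1,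
      ((3/4)+(-1/4)*s)*v 0 0 + (1/2)*v 0 1 + ((-3/4)+(1/4)*s)*v 1 0 + (-1/2)*v 1 1,
      ((1/4)+(-1/4)*s)*v 0 0 + ((-1/4)+(-1/4)*s)*v 0 1 + ((1/4)+(-1/4)*s)*v 1 0 + ((-1/4)+(-1/4)*s)*v 1 1 + ((-1/2)+(1/2)*s)*v 4 0 + ((1/2)+(1/2)*s)*v 4 1] := by
  have e6 : v 6 = -v 0 := hv 0
  have e7 : v 7 = -v 1 := hv 1
  have e8 : v 8 = -v 2 := hv 2
  have e9 : v 9 = -v 3 := hv 3
  have e10 : v 10 = -v 4 := hv 4
  have e11 : v 11 = -v 5 := hv 5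
  rw [PX4 s hs]
  ext j
  fin_cases j <;> simp [Q, cross_apply, X, va, vb, vc, tri, e6, e7, e8, e9, e10, e11] <;> ring_nf <;> simp only [hs] <;> ring

lemma oCX5 (s : ℝ) (hs : s ^ 2 = 5) (v : V) (hv : ∀ i, v (i + 6) = -v i) :
    P (X s) 5 ⨯₃ Q (X s) v 5 = ![(1/2)*v 0 0 + ((-3/4)+(-1/4)*s)*v 0 1 + (-1/2)*v 1 0 + ((3/4)+(1/4)*s)*v 1 1,
      ((3/4)+(-1/4)*s)*v 0 0 + (-1/2)*v 0 1 + ((-3/4)+(1/4)*s)*v 1 0 + (1/2)*v 1 1,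
      ((1/4)+(-1/4)*s)*v 0 0 + ((1/4)+(1/4)*s)*v 0 1 + ((1/4)+(-1/4)*s)*v 1 0 + ((1/4)+(1/4)*s)*v 1 1 + ((1/2)+(-1/2)*s)*v 5 0 + ((1/2)+(1/2)*s)*v 5 1] := by
  have e6 : v 6 = -v 0 := hv 0
  have e7 : v 7 = -v 1 := hv 1
  have e8 : v 8 = -v 2 := hv 2
  have e9 : v 9 = -v 3 := hv 3
  have e10 : v 10 = -v 4 := hv 4
  have e11 : v 11 = -v 5 := hv 5
  rw [PX5 s hs]
  ext j
  fin_cases j <;> simp [Q, cross_apply, X, va, vb, vc, tri, e6, e7, e8, e9, e10, e11] <;> ring_nf <;> simp only [hs] <;> ring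

lemma oCX6 (s : ℝ) (hs : s ^ 2 = 5) (v : V) (hv : ∀ i, v (i + 6) = -v i) :
    P (X s) 6 ⨯₃ Q (X s) v 6 = ![((-1/2)+(1/2)*s)*v 0 1 + ((1/2)+(1/2)*s)*v 0 2 + ((1/4)+(-1/4)*s)*v 2 1 + ((-1/4)+(-1/4)*s)*v 2 2 + ((1/4)+(-1/4)*s)*v 3 1 + ((-1/4)+(-1/4)*s)*v 3 2,
      (-1/2)*v 2 1 + ((-3/4)+(-1/4)*s)*v 2 2 + (1/2)*v 3 1 + ((3/4)+(1/4)*s)*v 3 2,
      ((3/4)+(-1/4)*s)*v 2 1 + (1/2)*v 2 2 + ((-3/4)+(1/4)*s)*v 3 1 + (-1/2)*v 3 2] := by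
  have e6 : v 6 = -v 0 := hv 0
  have e7 : v 7 = -v 1 := hv 1
  have e8 : v 8 = -v 2 := hv 2
  have e9 : v 9 = -v 3 := hv 3
  have e10 : v 10 = -v 4 := hv 4
  have e11 : v 11 = -v 5 := hv 5
  rw [PX6 s hs]
  ext j
  fin_cases j <;> simp [Q, cross_apply, X, va, vb, vc, tri, e6, e7, e8, e9, e10, e11] <;> ring_nf <;> simp only [hs] <;> ring

lemma oCX7 (s : ℝ) (hs : s ^ 2 = 5) (v : V) (hv : ∀ i, v (i + 6) = -v i) :
    P (X s) 7 ⨯₃ Q (X s) v 7 = ![((1/2)+(-1/2)*s)*v 1 1 + ((1/2)+(1/2)*s)*v 1 2 + ((1/4)+(-1/4)*s)*v 2 1 + ((1/4)+(1/4)*s)*v 2 2 + ((1/4)+(-1/4)*s)*v 3 1 + ((1/4)+(1/4)*s)*v 3 2,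
      (1/2)*v 2 1 + ((-3/4)+(-1/4)*s)*v 2 2 + (-1/2)*v 3 1 + ((3/4)+(1/4)*s)*v 3 2,
      ((3/4)+(-1/4)*s)*v 2 1 + (-1/2)*v 2 2 + ((-3/4)+(1/4)*s)*v 3 1 + (1/2)*v 3 2] := by
  have e6 : v 6 = -v 0 := hv 0
  have e7 : v 7 = -v 1 := hv 1
  have e8 : v 8 = -v 2 := hv 2
  have e9 : v 9 = -v 3 := hv 3
  have e10 : v 10 = -v 4 := hv 4
  have e11 : v 11 = -v 5 := hv 5
  rw [PX7 s hs]
  ext j
  fin_cases j <;> simp [Q, cross_apply, X, va, vb, vc, tri, e6, e7, e8, e9, e10, e11] <;> ring_nf <;> simp only [hs] <;> ring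

lemma oCX8 (s : ℝ) (hs : s ^ 2 = 5) (v : V) (hv : ∀ i, v (i + 6) = -v i) :
    P (X s) 8 ⨯₃ Q (X s) v 8 = ![(1/2)*v 4 0 + ((3/4)+(-1/4)*s)*v 4 2 + (-1/2)*v 5 0 + ((-3/4)+(1/4)*s)*v 5 2,
      ((1/2)+(1/2)*s)*v 2 0 + ((-1/2)+(1/2)*s)*v 2 2 + ((-1/4)+(-1/4)*s)*v 4 0 + ((1/4)+(-1/4)*s)*v 4 2 + ((-1/4)+(-1/4)*s)*v 5 0 + ((1/4)+(-1/4)*s)*v 5 2,
      ((-3/4)+(-1/4)*s)*v 4 0 + (-1/2)*v 4 2 + ((3/4)+(1/4)*s)*v 5 0 + (1/2)*v 5 2] := by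
  have e6 : v 6 = -v 0 := hv 0
  have e7 : v 7 = -v 1 := hv 1
  have e8 : v 8 = -v 2 := hv 2
  have e9 : v 9 = -v 3 := hv 3
  have e10 : v 10 = -v 4 := hv 4
  have e11 : v 11 = -v 5 := hv 5
  rw [PX8 s hs]
  ext j
  fin_cases j <;> simp [Q, cross_apply, X, va, vb, vc, tri, e6, e7, e8, e9, e10, e11] <;> ring_nf <;> simp only [hs] <;> ring

lemma oCX9 (s : ℝ) (hs : s ^ 2 = 5) (v : V) (hv : ∀ i, v (i + 6) = -v i) :
    P (X s) 9 ⨯₃ Q (X s) v 9 = ![(-1/2)*v 4 0 + ((3/4)+(-1/4)*s)*v 4 2 + (1/2)*v 5 0 + ((-3/4)+(1/4)*s)*v 5 2,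
      ((1/2)+(1/2)*s)*v 3 0 + ((1/2)+(-1/2)*s)*v 3 2 + ((1/4)+(1/4)*s)*v 4 0 + ((1/4)+(-1/4)*s)*v 4 2 + ((1/4)+(1/4)*s)*v 5 0 + ((1/4)+(-1/4)*s)*v 5 2,
      ((-3/4)+(-1/4)*s)*v 4 0 + (1/2)*v 4 2 + ((3/4)+(1/4)*s)*v 5 0 + (-1/2)*v 5 2] := by
  have e6 : v 6 = -v 0 := hv 0
  have e7 : v 7 = -v 1 := hv 1
  have e8 : v 8 = -v 2 := hv 2
  have e9 : v 9 = -v 3 := hv 3
  have e10 : v 10 = -v 4 := hv 4
  have e11 : v 11 = -v 5 := hv 5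
  rw [PX9 s hs]
  ext j
  fin_cases j <;> simp [Q, cross_apply, X, va, vb, vc, tri, e6, e7, e8, e9, e10, e11] <;> ring_nf <;> simp only [hs] <;> ring

lemma oFX0 (s : ℝ) (hs : s ^ 2 = 5) (v : V) (hv : ∀ i, v (i + 6) = -v i) :
    P (X s) 0 ⬝ᵥ P v 0 + nn (P (X s) 0 ⨯₃ Q (X s) v 0) / 6
      = (1/2)*(1*((v 2 1-v 0 1)*(v 4 2-v 0 2)-(v 2 2-v 0 2)*(v 4 1-v 0 1)) + 1*((v 2 2-v 0 2)*(v 4 0-v 0 0)-(v 2 0-v 0 0)*(v 4 2-v 0 2)) + 1*((v 2 0-v 0 0)*(v 4 1-v 0 1)-(v 2 1-v 0 1)*(v 4 0-v 0 0)))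
        + ((((-1/4)+(1/4)*s)*v 0 0 + ((-1/4)+(1/4)*s)*v 0 1 + ((-1/4)+(1/4)*s)*v 0 2 + ((-1/4)+(-1/4)*s)*v 2 0 + ((-1/4)+(-1/4)*s)*v 2 1 + ((-1/4)+(-1/4)*s)*v 2 2 + (1/2)*v 4 0 + (1/2)*v 4 1 + (1/2)*v 4 2)^2
        + ((1/2)*v 0 0 + (1/2)*v 0 1 + (1/2)*v 0 2 + ((-1/4)+(1/4)*s)*v 2 0 + ((-1/4)+(1/4)*s)*v 2 1 + ((-1/4)+(1/4)*s)*v 2 2 + ((-1/4)+(-1/4)*s)*v 4 0 + ((-1/4)+(-1/4)*s)*v 4 1 + ((-1/4)+(-1/4)*s)*v 4 2)^2
        + (((-1/4)+(-1/4)*s)*v 0 0 + ((-1/4)+(-1/4)*s)*v 0 1 + ((-1/4)+(-1/4)*s)*v 0 2 + (1/2)*v 2 0 + (1/2)*v 2 1 + (1/2)*v 2 2 + ((-1/4)+(1/4)*s)*v 4 0 + ((-1/4)+(1/4)*s)*v 4 1 + ((-1/4)+(1/4)*s)*v 4 2)^2) / 6 := by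
  have e6 : v 6 = -v 0 := hv 0
  have e7 : v 7 = -v 1 := hv 1
  have e8 : v 8 = -v 2 := hv 2
  have e9 : v 9 = -v 3 := hv 3
  have e10 : v 10 = -v 4 := hv 4
  have e11 : v 11 = -v 5 := hv 5
  rw [oCX0 s hs v hv, PX0 s hs]
  simp [nn, dotProduct, Fin.sum_univ_three, P, fS, cross_apply, va, vb, vc, tri, e6, e7, e8, e9,
    e10, e11]
  ring

lemma oFX1 (s : ℝ) (hs : s ^ 2 = 5) (v : V) (hv : ∀ i, v (i + 6) = -v i) :
    P (X s) 1 ⬝ᵥ P v 1 + nn (P (X s) 1 ⨯₃ Q (X s) v 1) / 6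
      = (1/2)*(1*(((-v 3 1)-(-v 0 1))*(v 5 2-(-v 0 2))-((-v 3 2)-(-v 0 2))*(v 5 1-(-v 0 1))) + (-1)*(((-v 3 2)-(-v 0 2))*(v 5 0-(-v 0 0))-((-v 3 0)-(-v 0 0))*(v 5 2-(-v 0 2))) + (-1)*(((-v 3 0)-(-v 0 0))*(v 5 1-(-v 0 1))-((-v 3 1)-(-v 0 1))*(v 5 0-(-v 0 0))))
        + ((((1/4)+(-1/4)*s)*v 0 0 + ((-1/4)+(1/4)*s)*v 0 1 + ((-1/4)+(1/4)*s)*v 0 2 + ((1/4)+(1/4)*s)*v 3 0 + ((-1/4)+(-1/4)*s)*v 3 1 + ((-1/4)+(-1/4)*s)*v 3 2 + (1/2)*v 5 0 + (-1/2)*v 5 1 + (-1/2)*v 5 2)^2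
        + ((1/2)*v 0 0 + (-1/2)*v 0 1 + (-1/2)*v 0 2 + ((-1/4)+(1/4)*s)*v 3 0 + ((1/4)+(-1/4)*s)*v 3 1 + ((1/4)+(-1/4)*s)*v 3 2 + ((1/4)+(1/4)*s)*v 5 0 + ((-1/4)+(-1/4)*s)*v 5 1 + ((-1/4)+(-1/4)*s)*v 5 2)^2
        + (((-1/4)+(-1/4)*s)*v 0 0 + ((1/4)+(1/4)*s)*v 0 1 + ((1/4)+(1/4)*s)*v 0 2 + (1/2)*v 3 0 + (-1/2)*v 3 1 + (-1/2)*v 3 2 + ((1/4)+(-1/4)*s)*v 5 0 + ((-1/4)+(1/4)*s)*v 5 1 + ((-1/4)+(1/4)*s)*v 5 2)^2) / 6 := by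
  have e6 : v 6 = -v 0 := hv 0
  have e7 : v 7 = -v 1 := hv 1
  have e8 : v 8 = -v 2 := hv 2
  have e9 : v 9 = -v 3 := hv 3
  have e10 : v 10 = -v 4 := hv 4
  have e11 : v 11 = -v 5 := hv 5
  rw [oCX1 s hs v hv, PX1 s hs]
  simp [nn, dotProduct, Fin.sum_univ_three, P, fS, cross_apply, va, vb, vc, tri, e6, e7, e8, e9,
    e10, e11]
  ring

lemma oFX2 (s : ℝ) (hs : s ^ 2 = 5) (v : V) (hv : ∀ i, v (i + 6) = -v i) :
    P (X s) 2 ⬝ᵥ P v 2 + nn (P (X s) 2 ⨯₃ Q (X s) v 2) / 6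
      = (1/2)*((-1)*(((-v 2 1)-v 1 1)*((-v 5 2)-v 1 2)-((-v 2 2)-v 1 2)*((-v 5 1)-v 1 1)) + 1*(((-v 2 2)-v 1 2)*((-v 5 0)-v 1 0)-((-v 2 0)-v 1 0)*((-v 5 2)-v 1 2)) + (-1)*(((-v 2 0)-v 1 0)*((-v 5 1)-v 1 1)-((-v 2 1)-v 1 1)*((-v 5 0)-v 1 0)))
        + ((((-1/4)+(1/4)*s)*v 1 0 + ((1/4)+(-1/4)*s)*v 1 1 + ((-1/4)+(1/4)*s)*v 1 2 + ((1/4)+(1/4)*s)*v 2 0 + ((-1/4)+(-1/4)*s)*v 2 1 + ((1/4)+(1/4)*s)*v 2 2 + (-1/2)*v 5 0 + (1/2)*v 5 1 + (-1/2)*v 5 2)^2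
        + ((-1/2)*v 1 0 + (1/2)*v 1 1 + (-1/2)*v 1 2 + ((-1/4)+(1/4)*s)*v 2 0 + ((1/4)+(-1/4)*s)*v 2 1 + ((-1/4)+(1/4)*s)*v 2 2 + ((-1/4)+(-1/4)*s)*v 5 0 + ((1/4)+(1/4)*s)*v 5 1 + ((-1/4)+(-1/4)*s)*v 5 2)^2
        + (((-1/4)+(-1/4)*s)*v 1 0 + ((1/4)+(1/4)*s)*v 1 1 + ((-1/4)+(-1/4)*s)*v 1 2 + (-1/2)*v 2 0 + (1/2)*v 2 1 + (-1/2)*v 2 2 + ((1/4)+(-1/4)*s)*v 5 0 + ((-1/4)+(1/4)*s)*v 5 1 + ((1/4)+(-1/4)*s)*v 5 2)^2) / 6 := by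
  have e6 : v 6 = -v 0 := hv 0
  have e7 : v 7 = -v 1 := hv 1
  have e8 : v 8 = -v 2 := hv 2
  have e9 : v 9 = -v 3 := hv 3
  have e10 : v 10 = -v 4 := hv 4
  have e11 : v 11 = -v 5 := hv 5
  rw [oCX2 s hs v hv, PX2 s hs]
  simp [nn, dotProduct, Fin.sum_univ_three, P, fS, cross_apply, va, vb, vc, tri, e6, e7, e8, e9,
    e10, e11]
  ring

lemma oFX3 (s : ℝ) (hs : s ^ 2 = 5) (v : V) (hv : ∀ i, v (i + 6) = -v i) :
    P (X s) 3 ⬝ᵥ P v 3 + nn (P (X s) 3 ⨯₃ Q (X s) v 3) / 6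
      = (1/2)*((-1)*((v 3 1-(-v 1 1))*((-v 4 2)-(-v 1 2))-(v 3 2-(-v 1 2))*((-v 4 1)-(-v 1 1))) + (-1)*((v 3 2-(-v 1 2))*((-v 4 0)-(-v 1 0))-(v 3 0-(-v 1 0))*((-v 4 2)-(-v 1 2))) + 1*((v 3 0-(-v 1 0))*((-v 4 1)-(-v 1 1))-(v 3 1-(-v 1 1))*((-v 4 0)-(-v 1 0))))
        + ((((1/4)+(-1/4)*s)*v 1 0 + ((1/4)+(-1/4)*s)*v 1 1 + ((-1/4)+(1/4)*s)*v 1 2 + ((-1/4)+(-1/4)*s)*v 3 0 + ((-1/4)+(-1/4)*s)*v 3 1 + ((1/4)+(1/4)*s)*v 3 2 + (-1/2)*v 4 0 + (-1/2)*v 4 1 + (1/2)*v 4 2)^2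
        + ((-1/2)*v 1 0 + (-1/2)*v 1 1 + (1/2)*v 1 2 + ((-1/4)+(1/4)*s)*v 3 0 + ((-1/4)+(1/4)*s)*v 3 1 + ((1/4)+(-1/4)*s)*v 3 2 + ((1/4)+(1/4)*s)*v 4 0 + ((1/4)+(1/4)*s)*v 4 1 + ((-1/4)+(-1/4)*s)*v 4 2)^2
        + (((-1/4)+(-1/4)*s)*v 1 0 + ((-1/4)+(-1/4)*s)*v 1 1 + ((1/4)+(1/4)*s)*v 1 2 + (-1/2)*v 3 0 + (-1/2)*v 3 1 + (1/2)*v 3 2 + ((-1/4)+(1/4)*s)*v 4 0 + ((-1/4)+(1/4)*s)*v 4 1 + ((1/4)+(-1/4)*s)*v 4 2)^2) / 6 := by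
  have e6 : v 6 = -v 0 := hv 0
  have e7 : v 7 = -v 1 := hv 1
  have e8 : v 8 = -v 2 := hv 2
  have e9 : v 9 = -v 3 := hv 3
  have e10 : v 10 = -v 4 := hv 4
  have e11 : v 11 = -v 5 := hv 5
  rw [oCX3 s hs v hv, PX3 s hs]
  simp [nn, dotProduct, Fin.sum_univ_three, P, fS, cross_apply, va, vb, vc, tri, e6, e7, e8, e9,
    e10, e11]
  ring

lemma oFX4 (s : ℝ) (hs : s ^ 2 = 5) (v : V) (hv : ∀ i, v (i + 6) = -v i) :
    P (X s) 4 ⬝ᵥ P v 4 + nn (P (X s) 4 ⨯₃ Q (X s) v 4) / 6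
      = (1/2)*(((-1/2)+(1/2)*s)*((v 0 1-v 1 1)*(v 4 2-v 1 2)-(v 0 2-v 1 2)*(v 4 1-v 1 1)) + ((1/2)+(1/2)*s)*((v 0 2-v 1 2)*(v 4 0-v 1 0)-(v 0 0-v 1 0)*(v 4 2-v 1 2)))
        + (((-1/2)*v 0 0 + ((-3/4)+(-1/4)*s)*v 0 1 + (1/2)*v 1 0 + ((3/4)+(1/4)*s)*v 1 1)^2
        + (((3/4)+(-1/4)*s)*v 0 0 + (1/2)*v 0 1 + ((-3/4)+(1/4)*s)*v 1 0 + (-1/2)*v 1 1)^2
        + (((1/4)+(-1/4)*s)*v 0 0 + ((-1/4)+(-1/4)*s)*v 0 1 + ((1/4)+(-1/4)*s)*v 1 0 + ((-1/4)+(-1/4)*s)*v 1 1 + ((-1/2)+(1/2)*s)*v 4 0 + ((1/2)+(1/2)*s)*v 4 1)^2) / 6 := by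
  have e6 : v 6 = -v 0 := hv 0
  have e7 : v 7 = -v 1 := hv 1
  have e8 : v 8 = -v 2 := hv 2
  have e9 : v 9 = -v 3 := hv 3
  have e10 : v 10 = -v 4 := hv 4
  have e11 : v 11 = -v 5 := hv 5
  rw [oCX4 s hs v hv, PX4 s hs]
  simp [nn, dotProduct, Fin.sum_univ_three, P, fS, cross_apply, va, vb, vc, tri, e6, e7, e8, e9,
    e10, e11]
  ring

lemma oFX5 (s : ℝ) (hs : s ^ 2 = 5) (v : V) (hv : ∀ i, v (i + 6) = -v i) :
    P (X s) 5 ⬝ᵥ P v 5 + nn (P (X s) 5 ⨯₃ Q (X s) v 5) / 6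
      = (1/2)*(((1/2)+(-1/2)*s)*((v 1 1-v 0 1)*((-v 5 2)-v 0 2)-(v 1 2-v 0 2)*((-v 5 1)-v 0 1)) + ((1/2)+(1/2)*s)*((v 1 2-v 0 2)*((-v 5 0)-v 0 0)-(v 1 0-v 0 0)*((-v 5 2)-v 0 2)))
        + (((1/2)*v 0 0 + ((-3/4)+(-1/4)*s)*v 0 1 + (-1/2)*v 1 0 + ((3/4)+(1/4)*s)*v 1 1)^2
        + (((3/4)+(-1/4)*s)*v 0 0 + (-1/2)*v 0 1 + ((-3/4)+(1/4)*s)*v 1 0 + (1/2)*v 1 1)^2
        + (((1/4)+(-1/4)*s)*v 0 0 + ((1/4)+(1/4)*s)*v 0 1 + ((1/4)+(-1/4)*s)*v 1 0 + ((1/4)+(1/4)*s)*v 1 1 + ((1/2)+(-1/2)*s)*v 5 0 + ((1/2)+(1/2)*s)*v 5 1)^2) / 6 := by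
  have e6 : v 6 = -v 0 := hv 0
  have e7 : v 7 = -v 1 := hv 1
  have e8 : v 8 = -v 2 := hv 2
  have e9 : v 9 = -v 3 := hv 3
  have e10 : v 10 = -v 4 := hv 4
  have e11 : v 11 = -v 5 := hv 5
  rw [oCX5 s hs v hv, PX5 s hs]
  simp [nn, dotProduct, Fin.sum_univ_three, P, fS, cross_apply, va, vb, vc, tri, e6, e7, e8, e9,
    e10, e11]
  ring

lemma oFX6 (s : ℝ) (hs : s ^ 2 = 5) (v : V) (hv : ∀ i, v (i + 6) = -v i) :
    P (X s) 6 ⬝ᵥ P v 6 + nn (P (X s) 6 ⨯₃ Q (X s) v 6) / 6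
      = (1/2)*(((-1/2)+(1/2)*s)*((v 2 2-v 3 2)*(v 0 0-v 3 0)-(v 2 0-v 3 0)*(v 0 2-v 3 2)) + ((1/2)+(1/2)*s)*((v 2 0-v 3 0)*(v 0 1-v 3 1)-(v 2 1-v 3 1)*(v 0 0-v 3 0)))
        + ((((-1/2)+(1/2)*s)*v 0 1 + ((1/2)+(1/2)*s)*v 0 2 + ((1/4)+(-1/4)*s)*v 2 1 + ((-1/4)+(-1/4)*s)*v 2 2 + ((1/4)+(-1/4)*s)*v 3 1 + ((-1/4)+(-1/4)*s)*v 3 2)^2
        + ((-1/2)*v 2 1 + ((-3/4)+(-1/4)*s)*v 2 2 + (1/2)*v 3 1 + ((3/4)+(1/4)*s)*v 3 2)^2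
        + (((3/4)+(-1/4)*s)*v 2 1 + (1/2)*v 2 2 + ((-3/4)+(1/4)*s)*v 3 1 + (-1/2)*v 3 2)^2) / 6 := by
  have e6 : v 6 = -v 0 := hv 0
  have e7 : v 7 = -v 1 := hv 1
  have e8 : v 8 = -v 2 := hv 2
  have e9 : v 9 = -v 3 := hv 3
  have e10 : v 10 = -v 4 := hv 4
  have e11 : v 11 = -v 5 := hv 5
  rw [oCX6 s hs v hv, PX6 s hs]
  simp [nn, dotProduct, Fin.sum_univ_three, P, fS, cross_apply, va, vb, vc, tri, e6, e7, e8, e9,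
    e10, e11]
  ring

lemma oFX7 (s : ℝ) (hs : s ^ 2 = 5) (v : V) (hv : ∀ i, v (i + 6) = -v i) :
    P (X s) 7 ⬝ᵥ P v 7 + nn (P (X s) 7 ⨯₃ Q (X s) v 7) / 6
      = (1/2)*(((1/2)+(-1/2)*s)*((v 3 2-v 2 2)*((-v 1 0)-v 2 0)-(v 3 0-v 2 0)*((-v 1 2)-v 2 2)) + ((1/2)+(1/2)*s)*((v 3 0-v 2 0)*((-v 1 1)-v 2 1)-(v 3 1-v 2 1)*((-v 1 0)-v 2 0)))
        + ((((1/2)+(-1/2)*s)*v 1 1 + ((1/2)+(1/2)*s)*v 1 2 + ((1/4)+(-1/4)*s)*v 2 1 + ((1/4)+(1/4)*s)*v 2 2 + ((1/4)+(-1/4)*s)*v 3 1 + ((1/4)+(1/4)*s)*v 3 2)^2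
        + ((1/2)*v 2 1 + ((-3/4)+(-1/4)*s)*v 2 2 + (-1/2)*v 3 1 + ((3/4)+(1/4)*s)*v 3 2)^2
        + (((3/4)+(-1/4)*s)*v 2 1 + (-1/2)*v 2 2 + ((-3/4)+(1/4)*s)*v 3 1 + (1/2)*v 3 2)^2) / 6 := by
  have e6 : v 6 = -v 0 := hv 0
  have e7 : v 7 = -v 1 := hv 1
  have e8 : v 8 = -v 2 := hv 2
  have e9 : v 9 = -v 3 := hv 3
  have e10 : v 10 = -v 4 := hv 4
  have e11 : v 11 = -v 5 := hv 5
  rw [oCX7 s hs v hv, PX7 s hs]
  simp [nn, dotProduct, Fin.sum_univ_three, P, fS, cross_apply, va, vb, vc, tri, e6, e7, e8, e9,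
    e10, e11]
  ring

lemma oFX8 (s : ℝ) (hs : s ^ 2 = 5) (v : V) (hv : ∀ i, v (i + 6) = -v i) :
    P (X s) 8 ⬝ᵥ P v 8 + nn (P (X s) 8 ⨯₃ Q (X s) v 8) / 6
      = (1/2)*(((1/2)+(1/2)*s)*((v 4 1-v 5 1)*(v 2 2-v 5 2)-(v 4 2-v 5 2)*(v 2 1-v 5 1)) + ((-1/2)+(1/2)*s)*((v 4 0-v 5 0)*(v 2 1-v 5 1)-(v 4 1-v 5 1)*(v 2 0-v 5 0)))
        + (((1/2)*v 4 0 + ((3/4)+(-1/4)*s)*v 4 2 + (-1/2)*v 5 0 + ((-3/4)+(1/4)*s)*v 5 2)^2
        + (((1/2)+(1/2)*s)*v 2 0 + ((-1/2)+(1/2)*s)*v 2 2 + ((-1/4)+(-1/4)*s)*v 4 0 + ((1/4)+(-1/4)*s)*v 4 2 + ((-1/4)+(-1/4)*s)*v 5 0 + ((1/4)+(-1/4)*s)*v 5 2)^2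
        + (((-3/4)+(-1/4)*s)*v 4 0 + (-1/2)*v 4 2 + ((3/4)+(1/4)*s)*v 5 0 + (1/2)*v 5 2)^2) / 6 := by
  have e6 : v 6 = -v 0 := hv 0
  have e7 : v 7 = -v 1 := hv 1
  have e8 : v 8 = -v 2 := hv 2
  have e9 : v 9 = -v 3 := hv 3
  have e10 : v 10 = -v 4 := hv 4
  have e11 : v 11 = -v 5 := hv 5
  rw [oCX8 s hs v hv, PX8 s hs]
  simp [nn, dotProduct, Fin.sum_univ_three, P, fS, cross_apply, va, vb, vc, tri, e6, e7, e8, e9,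
    e10, e11]
  ring

lemma oFX9 (s : ℝ) (hs : s ^ 2 = 5) (v : V) (hv : ∀ i, v (i + 6) = -v i) :
    P (X s) 9 ⬝ᵥ P v 9 + nn (P (X s) 9 ⨯₃ Q (X s) v 9) / 6
      = (1/2)*(((1/2)+(1/2)*s)*((v 5 1-v 4 1)*((-v 3 2)-v 4 2)-(v 5 2-v 4 2)*((-v 3 1)-v 4 1)) + ((1/2)+(-1/2)*s)*((v 5 0-v 4 0)*((-v 3 1)-v 4 1)-(v 5 1-v 4 1)*((-v 3 0)-v 4 0)))
        + (((-1/2)*v 4 0 + ((3/4)+(-1/4)*s)*v 4 2 + (1/2)*v 5 0 + ((-3/4)+(1/4)*s)*v 5 2)^2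
        + (((1/2)+(1/2)*s)*v 3 0 + ((1/2)+(-1/2)*s)*v 3 2 + ((1/4)+(1/4)*s)*v 4 0 + ((1/4)+(-1/4)*s)*v 4 2 + ((1/4)+(1/4)*s)*v 5 0 + ((1/4)+(-1/4)*s)*v 5 2)^2
        + (((-3/4)+(-1/4)*s)*v 4 0 + (1/2)*v 4 2 + ((3/4)+(1/4)*s)*v 5 0 + (-1/2)*v 5 2)^2) / 6 := by
  have e6 : v 6 = -v 0 := hv 0
  have e7 : v 7 = -v 1 := hv 1
  have e8 : v 8 = -v 2 := hv 2
  have e9 : v 9 = -v 3 := hv 3
  have e10 : v 10 = -v 4 := hv 4
  have e11 : v 11 = -v 5 := hv 5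
  rw [oCX9 s hs v hv, PX9 s hs]
  simp [nn, dotProduct, Fin.sum_univ_three, P, fS, cross_apply, va, vb, vc, tri, e6, e7, e8, e9,
    e10, e11]
  ring

lemma oetaX (s : ℝ) (v : V) (hv : ∀ i, v (i + 6) = -v i) :
    eta (X s) v = ((0*(v 2 1*v 4 2-v 2 2*v 4 1)-((1/2)+(1/2)*s)*(v 2 0*v 4 2-v 2 2*v 4 0)+1*(v 2 0*v 4 1-v 2 1*v 4 0)) + (v 0 0*(0*v 4 2-((1/2)+(1/2)*s)*v 4 1)-v 0 1*(1*v 4 2-((1/2)+(1/2)*s)*v 4 0)+v 0 2*(1*v 4 1-0*v 4 0)) + (v 0 0*(v 2 1*0-v 2 2*1)-v 0 1*(v 2 0*0-v 2 2*((1/2)+(1/2)*s))+v 0 2*(v 2 0*1-v 2 1*((1/2)+(1/2)*s))))/3 +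
      ((0*((-v 3 1)*v 5 2-(-v 3 2)*v 5 1)-((-1/2)+(-1/2)*s)*((-v 3 0)*v 5 2-(-v 3 2)*v 5 0)+(-1)*((-v 3 0)*v 5 1-(-v 3 1)*v 5 0)) + ((-v 0 0)*(0*v 5 2-((-1/2)+(-1/2)*s)*v 5 1)-(-v 0 1)*(1*v 5 2-((-1/2)+(-1/2)*s)*v 5 0)+(-v 0 2)*(1*v 5 1-0*v 5 0)) + ((-v 0 0)*((-v 3 1)*0-(-v 3 2)*(-1))-(-v 0 1)*((-v 3 0)*0-(-v 3 2)*((1/2)+(1/2)*s))+(-v 0 2)*((-v 3 0)*(-1)-(-v 3 1)*((1/2)+(1/2)*s))))/3 +
      ((0*((-v 2 1)*(-v 5 2)-(-v 2 2)*(-v 5 1))-((1/2)+(1/2)*s)*((-v 2 0)*(-v 5 2)-(-v 2 2)*(-v 5 0))+(-1)*((-v 2 0)*(-v 5 1)-(-v 2 1)*(-v 5 0))) + (v 1 0*(0*(-v 5 2)-((-1/2)+(-1/2)*s)*(-v 5 1))-v 1 1*((-1)*(-v 5 2)-((-1/2)+(-1/2)*s)*(-v 5 0))+v 1 2*((-1)*(-v 5 1)-0*(-v 5 0))) + (v 1 0*((-v 2 1)*0-(-v 2 2)*1)-v 1 1*((-v 2 0)*0-(-v 2 2)*((-1/2)+(-1/2)*s))+v 1 2*((-v 2 0)*1-(-v 2 1)*((-1/2)+(-1/2)*s))))/3 +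
      ((0*(v 3 1*(-v 4 2)-v 3 2*(-v 4 1))-((-1/2)+(-1/2)*s)*(v 3 0*(-v 4 2)-v 3 2*(-v 4 0))+1*(v 3 0*(-v 4 1)-v 3 1*(-v 4 0))) + ((-v 1 0)*(0*(-v 4 2)-((1/2)+(1/2)*s)*(-v 4 1))-(-v 1 1)*((-1)*(-v 4 2)-((1/2)+(1/2)*s)*(-v 4 0))+(-v 1 2)*((-1)*(-v 4 1)-0*(-v 4 0))) + ((-v 1 0)*(v 3 1*0-v 3 2*(-1))-(-v 1 1)*(v 3 0*0-v 3 2*((-1/2)+(-1/2)*s))+(-v 1 2)*(v 3 0*(-1)-v 3 1*((-1/2)+(-1/2)*s))))/3 +
      ((0*(v 0 1*v 4 2-v 0 2*v 4 1)-((1/2)+(1/2)*s)*(v 0 0*v 4 2-v 0 2*v 4 0)+(-1)*(v 0 0*v 4 1-v 0 1*v 4 0)) + (v 1 0*(((1/2)+(1/2)*s)*v 4 2-1*v 4 1)-v 1 1*(0*v 4 2-1*v 4 0)+v 1 2*(0*v 4 1-((1/2)+(1/2)*s)*v 4 0)) + (v 1 0*(v 0 1*0-v 0 2*1)-v 1 1*(v 0 0*0-v 0 2*((1/2)+(1/2)*s))+v 1 2*(v 0 0*1-v 0 1*((1/2)+(1/2)*s))))/3 +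
      ((0*(v 1 1*(-v 5 2)-v 1 2*(-v 5 1))-((1/2)+(1/2)*s)*(v 1 0*(-v 5 2)-v 1 2*(-v 5 0))+1*(v 1 0*(-v 5 1)-v 1 1*(-v 5 0))) + (v 0 0*(((1/2)+(1/2)*s)*(-v 5 2)-(-1)*(-v 5 1))-v 0 1*(0*(-v 5 2)-(-1)*(-v 5 0))+v 0 2*(0*(-v 5 1)-((1/2)+(1/2)*s)*(-v 5 0))) + (v 0 0*(v 1 1*0-v 1 2*1)-v 0 1*(v 1 0*0-v 1 2*((-1/2)+(-1/2)*s))+v 0 2*(v 1 0*1-v 1 1*((-1/2)+(-1/2)*s))))/3 +
      (((-1)*(v 2 1*v 0 2-v 2 2*v 0 1)-0*(v 2 0*v 0 2-v 2 2*v 0 0)+((1/2)+(1/2)*s)*(v 2 0*v 0 1-v 2 1*v 0 0)) + (v 3 0*(0*v 0 2-((1/2)+(1/2)*s)*v 0 1)-v 3 1*(1*v 0 2-((1/2)+(1/2)*s)*v 0 0)+v 3 2*(1*v 0 1-0*v 0 0)) + (v 3 0*(v 2 1*1-v 2 2*((1/2)+(1/2)*s))-v 3 1*(v 2 0*1-v 2 2*0)+v 3 2*(v 2 0*((1/2)+(1/2)*s)-v 2 1*0)))/3 +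
      ((1*(v 3 1*(-v 1 2)-v 3 2*(-v 1 1))-0*(v 3 0*(-v 1 2)-v 3 2*(-v 1 0))+((1/2)+(1/2)*s)*(v 3 0*(-v 1 1)-v 3 1*(-v 1 0))) + (v 2 0*(0*(-v 1 2)-((1/2)+(1/2)*s)*(-v 1 1))-v 2 1*((-1)*(-v 1 2)-((1/2)+(1/2)*s)*(-v 1 0))+v 2 2*((-1)*(-v 1 1)-0*(-v 1 0))) + (v 2 0*(v 3 1*1-v 3 2*((-1/2)+(-1/2)*s))-v 2 1*(v 3 0*1-v 3 2*0)+v 2 2*(v 3 0*((-1/2)+(-1/2)*s)-v 3 1*0)))/3 +
      ((((1/2)+(1/2)*s)*(v 4 1*v 2 2-v 4 2*v 2 1)-(-1)*(v 4 0*v 2 2-v 4 2*v 2 0)+0*(v 4 0*v 2 1-v 4 1*v 2 0)) + (v 5 0*(1*v 2 2-0*v 2 1)-v 5 1*(((1/2)+(1/2)*s)*v 2 2-0*v 2 0)+v 5 2*(((1/2)+(1/2)*s)*v 2 1-1*v 2 0)) + (v 5 0*(v 4 1*((1/2)+(1/2)*s)-v 4 2*0)-v 5 1*(v 4 0*((1/2)+(1/2)*s)-v 4 2*1)+v 5 2*(v 4 0*0-v 4 1*1)))/3 +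
      ((((1/2)+(1/2)*s)*(v 5 1*(-v 3 2)-v 5 2*(-v 3 1))-1*(v 5 0*(-v 3 2)-v 5 2*(-v 3 0))+0*(v 5 0*(-v 3 1)-v 5 1*(-v 3 0))) + (v 4 0*((-1)*(-v 3 2)-0*(-v 3 1))-v 4 1*(((1/2)+(1/2)*s)*(-v 3 2)-0*(-v 3 0))+v 4 2*(((1/2)+(1/2)*s)*(-v 3 1)-(-1)*(-v 3 0))) + (v 4 0*(v 5 1*((-1/2)+(-1/2)*s)-v 5 2*0)-v 4 1*(v 5 0*((-1/2)+(-1/2)*s)-v 5 2*1)+v 4 2*(v 5 0*0-v 5 1*1)))/3 := by
  have e6 : v 6 = -v 0 := hv 0
  have e7 : v 7 = -v 1 := hv 1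
  have e8 : v 8 = -v 2 := hv 2
  have e9 : v 9 = -v 3 := hv 3
  have e10 : v 10 = -v 4 := hv 4
  have e11 : v 11 = -v 5 := hv 5
  rw [eta, sum10]
  simp [d3, X, va, vb, vc, tri, e6, e7, e8, e9, e10, e11]
  try ring

/-- The sum of squares. -/
noncomputable def sosO (s : ℝ) (v : V) : ℝ :=
  ((-17/24)+(11/24)*s)*(1*v 0 0 + ((20/79)+(-1/79)*s)*v 1 0 + ((1/79)+(-4/79)*s)*v 2 0 + ((1/79)+(-4/79)*s)*v 2 1 + ((-55/158)+(-17/158)*s)*v 2 2 + ((1/79)+(-4/79)*s)*v 3 0 + ((-1/79)+(4/79)*s)*v 3 1 + ((55/158)+(17/158)*s)*v 3 2 + ((-16/79)+(-15/79)*s)*v 4 0 + ((-53/158)+(-25/158)*s)*v 4 1 + ((1/79)+(-4/79)*s)*v 4 2 + ((16/79)+(15/79)*s)*v 5 0 + ((-53/158)+(-25/158)*s)*v 5 1 + ((1/79)+(-4/79)*s)*v 5 2)^2 +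
    ((-307/474)+(67/158)*s)*(1*v 1 0 + ((-1/44)+(3/44)*s)*v 2 0 + ((1/124)+(-5/124)*s)*v 2 1 + ((5/11)+(3/22)*s)*v 2 2 + ((-1/44)+(3/44)*s)*v 3 0 + ((-1/124)+(5/124)*s)*v 3 1 + ((-5/11)+(-3/22)*s)*v 3 2 + ((-21/124)+(-19/124)*s)*v 4 0 + ((-17/62)+(-4/31)*s)*v 4 1 + ((-1/44)+(3/44)*s)*v 4 2 + ((21/124)+(19/124)*s)*v 5 0 + ((-17/62)+(-4/31)*s)*v 5 1 + ((-1/44)+(3/44)*s)*v 5 2)^2 +
    ((-171/248)+(111/248)*s)*(((-107/522)+(-101/522)*s)*v 0 1 + ((-89/261)+(-14/87)*s)*v 0 2 + ((107/522)+(101/522)*s)*v 1 1 + ((-89/261)+(-14/87)*s)*v 1 2 + ((73/261)+(-4/261)*s)*v 2 1 + 1*v 3 1 + ((112/261)+(32/261)*s)*v 4 0 + ((4/87)+(20/261)*s)*v 4 1 + ((7/522)+(-3/58)*s)*v 4 2 + ((-112/261)+(-32/261)*s)*v 5 0 + ((4/87)+(20/261)*s)*v 5 1 + ((-7/522)+(3/58)*s)*v 5 2)^2 +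
    ((-482/783)+(106/261)*s)*(((-21/124)+(-19/124)*s)*v 0 1 + ((-17/62)+(-4/31)*s)*v 0 2 + ((21/124)+(19/124)*s)*v 1 1 + ((-17/62)+(-4/31)*s)*v 1 2 + 1*v 2 1 + ((-11/19)+(-3/19)*s)*v 4 0 + ((-1/19)+(-2/19)*s)*v 4 1 + ((1/124)+(-5/124)*s)*v 4 2 + ((11/19)+(3/19)*s)*v 5 0 + ((-1/19)+(-2/19)*s)*v 5 1 + ((-1/124)+(5/124)*s)*v 5 2)^2 +
    ((-447/682)+(877/2046)*s)*(((664/1501)+(188/1501)*s)*v 0 1 + ((69/1501)+(119/1501)*s)*v 0 2 + ((-664/1501)+(-188/1501)*s)*v 1 1 + ((69/1501)+(119/1501)*s)*v 1 2 + ((-1163/3002)+(-483/3002)*s)*v 2 0 + ((-402/1501)+(-367/1501)*s)*v 2 2 + ((-1163/3002)+(-483/3002)*s)*v 3 0 + ((402/1501)+(367/1501)*s)*v 3 2 + ((20/79)+(-1/79)*s)*v 4 2 + 1*v 5 2)^2 +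
    ((-142/237)+(94/237)*s)*(((-11/19)+(-3/19)*s)*v 0 1 + ((-1/19)+(-2/19)*s)*v 0 2 + ((11/19)+(3/19)*s)*v 1 1 + ((-1/19)+(-2/19)*s)*v 1 2 + ((-6/19)+(-5/38)*s)*v 2 0 + ((-17/76)+(-15/76)*s)*v 2 2 + ((-6/19)+(-5/38)*s)*v 3 0 + ((17/76)+(15/76)*s)*v 3 2 + 1*v 4 2)^2 +
    ((-7/114)+(50/57)*s)*(((387/5258)+(-105/5258)*s)*v 0 1 + ((122/2629)+(-135/2629)*s)*v 0 2 + ((-3513/5258)+(-1737/5258)*s)*v 1 1 + 1*v 1 2 + ((521/5258)+(307/5258)*s)*v 2 0 + ((549/5258)+(707/5258)*s)*v 2 2 + ((-521/5258)+(-307/5258)*s)*v 3 0 + ((549/5258)+(707/5258)*s)*v 3 2 + ((521/5258)+(307/5258)*s)*v 4 0 + ((521/5258)+(307/5258)*s)*v 4 1 + ((521/5258)+(307/5258)*s)*v 5 0 + ((-521/5258)+(-307/5258)*s)*v 5 1)^2 +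
    ((-104/2629)+(2270/2629)*s)*(((3241/4898)+(1651/4898)*s)*v 0 1 + 1*v 0 2 + ((-317/2449)+(4/2449)*s)*v 1 1 + ((-11/124)+(-7/124)*s)*v 2 0 + ((-9/124)+(-17/124)*s)*v 2 2 + ((11/124)+(7/124)*s)*v 3 0 + ((-9/124)+(-17/124)*s)*v 3 2 + ((-11/124)+(-7/124)*s)*v 4 0 + ((-11/124)+(-7/124)*s)*v 4 1 + ((-11/124)+(-7/124)*s)*v 5 0 + ((11/124)+(7/124)*s)*v 5 1)^2 +
    ((-90/589)+(1474/1767)*s)*(((-19/458)+(133/1832)*s)*v 0 1 + ((-19/458)+(133/1832)*s)*v 1 1 + ((307/1832)+(403/4580)*s)*v 2 0 + ((395/1832)+(119/1145)*s)*v 2 2 + ((-307/1832)+(-403/4580)*s)*v 3 0 + ((395/1832)+(119/1145)*s)*v 3 2 + ((481/3664)+(17/3664)*s)*v 4 0 + ((181/1832)+(-267/9160)*s)*v 4 1 + ((-2525/3664)+(-1249/3664)*s)*v 5 0 + 1*v 5 1)^2 +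
    ((-29/229)+(3763/4580)*s)*(((185/3116)+(-257/3116)*s)*v 0 1 + ((185/3116)+(-257/3116)*s)*v 1 1 + ((-13/76)+(-7/76)*s)*v 2 0 + ((-691/3116)+(-337/3116)*s)*v 2 2 + ((13/76)+(7/76)*s)*v 3 0 + ((-691/3116)+(-337/3116)*s)*v 3 2 + ((41625/61541)+(42487/123082)*s)*v 4 0 + 1*v 4 1 + ((-14125/123082)+(600/61541)*s)*v 5 0)^2 +
    ((-22/57)+(83/114)*s)*(((1/3422)+(-37/3422)*s)*v 0 1 + ((1/3422)+(-37/3422)*s)*v 1 1 + 1*v 2 0 + ((2281/3422)+(1153/3422)*s)*v 2 2 + ((506/1711)+(99/1711)*s)*v 3 0 + ((-1559/3422)+(-491/3422)*s)*v 3 2 + ((191/3422)+(-223/3422)*s)*v 4 0 + ((191/3422)+(-223/3422)*s)*v 5 0)^2 +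
    ((-15290/32509)+(21632/32509)*s)*(((1/164)+(13/820)*s)*v 0 1 + ((1/164)+(13/820)*s)*v 1 1 + ((590/3239)+(208/16195)*s)*v 2 2 + 1*v 3 0 + ((-3945/6478)+(-10449/32390)*s)*v 3 2 + ((-7/164)+(73/820)*s)*v 4 0 + ((-7/164)+(73/820)*s)*v 5 0)^2 +
    ((-6049/19434)+(15389/32390)*s)*(1*v 0 1 + ((-19186/150389)+(-14205/150389)*s)*v 1 1 + ((31181/601556)+(-27825/601556)*s)*v 2 2 + ((31181/601556)+(-27825/601556)*s)*v 3 2 + ((31181/601556)+(-27825/601556)*s)*v 4 0 + ((31181/601556)+(-27825/601556)*s)*v 5 0)^2 +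
    ((-52570/150389)+(68230/150389)*s)*(1*v 1 1 + ((89/2728)+(-135/2728)*s)*v 2 2 + ((89/2728)+(-135/2728)*s)*v 3 2 + ((89/2728)+(-135/2728)*s)*v 4 0 + ((89/2728)+(-135/2728)*s)*v 5 0)^2 +
    ((-2506985/8835992)+(4065415/8835992)*s)*(1*v 2 2 + ((-106697/691291)+(-60380/691291)*s)*v 3 2 + ((19286/691291)+(-27215/691291)*s)*v 4 0 + ((19286/691291)+(-27215/691291)*s)*v 5 0)^2 +
    ((-226860/691291)+(303640/691291)*s)*(1*v 3 2 + ((14/1481)+(-135/2962)*s)*v 4 0 + ((14/1481)+(-135/2962)*s)*v 5 0)^2 +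
    ((-63395/233998)+(105455/233998)*s)*(1*v 4 0 + ((-770/4409)+(-375/4409)*s)*v 5 0)^2 +
    ((-1410/4409)+(1890/4409)*s)*(1*v 5 0)^2

lemma sosO_nonneg (s : ℝ) (hs : s ^ 2 = 5) (hs0 : 0 ≤ s) (v : V) : 0 ≤ sosO s v := by
  have h1 : 2236067 / 1000000 < s := by nlinarith
  have h2 : s < 2236068 / 1000000 := by nlinarith
  unfold sosO
  have sq : ∀ d l : ℝ, 0 ≤ d → 0 ≤ d * l ^ 2 := fun d l hd => mul_nonneg hd (sq_nonneg l)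
  repeat' apply add_nonneg
  all_goals (apply sq; linarith)

/-- Inner product with the regular icosahedron (six vertices). -/
noncomputable def scaleC (s : ℝ) (v : V) : ℝ := ((1/2)+(1/2)*s)*v 0 1 + 1*v 0 2 + ((1/2)+(1/2)*s)*v 1 1 + (-1)*v 1 2 + 1*v 2 0 + ((1/2)+(1/2)*s)*v 2 2 + (-1)*v 3 0 + ((1/2)+(1/2)*s)*v 3 2 + ((1/2)+(1/2)*s)*v 4 0 + 1*v 4 1 + ((1/2)+(1/2)*s)*v 5 0 + (-1)*v 5 1

/-- Component in the direction of a rotation (six vertices). -/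
noncomputable def rotC0 (s : ℝ) (v : V) : ℝ := (-1)*v 0 1 + ((1/2)+(1/2)*s)*v 0 2 + 1*v 1 1 + ((1/2)+(1/2)*s)*v 1 2 + ((-1/2)+(-1/2)*s)*v 2 1 + ((-1/2)+(-1/2)*s)*v 3 1 + 1*v 4 2 + (-1)*v 5 2

/-- Component in the direction of a rotation (six vertices). -/
noncomputable def rotC1 (s : ℝ) (v : V) : ℝ := 1*v 0 0 + (-1)*v 1 0 + ((1/2)+(1/2)*s)*v 2 0 + (-1)*v 2 2 + ((1/2)+(1/2)*s)*v 3 0 + 1*v 3 2 + ((-1/2)+(-1/2)*s)*v 4 2 + ((-1/2)+(-1/2)*s)*v 5 2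

/-- Component in the direction of a rotation (six vertices). -/
noncomputable def rotC2 (s : ℝ) (v : V) : ℝ := ((-1/2)+(-1/2)*s)*v 0 0 + ((-1/2)+(-1/2)*s)*v 1 0 + 1*v 2 1 + (-1)*v 3 1 + (-1)*v 4 0 + ((1/2)+(1/2)*s)*v 4 1 + 1*v 5 0 + ((1/2)+(1/2)*s)*v 5 1

lemma odd_id (s : ℝ) (hs : s ^ 2 = 5) (v : V) (hv : ∀ i, v (i + 6) = -v i) :
    (3 + s) * ∑ f, (P (X s) f ⬝ᵥ P v f + nn (P (X s) f ⨯₃ Q (X s) v f) / 6) - 6 * eta (X s) v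
      = 3 * (v 0 0^2 + v 0 1^2 + v 0 2^2 + v 1 0^2 + v 1 1^2 + v 1 2^2 + v 2 0^2 + v 2 1^2 + v 2 2^2 + v 3 0^2 + v 3 1^2 + v 3 2^2 + v 4 0^2 + v 4 1^2 + v 4 2^2 + v 5 0^2 + v 5 1^2 + v 5 2^2)
        - (1/2) * scaleC s v ^ 2 - (1/4) * (rotC0 s v ^ 2 + rotC1 s v ^ 2 + rotC2 s v ^ 2)
        + sosO s v := by
  rw [sum10, oetaX s v hv, oFX0 s hs v hv, oFX1 s hs v hv, oFX2 s hs v hv, oFX3 s hs v hv,
    oFX4 s hs v hv, oFX5 s hs v hv, oFX6 s hs v hv, oFX7 s hs v hv, oFX8 s hs v hv,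
    oFX9 s hs v hv, sosO, scaleC, rotC0, rotC1, rotC2]
  linear_combination (((7/48) + (1/12)*s)*(v 0 0*v 0 0)
    + ((575/1896))*(v 0 0*v 1 0)
    + ((-61/3792) + (-1/48)*s)*(v 0 0*v 2 0)
    + ((-1009/3792) + (-1/48)*s)*(v 0 0*v 2 1)
    + ((1085/3792) + (-1/48)*s)*(v 0 0*v 2 2)
    + ((-61/3792) + (-1/48)*s)*(v 0 0*v 3 0)
    + ((1009/3792) + (1/48)*s)*(v 0 0*v 3 1)
    + ((-1085/3792) + (1/48)*s)*(v 0 0*v 3 2)
    + ((265/3792) + (-1/16)*s)*(v 0 0*v 4 0)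
    + ((-635/3792) + (-1/16)*s)*(v 0 0*v 4 1)
    + ((-1009/3792) + (-1/48)*s)*(v 0 0*v 4 2)
    + ((-265/3792) + (1/16)*s)*(v 0 0*v 5 0)
    + ((-635/3792) + (-1/16)*s)*(v 0 0*v 5 1)
    + ((-1009/3792) + (-1/48)*s)*(v 0 0*v 5 2)
    + ((6376593068825674309275991766635/58538761299847947332214801659232) + (-233540912403726872494344753246419/8780814194977192099832220248884800)*s)*(v 0 1*v 0 1)
    + ((-184762185962480187709/906138194338147740552) + (14987517876796007119/151023032389691290092)*s)*(v 0 1*v 0 2)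
    + ((43359383434673316516676476744810043291/83634064844666913037772292163937291856) + (4405043175021351114956044827190139/83417734852283324948406092364405600)*s)*(v 0 1*v 1 1)
    + ((-205131956999080549/344670290733414888) + (-15774000339473/240355851278532)*s)*(v 0 1*v 1 2)
    + ((767001061986561311965047305/2642481847959190411426972368) + (-42587523503194298813779/5148026199024333550412960)*s)*(v 0 1*v 2 0)
    + ((29205/417136) + (-733813/11262672)*s)*(v 0 1*v 2 1)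
    + ((11969739814237580814031604269809037787/46463369358148285020984606757742939920) + (12376042653232656493021587777481/9268637205809258327600676929378400)*s)*(v 0 1*v 2 2)
    + ((-6538584997574852295626405010451/22606432209290873969757748608240) + (162384179868259810539178474179/15070954806193915979838499072160)*s)*(v 0 1*v 3 0)
    + ((993/14384) + (-1/16)*s)*(v 0 1*v 3 1)
    + ((36035974446842933861688552474328263641/139390108074444855062953820273228819760) + (-6851021688677178502829141668253/3089545735269752775866892309792800)*s)*(v 0 1*v 3 2)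
    + ((450387262643005296273839412007720207/1764431747777782975480428104724415440) + (18275155739262405681625017315541/1055920694332700315802608764106400)*s)*(v 0 1*v 4 0)
    + ((-5342586578430870210617/136629651461885692496496) + (-5672957165170712354237/237435674796569648545740)*s)*(v 0 1*v 4 1)
    + ((11308813510681/37950923886084) + (-2539022361563/75901847772168)*s)*(v 0 1*v 4 2)
    + ((450499411070680883407265117739405887/1764431747777782975480428104724415440) + (11115500198723671527856025904581/1055920694332700315802608764106400)*s)*(v 0 1*v 5 0)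
    + ((10973996487523722923/276489868758741948816) + (100570290030120575/3622138018673475312)*s)*(v 0 1*v 5 1)
    + ((-146313335143/480391441596) + (2025643/58190472)*s)*(v 0 1*v 5 2)
    + ((1922797433228147811811/5436829166028886443312) + (25181332384282868059/453069097169073870276)*s)*(v 0 2*v 0 2)
    + ((540199820225052267421/906138194338147740552) + (5416696489792688563/151023032389691290092)*s)*(v 0 2*v 1 1)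
    + ((126211074224047183/1034010872200244664) + (-9172285547972/180266888458899)*s)*(v 0 2*v 1 2)
    + ((-4878049961458801/23171037917945808) + (-362046488564039/23171037917945808)*s)*(v 0 2*v 2 0)
    + ((-1899785/11262672) + (-242927/3754224)*s)*(v 0 2*v 2 1)
    + ((-835647497820491/23171037917945808) + (-1164319890884237/23171037917945808)*s)*(v 0 2*v 2 2)
    + ((4909824640022209/23171037917945808) + (119884631531901/7723679305981936)*s)*(v 0 2*v 3 0)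
    + ((-2423/14384) + (-1/16)*s)*(v 0 2*v 3 1)
    + ((-854472435326635/23171037917945808) + (-1170698325170989/23171037917945808)*s)*(v 0 2*v 3 2)
    + ((429008298005029/1479027365730288) + (-229976945657/15903520061616)*s)*(v 0 2*v 4 0)
    + ((-311244432808963/1479027365730288) + (-7674917902471/493009121910096)*s)*(v 0 2*v 4 1)
    + ((-515343921685/455411086633008) + (-4804577246071/151803695544336)*s)*(v 0 2*v 4 2)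
    + ((425250577026149/1479027365730288) + (-265364547577/15903520061616)*s)*(v 0 2*v 5 0)
    + ((313524057890147/1479027365730288) + (7680668387783/493009121910096)*s)*(v 0 2*v 5 1)
    + ((-7825350869/5764697299152) + (3783575/116380944)*s)*(v 0 2*v 5 2)
    + ((14867/99856) + (4157/49928)*s)*(v 1 0*v 1 0)
    + ((57601/3295248) + (6065/299568)*s)*(v 1 0*v 2 0)
    + ((-2465569/9286608) + (-2139/99856)*s)*(v 1 0*v 2 1)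
    + ((-923627/3295248) + (5867/299568)*s)*(v 1 0*v 2 2)
    + ((57601/3295248) + (6065/299568)*s)*(v 1 0*v 3 0)
    + ((2465569/9286608) + (2139/99856)*s)*(v 1 0*v 3 1)
    + ((923627/3295248) + (-5867/299568)*s)*(v 1 0*v 3 2)
    + ((658445/9286608) + (-6461/99856)*s)*(v 1 0*v 4 0)
    + ((-1554605/9286608) + (-19273/299568)*s)*(v 1 0*v 4 1)
    + ((881413/3295248) + (6065/299568)*s)*(v 1 0*v 4 2)
    + ((-658445/9286608) + (6461/99856)*s)*(v 1 0*v 5 0)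
    + ((-1554605/9286608) + (-19273/299568)*s)*(v 1 0*v 5 1)
    + ((881413/3295248) + (6065/299568)*s)*(v 1 0*v 5 2)
    + ((129976078433440770343756187760236405613283/1323962460834169724719740762762354251045472) + (-5583312171436013931742622293903316366749499/198594369125125458707961114414353137656820800)*s)*(v 1 1*v 1 1)
    + ((72296823229807261/344670290733414888) + (-24285308206949/240355851278532)*s)*(v 1 1*v 1 2)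
    + ((762949585399823835107144249/2642481847959190411426972368) + (-55448407086958303823139/5148026199024333550412960)*s)*(v 1 1*v 2 0)
    + ((-29205/417136) + (733813/11262672)*s)*(v 1 1*v 2 1)
    + ((5477071788365151472632244864813583922122449/20962738963207687308062562077070608974886640) + (-844110257393908240610072678038598278379933/69875796544025624360208540256902029916288800)*s)*(v 1 1*v 2 2)
    + ((-6604651756232761169946333284131/22606432209290873969757748608240) + (152076824588308170832396483219/15070954806193915979838499072160)*s)*(v 1 1*v 3 0)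
    + ((-993/14384) + (1/16)*s)*(v 1 1*v 3 1)
    + ((1832727150682159275146147651609157987161683/6987579654402562436020854025690202991628880) + (-1991569077116926514597832294050464171528439/209627389632076873080625620770706089748866400)*s)*(v 1 1*v 3 2)
    + ((68575570794870440330326431879310190765263/265351126116553003899526102241400113606160) + (216859294580170843456690892096056442746661/23881601350489770350957349201726010224554400)*s)*(v 1 1*v 4 0)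
    + ((-101806247795750114128891/2595963377775828157433424) + (-5969637123717870112207/237435674796569648545740)*s)*(v 1 1*v 4 1)
    + ((-11308813510681/37950923886084) + (2539022361563/75901847772168)*s)*(v 1 1*v 4 2)
    + ((68717429897142785602513067667889103990783/265351126116553003899526102241400113606160) + (206243641386018578179886074211104454740501/23881601350489770350957349201726010224554400)*s)*(v 1 1*v 5 0)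
    + ((10558234449847669771/276489868758741948816) + (102615991634333959/3622138018673475312)*s)*(v 1 1*v 5 1)
    + ((146313335143/480391441596) + (-2025643/58190472)*s)*(v 1 1*v 5 2)
    + ((3022591581466481/8652810646027152) + (41744391723689/721067553835596)*s)*(v 1 2*v 1 2)
    + ((1857489964261/8813631767952) + (255456471/12292373456)*s)*(v 1 2*v 2 0)
    + ((-1899785/11262672) + (-242927/3754224)*s)*(v 1 2*v 2 1)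
    + ((311488762855/8813631767952) + (2309895719/36877120368)*s)*(v 1 2*v 2 2)
    + ((-1845403741909/8813631767952) + (-770177269/36877120368)*s)*(v 1 2*v 3 0)
    + ((-2423/14384) + (-1/16)*s)*(v 1 2*v 3 1)
    + ((304328269319/8813631767952) + (2299744327/36877120368)*s)*(v 1 2*v 3 2)
    + ((-162396745241/562581729072) + (50497/2300976)*s)*(v 1 2*v 4 0)
    + ((118613005583/562581729072) + (1486463/71330256)*s)*(v 1 2*v 4 1)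
    + ((-515343921685/455411086633008) + (-4804577246071/151803695544336)*s)*(v 1 2*v 4 2)
    + ((-163826079961/562581729072) + (45377/2300976)*s)*(v 1 2*v 5 0)
    + ((-117745898287/562581729072) + (-1485631/71330256)*s)*(v 1 2*v 5 1)
    + ((-7825350869/5764697299152) + (3783575/116380944)*s)*(v 1 2*v 5 2)
    + ((217230590456127192155/784760091314684992441) + (162175974595894012504529/3766848438310487963716800)*s)*(v 2 0*v 2 0)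
    + ((71/34050896) + (-1879/102152688)*s)*(v 2 0*v 2 1)
    + ((-786404706756913821292683505/2642481847959190411426972368) + (1047584169011813406197311/25740130995121667752064800)*s)*(v 2 0*v 2 2)
    + ((67849213026622970517447/976526920901400743321128) + (-663781231846198374439/171220383559567634714400)*s)*(v 2 0*v 3 0)
    + ((-71/34050896) + (1879/102152688)*s)*(v 2 0*v 3 1)
    + ((1733615011266803041420057019/2642481847959190411426972368) + (651712959150348024140933/77220392985365003256194400)*s)*(v 2 0*v 3 2)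
    + ((-223223890106772518603725967/5284963695918380822853944736) + (-3599205931721397167069/160875818719510423450405)*s)*(v 2 0*v 4 0)
    + ((-509576078500939198921/2478189762046373660340) + (-461289498704027364187/16521265080309157735600)*s)*(v 2 0*v 4 1)
    + ((-143474255/889579658) + (-752996725/10674955896)*s)*(v 2 0*v 4 2)
    + ((-212180518167955442352492577/5284963695918380822853944736) + (-57950638172822574792713/2574013099512166775206480)*s)*(v 2 0*v 5 0)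
    + ((460693655870955211/2278271442929325360) + (1226209114153087/37805377655595792)*s)*(v 2 0*v 5 1)
    + ((-71661123/444789829) + (-1246789/18123864)*s)*(v 2 0*v 5 2)
    + ((669235095641/4358000829024) + (354583131113/4358000829024)*s)*(v 2 1*v 2 1)
    + ((5087/17025448) + (-16883/51076344)*s)*(v 2 1*v 2 2)
    + ((71/34050896) + (-1879/102152688)*s)*(v 2 1*v 3 0)
    + ((829080381/2782886864) + (1073519/287884848)*s)*(v 2 1*v 3 1)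
    + ((-5087/17025448) + (16883/51076344)*s)*(v 2 1*v 3 2)
    + ((6169434672337/20700503937864) + (-36175728725/1089500207256)*s)*(v 2 1*v 4 0)
    + ((-54284497289/41401007875728) + (-68722577209/2179000414512)*s)*(v 2 1*v 4 1)
    + ((-51324234455/193298423868) + (-154361879/7159200884)*s)*(v 2 1*v 4 2)
    + ((-6169434672337/20700503937864) + (36175728725/1089500207256)*s)*(v 2 1*v 5 0)
    + ((-54284497289/41401007875728) + (-68722577209/2179000414512)*s)*(v 2 1*v 5 1)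
    + ((102650081107/386596847736) + (924591035/42955205304)*s)*(v 2 1*v 5 2)
    + ((163202538455146396197866525959465048305217/1746894913600640609005213506422550747907220) + (-9065479448398662836444556369197980585944641/139751593088051248720417080513804059832577600)*s)*(v 2 2*v 2 2)
    + ((-14703745715952788257674601861321/22606432209290873969757748608240) + (-8325460605835120201620037796693/226064322092908739697577486082400)*s)*(v 2 2*v 3 0)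
    + ((-5087/17025448) + (16883/51076344)*s)*(v 2 2*v 3 1)
    + ((3968883776694760334815715496977588878400208423389/7245676390307402683438938300410109174429180126120) + (16512449750145723230722687807036522108013137/209627389632076873080625620770706089748866400)*s)*(v 2 2*v 3 2)
    + ((685174736949705975328151452700115618641478761777/2634791414657237339432341200149130608883338227680) + (-9306122802153021310299793423674172560083/2382129427637237194098018417848932838055300)*s)*(v 2 2*v 4 0)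
    + ((40138332007129845068969/135474373658535093431920) + (-270127649442953453039/6195474405115934150850)*s)*(v 2 2*v 4 1)
    + ((1874723429/21349911792) + (-1665984253/21349911792)*s)*(v 2 2*v 4 2)
    + ((690415585321156028476452398078658221687535238567/2634791414657237339432341200149130608883338227680) + (-15212855551644191933715628769321933778647/9528517710548948776392073671395731352221200)*s)*(v 2 2*v 5 0)
    + ((-1086210416383485461/3607263117971431820) + (893880682602295/18902688827797896)*s)*(v 2 2*v 5 1)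
    + ((616582599/7116637264) + (-2732321/36247728)*s)*(v 2 2*v 5 2)
    + ((581672281424134304169691415/2297401647285657923755868761) + (447894034762295966256813053009/11027527906971158034028170052800)*s)*(v 3 0*v 3 0)
    + ((-71/34050896) + (1879/102152688)*s)*(v 3 0*v 3 1)
    + ((7461527217698676333947328675899/22606432209290873969757748608240) + (-2155861774348096685390037195631/75354774030969579899192495360800)*s)*(v 3 0*v 3 2)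
    + ((1743433508322417285946539979313/45212864418581747939515497216480) + (105339570811494184532526844857/3767738701548478994959624768040)*s)*(v 3 0*v 4 0)
    + ((507537102364349688781/2478189762046373660340) + (1395505371150146724961/49563795240927473206800)*s)*(v 3 0*v 4 1)
    + ((-143474255/889579658) + (-752996725/10674955896)*s)*(v 3 0*v 4 2)
    + ((1697928587537011594723386339103/45212864418581747939515497216480) + (210307924773886909072580800183/7535477403096957989919249536080)*s)*(v 3 0*v 5 0)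
    + ((-462568145539159771/2278271442929325360) + (-405777649509477/12601792551865264)*s)*(v 3 0*v 5 1)
    + ((-71661123/444789829) + (-1246789/18123864)*s)*(v 3 0*v 5 2)
    + ((28705123/191923232) + (15635763/191923232)*s)*(v 3 1*v 3 1)
    + ((5087/17025448) + (-16883/51076344)*s)*(v 3 1*v 3 2)
    + ((-1281243631/4174330296) + (5021573/143942424)*s)*(v 3 1*v 4 0)
    + ((-5445251/2782886864) + (9382121/287884848)*s)*(v 3 1*v 4 1)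
    + ((-131433369/493737992) + (-1063151/51076344)*s)*(v 3 1*v 4 2)
    + ((1281243631/4174330296) + (-5021573/143942424)*s)*(v 3 1*v 5 0)
    + ((-5445251/2782886864) + (9382121/287884848)*s)*(v 3 1*v 5 1)
    + ((65715655/246868996) + (177505/8512724)*s)*(v 3 1*v 5 2)
    + ((58182614226707498383568316985040313209131930900016707/834811812921999118072864516104800796883387059760936820) + (-4665099140624795624145215741026638647537246717203169881/66784945033759929445829161288384063750670964780874945600)*s)*(v 3 2*v 3 2)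
    + ((717115970007050285156316991967010419392136688884806005827/2697504643499957877525626941857185411311191786558430757280) + (-12412760498642835432294361850311755512402033395018853/1138379744893635161008451612870182904840982354219459300)*s)*(v 3 2*v 4 0)
    + ((40353820111351642278959/135474373658535093431920) + (-1046648475282588963931/24781897620463736603400)*s)*(v 3 2*v 4 1)
    + ((-1874723429/21349911792) + (1665984253/21349911792)*s)*(v 3 2*v 4 2)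
    + ((722133838858642791484009897639986594748852858914629212837/2697504643499957877525626941857185411311191786558430757280) + (-57462256534432067873686798696701818021210351424578327/4553518979574540644033806451480731619363929416877837200)*s)*(v 3 2*v 5 0)
    + ((-2160945270714473467/7214526235942863640) + (114963677694733/2362836103474737)*s)*(v 3 2*v 5 1)
    + ((-616582599/7116637264) + (2732321/36247728)*s)*(v 3 2*v 5 2)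
    + ((168690075169674030168681705199999675401221263747266127015123609/1582021733301281296179719586352634671284142514213642236806545280) + (-269842094054878884129198418153054227361958411562625756548517777/7910108666506406480898597931763173356420712571068211184032726400)*s)*(v 4 0*v 4 0)
    + ((-173190556888589573076402305/754169231620938980188561824) + (8203012164260272362987653/91971857514748656120556320)*s)*(v 4 0*v 4 1)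
    + ((-10404788087/14690680213968) + (902616293/1632297801552)*s)*(v 4 0*v 4 2)
    + ((1844877241425191395882241352409787053923275081330023599196311299971/3487566911062674617428191828114383132845892172583974311040029069760) + (190052037923990441279163686373709962622350182685625741722012313/3955054333253203240449298965881586678210356285534105592016363200)*s)*(v 4 0*v 5 0)
    + ((-374681649556158795195871/622516939510307497759224) + (-148788974514600100139/2718414583014443221656)*s)*(v 4 0*v 5 1)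
    + ((2448875945/14690680213968) + (-747204539/1632297801552)*s)*(v 4 0*v 5 2)
    + ((478104718589942289140471603/1425563791478604169868622960) + (182541072753256052125436843/3563909478696510424671557400)*s)*(v 4 1*v 4 1)
    + ((-437892193/918167513373) + (66650104/306055837791)*s)*(v 4 1*v 4 2)
    + ((14117155556775920092418066627/23379246180249108385845416544) + (108788866530572804569516789/2851127582957208339737245920)*s)*(v 4 1*v 5 0)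
    + ((726496617989152010082157/6225169395103074977592240) + (-216616273475331164407/5436829166028886443312)*s)*(v 4 1*v 5 1)
    + ((-317546990/918167513373) + (5207459/306055837791)*s)*(v 4 1*v 5 2)
    + ((41959972392319/263659050155952) + (6878032689811/87886350051984)*s)*(v 4 2*v 4 2)
    + ((10404788087/14690680213968) + (-902616293/1632297801552)*s)*(v 4 2*v 5 0)
    + ((-437892193/918167513373) + (66650104/306055837791)*s)*(v 4 2*v 5 1)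
    + ((20335641592207/65914762538988) + (-28311543313/10985793756498)*s)*(v 4 2*v 5 2)
    + ((2843692258022707114371713250914190802600143808307764803971591734964689/30753365021750664776481795540312630465435077177845485474750976337143680) + (-5607189666854050960069896623175703874413046780370102335508709298777497/153766825108753323882408977701563152327175385889227427373754881685718400)*s)*(v 5 0*v 5 0)
    + ((4753417246719656642533/20081191597106693476104) + (-7801396230922462747/87690793000465910376)*s)*(v 5 0*v 5 1)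
    + ((-2448875945/14690680213968) + (747204539/1632297801552)*s)*(v 5 0*v 5 2)
    + ((3593145363355494322037/10873658332057772886624) + (564648241871061726185/10873658332057772886624)*s)*(v 5 1*v 5 1)
    + ((-317546990/918167513373) + (5207459/306055837791)*s)*(v 5 1*v 5 2)
    + ((41207943134647/263659050155952) + (6884068856299/87886350051984)*s)*(v 5 2*v 5 2)) * hs

end Pool.Agent.IcoLocal
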