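import Pool.Agent.Lib_helper76.IcoVol

/-!
The equality case of the isoperimetric inequality for centrally symmetric icosahedra, in the
linear coordinates `N`, `Y`.
-/

open Matrix

namespace Pool.Agent.IcoLocal

open Pool.Agent.Lib_helper76.Ico

lemma Y_det_zero {r : ℝ} (hr : r ^ 2 = 5) {N Y : Matrix (Fin 3) (Fin 3) ℝ}
    {p q : Fin 3 → Fin 3 → ℝ} (h : Rep r N Y p q) {θ : ℝ} (hθ0 : 0 < θ) (hθ : θ < 146 / 1000)
    (hN : 0 < N.det) (heq : al p q ^ 3 ≤ (N.det + θ * Y.det) ^ 2) : Y.det = 0 := by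
  rcases lt_trichotomy Y.det 0 with h0 | h0 | h0
  · exfalso
    have hw := weak' hr h
    have hwY := weak' (r := -r) (by rw [neg_sq]; exact hr) h.dual
    rcases le_total 0 (N.det + θ * Y.det) with h1 | h1
    · have h2 : N.det + θ * Y.det < N.det := by nlinarith
      have h3 : (N.det + θ * Y.det) ^ 2 < N.det ^ 2 := by
        exact pow_lt_pow_left₀ h2 h1 (by norm_num)
      linarith
    · have h2 : -(N.det + θ * Y.det) < -Y.det := by nlinarith
      have h3 : (-(N.det + θ * Y.det)) ^ 2 < (-Y.det) ^ 2 := by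
        exact pow_lt_pow_left₀ h2 (by linarith) (by norm_num)
      rw [neg_sq, neg_sq] at h3
      linarith
  · exact h0
  · exfalso
    have h1 := strong' hr h hN h0 (θ := 146 / 1000) (by norm_num) le_rfl
    have h2 : (N.det + θ * Y.det) ^ 4 < (N.det + 146 / 1000 * Y.det) ^ 4 := by
      refine pow_lt_pow_left₀ ?_ (by positivity) (by norm_num)
      nlinarith
    have hal := al_nonneg p q
    have h3 : (al p q ^ 3) ^ 2 ≤ ((N.det + θ * Y.det) ^ 2) ^ 2 :=
      pow_le_pow_left₀ (by positivity) heq 2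
    have h4 : (al p q ^ 3) ^ 2 = al p q ^ 6 := by ring
    have h5 : ((N.det + θ * Y.det) ^ 2) ^ 2 = (N.det + θ * Y.det) ^ 4 := by ring
    rw [h4, h5] at h3
    linarith

/-- Equality in the arithmetic geometric mean inequality for three products. -/
lemma eq_of_amgm {a b c : ℝ} (ha : 0 < a) (hb : 0 < b) (hc : 0 < c)
    (h : (a * b + b * c + c * a) ^ 3 ≤ 27 * (a * b * c) ^ 2) : a = b ∧ b = c := by
  have hx : 0 < a * b := mul_pos ha hb
  have hy : 0 < b * c := mul_pos hb hc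
  have hz : 0 < c * a := mul_pos hc ha
  obtain ⟨x, hx'⟩ : ∃ x, x = a * b := ⟨_, rfl⟩
  obtain ⟨y, hy'⟩ : ∃ y, y = b * c := ⟨_, rfl⟩
  obtain ⟨z, hz'⟩ : ∃ z, z = c * a := ⟨_, rfl⟩
  have e : (a * b * c) ^ 2 = x * y * z := by rw [hx', hy', hz']; ring
  rw [e, ← hx', ← hy', ← hz'] at h
  rw [← hx'] at hx
  rw [← hy'] at hy
  rw [← hz'] at hz
  have key : (x + y + z) ^ 3 - 27 * (x * y * z)
      = (x + y + z) * ((x - y) ^ 2 + (y - z) ^ 2 + (z - x) ^ 2) / 2
        + 3 * (x * (y - z) ^ 2 + y * (z - x) ^ 2 + z * (x - y) ^ 2) := by ring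
  have h1 : x * (y - z) ^ 2 + y * (z - x) ^ 2 + z * (x - y) ^ 2 ≤ 0 := by
    have : 0 ≤ (x + y + z) * ((x - y) ^ 2 + (y - z) ^ 2 + (z - x) ^ 2) / 2 := by positivity
    linarith
  have h2 : (y - z) ^ 2 = 0 := by
    have a1 : 0 ≤ x * (y - z) ^ 2 := by positivity
    have a2 : 0 ≤ y * (z - x) ^ 2 := by positivity
    have a3 : 0 ≤ z * (x - y) ^ 2 := by positivity
    have a4 : x * (y - z) ^ 2 = 0 := by linarith
    rcases mul_eq_zero.mp a4 with h | h
    · exact absurd h hx.ne'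
    · exact h
  have h3 : (z - x) ^ 2 = 0 := by
    have a1 : 0 ≤ x * (y - z) ^ 2 := by positivity
    have a2 : 0 ≤ y * (z - x) ^ 2 := by positivity
    have a3 : 0 ≤ z * (x - y) ^ 2 := by positivity
    have a4 : y * (z - x) ^ 2 = 0 := by linarith
    rcases mul_eq_zero.mp a4 with h | h
    · exact absurd h hy.ne'
    · exact h
  have h4 : y = z := by
    have := pow_eq_zero_iff (two_ne_zero) |>.mp h2
    linarith
  have h5 : z = x := by
    have := pow_eq_zero_iff (two_ne_zero) |>.mp h3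
    linarith
  constructor
  · have : c * b = c * a := by rw [← hz', ← h4, hy']; ring
    exact (mul_left_cancel₀ hc.ne' this).symm
  · have : a * b = a * c := by rw [← hx', ← h5, hz']; ring
    exact mul_left_cancel₀ ha.ne' this

/-- A matrix orthogonal to all rotations is zero. -/
lemma zero_of_ip {M : Matrix (Fin 3) (Fin 3) ℝ}
    (h : ∀ R : Matrix (Fin 3) (Fin 3) ℝ, Rᵀ * R = 1 → ip M R = 0) : M = 0 := by
  have o : ∀ R : Matrix (Fin 3) (Fin 3) ℝ, Rᵀ * R = 1 →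
      M 0 0 * R 0 0 + M 0 1 * R 0 1 + M 0 2 * R 0 2 + (M 1 0 * R 1 0 + M 1 1 * R 1 1 + M 1 2 * R 1 2)
        + (M 2 0 * R 2 0 + M 2 1 * R 2 1 + M 2 2 * R 2 2) = 0 := by
    intro R hR
    have := h R hR
    simpa only [ip, Fin.sum_univ_three] using this
  have t : ∀ a b c : ℝ, a ^ 2 = 1 → b ^ 2 = 1 → c ^ 2 = 1 →
      (M 0 0 * a + M 1 1 * b + M 2 2 * c = 0) ∧ (M 0 1 * a + M 1 2 * b + M 2 0 * c = 0) ∧
        (M 0 2 * a + M 1 0 * b + M 2 1 * c = 0) := by
    intro a b c ha hb hc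
    refine ⟨?_, ?_, ?_⟩
    · have := o !![a, 0, 0; 0, b, 0; 0, 0, c] (by
        ext i j
        fin_cases i <;> fin_cases j <;>
          simp [Matrix.mul_apply, Fin.sum_univ_three] <;> nlinarith)
      simp at this
      linarith
    · have := o !![0, a, 0; 0, 0, b; c, 0, 0] (by
        ext i j
        fin_cases i <;> fin_cases j <;>
          simp [Matrix.mul_apply, Fin.sum_univ_three] <;> nlinarith)
      simp at this
      linarith
    · have := o !![0, 0, a; b, 0, 0; 0, c, 0] (by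
        ext i j
        fin_cases i <;> fin_cases j <;>
          simp [Matrix.mul_apply, Fin.sum_univ_three] <;> nlinarith)
      simp at this
      linarith
  obtain ⟨a1, a2, a3⟩ := t 1 1 1 (by norm_num) (by norm_num) (by norm_num)
  obtain ⟨b1, b2, b3⟩ := t 1 (-1) (-1) (by norm_num) (by norm_num) (by norm_num)
  obtain ⟨c1, c2, c3⟩ := t (-1) 1 (-1) (by norm_num) (by norm_num) (by norm_num)
  ext i j
  fin_cases i <;> fin_cases j <;> simp <;> linarith

/-- A symmetric matrix with trace `3 c` and square of trace `3 c ^ 2` is `c`. -/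
lemma eq_scalar {K : Matrix (Fin 3) (Fin 3) ℝ} {c : ℝ} (hK : Kᵀ = K) (h1 : K.trace = 3 * c)
    (h2 : (K * K).trace = 3 * c ^ 2) : K = c • (1 : Matrix (Fin 3) (Fin 3) ℝ) := by
  have h10 : K 1 0 = K 0 1 := by
    have := congrFun (congrFun hK 0) 1
    rwa [Matrix.transpose_apply] at this
  have h20 : K 2 0 = K 0 2 := by
    have := congrFun (congrFun hK 0) 2
    rwa [Matrix.transpose_apply] at this
  have h21 : K 2 1 = K 1 2 := by
    have := congrFun (congrFun hK 1) 2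
    rwa [Matrix.transpose_apply] at this
  have e1 : K 0 0 + K 1 1 + K 2 2 = 3 * c := by
    simpa [Matrix.trace, Fin.sum_univ_three] using h1
  have e2 : (K 0 0 - c) ^ 2 + (K 1 1 - c) ^ 2 + (K 2 2 - c) ^ 2
      + 2 * (K 0 1 ^ 2 + K 0 2 ^ 2 + K 1 2 ^ 2) = 0 := by
    have h3 : (K * K).trace = K 0 0 ^ 2 + K 1 1 ^ 2 + K 2 2 ^ 2
        + 2 * (K 0 1 ^ 2 + K 0 2 ^ 2 + K 1 2 ^ 2) := by
      simp only [Matrix.trace, Matrix.diag, Matrix.mul_apply, Fin.sum_univ_three, h10, h20, h21]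
      ring
    rw [h3] at h2
    linear_combination h2 - 2 * c * e1
  have z1 : K 0 0 - c = 0 := by
    refine pow_eq_zero_iff (two_ne_zero) |>.mp ?_
    nlinarith [sq_nonneg (K 0 0 - c), sq_nonneg (K 1 1 - c), sq_nonneg (K 2 2 - c),
      sq_nonneg (K 0 1), sq_nonneg (K 0 2), sq_nonneg (K 1 2)]
  have z2 : K 1 1 - c = 0 := by
    refine pow_eq_zero_iff (two_ne_zero) |>.mp ?_
    nlinarith [sq_nonneg (K 0 0 - c), sq_nonneg (K 1 1 - c), sq_nonneg (K 2 2 - c),
      sq_nonneg (K 0 1), sq_nonneg (K 0 2), sq_nonneg (K 1 2)]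
  have z3 : K 2 2 - c = 0 := by
    refine pow_eq_zero_iff (two_ne_zero) |>.mp ?_
    nlinarith [sq_nonneg (K 0 0 - c), sq_nonneg (K 1 1 - c), sq_nonneg (K 2 2 - c),
      sq_nonneg (K 0 1), sq_nonneg (K 0 2), sq_nonneg (K 1 2)]
  have z4 : K 0 1 = 0 := by
    refine pow_eq_zero_iff (two_ne_zero) |>.mp ?_
    nlinarith [sq_nonneg (K 0 0 - c), sq_nonneg (K 1 1 - c), sq_nonneg (K 2 2 - c),
      sq_nonneg (K 0 1), sq_nonneg (K 0 2), sq_nonneg (K 1 2)]
  have z5 : K 0 2 = 0 := by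
    refine pow_eq_zero_iff (two_ne_zero) |>.mp ?_
    nlinarith [sq_nonneg (K 0 0 - c), sq_nonneg (K 1 1 - c), sq_nonneg (K 2 2 - c),
      sq_nonneg (K 0 1), sq_nonneg (K 0 2), sq_nonneg (K 1 2)]
  have z6 : K 1 2 = 0 := by
    refine pow_eq_zero_iff (two_ne_zero) |>.mp ?_
    nlinarith [sq_nonneg (K 0 0 - c), sq_nonneg (K 1 1 - c), sq_nonneg (K 2 2 - c),
      sq_nonneg (K 0 1), sq_nonneg (K 0 2), sq_nonneg (K 1 2)]
  ext i j
  fin_cases i <;> fin_cases j <;> simp [h10, h20, h21, z4, z5, z6] <;> linarith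

/-- The second coordinate vanishes if the first one is `c` times the identity and the area is
the least possible one. -/
lemma Y_zero_gauge {r : ℝ} (hr : r ^ 2 = 5) {Y : Matrix (Fin 3) (Fin 3) ℝ}
    {p q : Fin 3 → Fin 3 → ℝ} {c : ℝ} (hc : 0 < c)
    (h : Rep r (c • (1 : Matrix (Fin 3) (Fin 3) ℝ)) Y p q) (hY : Y.det = 0)
    (hal : al p q = c ^ 2) : Y = 0 := by
  obtain ⟨K, hK⟩ : ∃ K, K = c • (1 : Matrix (Fin 3) (Fin 3) ℝ) := ⟨_, rfl⟩
  rw [← hK] at h
  have k00 : K 0 0 = c := by rw [hK]; simp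
  have k11 : K 1 1 = c := by rw [hK]; simp
  have k22 : K 2 2 = c := by rw [hK]; simp
  have k01 : K 0 1 = 0 := by rw [hK]; simp
  have k02 : K 0 2 = 0 := by rw [hK]; simp
  have k12 : K 1 2 = 0 := by rw [hK]; simp
  have k10 : K 1 0 = 0 := by rw [hK]; simp
  have k20 : K 2 0 = 0 := by rw [hK]; simp
  have k21 : K 2 1 = 0 := by rw [hK]; simp
  have h10 : K 1 0 = K 0 1 := by rw [k10, k01]
  have h20 : K 2 0 = K 0 2 := by rw [k20, k02]
  have h21 : K 2 1 = K 1 2 := by rw [k21, k12]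
  have hcof : cof K 0 0 + cof K 1 1 + cof K 2 2 = 3 * c ^ 2 := by
    simp [cof, k00, k11, k22, k01, k02, k12, k10, k20, k21]
    ring
  have hM : c • Y + cof Y = 0 := by
    apply zero_of_ip
    intro R hR
    have hRR : ip R R = 3 := by
      rw [ip_eq_trace, orth_comm hR]
      simp [Matrix.trace_one]
    obtain ⟨E, hE⟩ : ∃ E, E = 10 * ip (cof K) (Wm r R) + 30 * ip Y (Psi r K R)
        + 10 / 3 * ip (cof Y) R := ⟨_, rfl⟩
    have hb : ∀ g s : ℝ, g ^ 2 + s ^ 2 ≤ 1 → g * (30 * c ^ 2) + s * E ≤ 30 * c ^ 2 := by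
      intro g s hgs
      have h1 := field_bound (R := R) hr h10 h20 h21 h.1 h.2 hR hgs
      rw [hcof, ← hE] at h1
      have h2 : Real.sqrt 3 * Ssum p q = 30 * c ^ 2 := by
        rw [← hal]; unfold al; ring
      rw [h2] at h1
      linarith
    have hE0 : E = 0 := by
      have h0 : 0 < (30 * c ^ 2) ^ 2 + E ^ 2 := by positivity
      obtain ⟨d, hd⟩ : ∃ d, d = Real.sqrt ((30 * c ^ 2) ^ 2 + E ^ 2) := ⟨_, rfl⟩
      have hd0 : 0 < d := by rw [hd]; exact Real.sqrt_pos.mpr h0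
      have hd2 : d ^ 2 = (30 * c ^ 2) ^ 2 + E ^ 2 := by rw [hd]; exact Real.sq_sqrt h0.le
      have h1 := hb (30 * c ^ 2 / d) (E / d) (by
        rw [div_pow, div_pow, ← add_div, hd2, div_self h0.ne'])
      have e : 30 * c ^ 2 / d * (30 * c ^ 2) + E / d * E = d := by
        field_simp
        linarith
      rw [e] at h1
      have h2 : d ^ 2 ≤ (30 * c ^ 2) ^ 2 := pow_le_pow_left₀ hd0.le h1 2
      have h3 : E ^ 2 = 0 := by nlinarith [sq_nonneg E]
      exact pow_eq_zero_iff (two_ne_zero) |>.mp h3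
    have hl := loss hr (Y := Y) (R := R) h10 h20 h21 hRR (k := c) (t := c ^ 2)
      (by rw [k00, k11, k22]; ring) hcof.symm
    have hKK : ip K K - 3 * c ^ 2 = 0 := by
      simp only [ip, Fin.sum_univ_three, k00, k11, k22, k01, k02, k12, k10, k20, k21]
      ring
    have hCC : ip (cof K) (cof K) - 3 * (c ^ 2) ^ 2 = 0 := by
      simp [ip, cof, Fin.sum_univ_three, k00, k11, k22, k01, k02, k12, k10, k20, k21]
      ring
    rw [hKK, hCC] at hl
    have hl2 : ((10 * ip (cof K) (Wm r R) + 30 * ip Y (Psi r K R)) / 30 - c / 9 * ip Y R) ^ 2 = 0 := by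
      refine le_antisymm ?_ (sq_nonneg _)
      simpa using hl
    have hl3 := pow_eq_zero_iff (two_ne_zero) |>.mp hl2
    have hip : ip (c • Y + cof Y) R = c * ip Y R + ip (cof Y) R := by
      simp only [ip, Fin.sum_univ_three, Matrix.add_apply, Matrix.smul_apply, smul_eq_mul]
      ring
    rw [hip]
    rw [hE] at hE0
    linarith
  have hcof2 : cof Y = -(c • Y) := by
    rw [eq_neg_iff_add_eq_zero, add_comm]
    exact hM
  have hYY : Y * Yᵀ = 0 := by
    have h1 := mul_cof Y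
    rw [hY, zero_smul, hcof2, Matrix.transpose_neg, Matrix.transpose_smul, Matrix.mul_neg,
      Matrix.mul_smul, neg_eq_zero] at h1
    rcases smul_eq_zero.mp h1 with h2 | h2
    · exact absurd h2 hc.ne'
    · exact h2
  ext i j
  have h1 := congrFun (congrFun hYY i) i
  rw [Matrix.mul_apply] at h1
  simp only [Matrix.transpose_apply, Matrix.zero_apply] at h1
  have h2 : ∑ k, Y i k * Y i k = 0 := h1
  have h3 := (Finset.sum_eq_zero_iff_of_nonneg (fun k _ => mul_self_nonneg (Y i k))).mp h2 j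
    (Finset.mem_univ j)
  exact mul_self_eq_zero.mp h3

/-- The equality case in the linear coordinates. -/
theorem eq_case {r : ℝ} (hr : r ^ 2 = 5) {N Y : Matrix (Fin 3) (Fin 3) ℝ}
    {p q : Fin 3 → Fin 3 → ℝ} (h : Rep r N Y p q) {θ : ℝ} (hθ0 : 0 < θ) (hθ : θ < 146 / 1000)
    (hN : 0 < N.det) (heq : al p q ^ 3 ≤ (N.det + θ * Y.det) ^ 2) :
    Y = 0 ∧ ∃ (c : ℝ) (Q : Matrix (Fin 3) (Fin 3) ℝ), 0 < c ∧ Qᵀ * Q = 1 ∧ Q.det = 1 ∧
      N = c • Q := by
  have hY := Y_det_zero hr h hθ0 hθ hN heq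
  rw [hY, mul_zero, add_zero] at heq
  obtain ⟨Q, K, s, hQ, hQdet, hKt, hNQ, hs, hKtr, hKtr2, hKdet⟩ := polar N hN
  have hQ' := orth_comm hQ
  have hg := h.gauge Qᵀ
  have hQN : Qᵀ * N = K := by rw [hNQ, ← Matrix.mul_assoc, hQ, Matrix.one_mul]
  rw [hQN] at hg
  have hal := al_gauge (Q := Qᵀ) (by rw [Matrix.transpose_transpose]; exact hQ') p q
  have h10 : K 1 0 = K 0 1 := by
    have := congrFun (congrFun hKt 0) 1
    rwa [Matrix.transpose_apply] at this
  have h20 : K 2 0 = K 0 2 := by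
    have := congrFun (congrFun hKt 0) 2
    rwa [Matrix.transpose_apply] at this
  have h21 : K 2 1 = K 1 2 := by
    have := congrFun (congrFun hKt 1) 2
    rwa [Matrix.transpose_apply] at this
  have hb := field_bound (R := 1) hr h10 h20 h21 hg.1 hg.2 (by simp) (c := 1) (s := 0) (by norm_num)
  have hb2 : (cof K).trace ≤ 3 * al p q := by
    rw [← hal]
    unfold al
    have e : (cof K).trace = cof K 0 0 + cof K 1 1 + cof K 2 2 := by
      simp [Matrix.trace, Fin.sum_univ_three]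
    rw [e]
    linarith
  have hdet : N.det = s 0 * s 1 * s 2 := by
    rw [hNQ, Matrix.det_mul, hQdet, hKdet, one_mul, Fin.prod_univ_three]
  have htr : (cof K).trace = s 0 * s 1 + s 1 * s 2 + s 2 * s 0 := by
    have h := trace_cof K
    rw [hKtr, hKtr2, Fin.sum_univ_three, Fin.sum_univ_three] at h
    linarith
  have hpos : 0 ≤ (cof K).trace := by
    rw [htr]
    have := mul_pos (hs 0) (hs 1)
    have := mul_pos (hs 1) (hs 2)
    have := mul_pos (hs 2) (hs 0)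
    linarith
  have h3 : (cof K).trace ^ 3 ≤ (3 * al p q) ^ 3 := pow_le_pow_left₀ hpos hb2 3
  have h4 : (s 0 * s 1 + s 1 * s 2 + s 2 * s 0) ^ 3 ≤ 27 * (s 0 * s 1 * s 2) ^ 2 := by
    rw [← htr, ← hdet]
    calc (cof K).trace ^ 3 ≤ (3 * al p q) ^ 3 := h3
      _ = 27 * al p q ^ 3 := by ring
      _ ≤ 27 * N.det ^ 2 := by linarith
  obtain ⟨e1, e2⟩ := eq_of_amgm (hs 0) (hs 1) (hs 2) h4
  obtain ⟨c, hc⟩ : ∃ c, c = s 0 := ⟨_, rfl⟩
  have s0 : s 0 = c := hc.symm
  have s1 : s 1 = c := by rw [← e1]; exact s0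
  have s2 : s 2 = c := by rw [← e2]; exact s1
  have hc0 : 0 < c := by rw [hc]; exact hs 0
  have hKc : K = c • (1 : Matrix (Fin 3) (Fin 3) ℝ) := by
    refine eq_scalar hKt ?_ ?_
    · rw [hKtr, Fin.sum_univ_three, s0, s1, s2]; ring
    · rw [hKtr2, Fin.sum_univ_three, s0, s1, s2]; ring
  have hal2 : al p q = c ^ 2 := by
    have a1 : c ^ 2 ≤ al p q := by
      rw [htr, s0, s1, s2] at hb2
      linarith
    have a2 : al p q ^ 3 ≤ (c ^ 2) ^ 3 := by
      rw [hdet, s0, s1, s2] at heq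
      calc al p q ^ 3 ≤ (c * c * c) ^ 2 := heq
        _ = (c ^ 2) ^ 3 := by ring
    have a3 : al p q ≤ c ^ 2 := (pow_le_pow_iff_left₀ (al_nonneg p q) (by positivity)
      (by norm_num)).mp a2
    exact le_antisymm a3 a1
  have hQYdet : (Qᵀ * Y).det = 0 := by
    rw [Matrix.det_mul, hY, mul_zero]
  have hY0 := Y_zero_gauge hr (Y := Qᵀ * Y) hc0 (by rw [← hKc]; exact hg) hQYdet
    (by rw [hal, hal2])
  have hY1 : Y = 0 := by
    calc Y = (Q * Qᵀ) * Y := by rw [hQ', Matrix.one_mul]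
      _ = Q * (Qᵀ * Y) := by rw [Matrix.mul_assoc]
      _ = 0 := by rw [hY0, Matrix.mul_zero]
  refine ⟨hY1, c, Q, hc0, hQ, hQdet, ?_⟩
  rw [hNQ, hKc, Matrix.mul_smul, Matrix.mul_one]

end Pool.Agent.IcoLocal
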