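import Pool.Agent.IcoLocal.SecDef

/-!
# Local minimality of the regular icosahedron: the second variation
Generated: the faces 0 to 4.
-/

open Matrix

namespace Pool.Agent.IcoLocal

open Pool.Agent.Lib_helper76.Ico
open Pool.Agent.Results.MP_fa01f0_gt.CentrallySymmetric

lemma CX0 (s : ℝ) (hs : s ^ 2 = 5) (v : V) (hv : ∀ i, v (i + 6) = v i) :
    P (X s) 0 ⨯₃ Q (X s) v 0 = ![((-1/4)+(1/4)*s)*v 0 0 + ((-1/4)+(1/4)*s)*v 0 1 + ((-1/4)+(1/4)*s)*v 0 2 + ((-1/4)+(-1/4)*s)*v 2 0 + ((-1/4)+(-1/4)*s)*v 2 1 + ((-1/4)+(-1/4)*s)*v 2 2 + (1/2)*v 4 0 + (1/2)*v 4 1 + (1/2)*v 4 2,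
      (1/2)*v 0 0 + (1/2)*v 0 1 + (1/2)*v 0 2 + ((-1/4)+(1/4)*s)*v 2 0 + ((-1/4)+(1/4)*s)*v 2 1 + ((-1/4)+(1/4)*s)*v 2 2 + ((-1/4)+(-1/4)*s)*v 4 0 + ((-1/4)+(-1/4)*s)*v 4 1 + ((-1/4)+(-1/4)*s)*v 4 2,
      ((-1/4)+(-1/4)*s)*v 0 0 + ((-1/4)+(-1/4)*s)*v 0 1 + ((-1/4)+(-1/4)*s)*v 0 2 + (1/2)*v 2 0 + (1/2)*v 2 1 + (1/2)*v 2 2 + ((-1/4)+(1/4)*s)*v 4 0 + ((-1/4)+(1/4)*s)*v 4 1 + ((-1/4)+(1/4)*s)*v 4 2] := by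
  have e6 : v 6 = v 0 := hv 0
  have e7 : v 7 = v 1 := hv 1
  have e8 : v 8 = v 2 := hv 2
  have e9 : v 9 = v 3 := hv 3
  have e10 : v 10 = v 4 := hv 4
  have e11 : v 11 = v 5 := hv 5
  rw [PX0 s hs]
  ext j
  fin_cases j <;> simp [Q, cross_apply, X, va, vb, vc, tri, e6, e7, e8, e9, e10, e11] <;> ring_nf <;> simp only [hs] <;> ring

lemma CX1 (s : ℝ) (hs : s ^ 2 = 5) (v : V) (hv : ∀ i, v (i + 6) = v i) :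
    P (X s) 1 ⨯₃ Q (X s) v 1 = ![((-1/4)+(1/4)*s)*v 0 0 + ((1/4)+(-1/4)*s)*v 0 1 + ((1/4)+(-1/4)*s)*v 0 2 + ((-1/4)+(-1/4)*s)*v 3 0 + ((1/4)+(1/4)*s)*v 3 1 + ((1/4)+(1/4)*s)*v 3 2 + (1/2)*v 5 0 + (-1/2)*v 5 1 + (-1/2)*v 5 2,
      (-1/2)*v 0 0 + (1/2)*v 0 1 + (1/2)*v 0 2 + ((1/4)+(-1/4)*s)*v 3 0 + ((-1/4)+(1/4)*s)*v 3 1 + ((-1/4)+(1/4)*s)*v 3 2 + ((1/4)+(1/4)*s)*v 5 0 + ((-1/4)+(-1/4)*s)*v 5 1 + ((-1/4)+(-1/4)*s)*v 5 2,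
      ((1/4)+(1/4)*s)*v 0 0 + ((-1/4)+(-1/4)*s)*v 0 1 + ((-1/4)+(-1/4)*s)*v 0 2 + (-1/2)*v 3 0 + (1/2)*v 3 1 + (1/2)*v 3 2 + ((1/4)+(-1/4)*s)*v 5 0 + ((-1/4)+(1/4)*s)*v 5 1 + ((-1/4)+(1/4)*s)*v 5 2] := by
  have e6 : v 6 = v 0 := hv 0
  have e7 : v 7 = v 1 := hv 1
  have e8 : v 8 = v 2 := hv 2
  have e9 : v 9 = v 3 := hv 3
  have e10 : v 10 = v 4 := hv 4
  have e11 : v 11 = v 5 := hv 5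
  rw [PX1 s hs]
  ext j
  fin_cases j <;> simp [Q, cross_apply, X, va, vb, vc, tri, e6, e7, e8, e9, e10, e11] <;> ring_nf <;> simp only [hs] <;> ring

lemma CX2 (s : ℝ) (hs : s ^ 2 = 5) (v : V) (hv : ∀ i, v (i + 6) = v i) :
    P (X s) 2 ⨯₃ Q (X s) v 2 = ![((-1/4)+(1/4)*s)*v 1 0 + ((1/4)+(-1/4)*s)*v 1 1 + ((-1/4)+(1/4)*s)*v 1 2 + ((-1/4)+(-1/4)*s)*v 2 0 + ((1/4)+(1/4)*s)*v 2 1 + ((-1/4)+(-1/4)*s)*v 2 2 + (1/2)*v 5 0 + (-1/2)*v 5 1 + (1/2)*v 5 2,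
      (-1/2)*v 1 0 + (1/2)*v 1 1 + (-1/2)*v 1 2 + ((1/4)+(-1/4)*s)*v 2 0 + ((-1/4)+(1/4)*s)*v 2 1 + ((1/4)+(-1/4)*s)*v 2 2 + ((1/4)+(1/4)*s)*v 5 0 + ((-1/4)+(-1/4)*s)*v 5 1 + ((1/4)+(1/4)*s)*v 5 2,
      ((-1/4)+(-1/4)*s)*v 1 0 + ((1/4)+(1/4)*s)*v 1 1 + ((-1/4)+(-1/4)*s)*v 1 2 + (1/2)*v 2 0 + (-1/2)*v 2 1 + (1/2)*v 2 2 + ((-1/4)+(1/4)*s)*v 5 0 + ((1/4)+(-1/4)*s)*v 5 1 + ((-1/4)+(1/4)*s)*v 5 2] := by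
  have e6 : v 6 = v 0 := hv 0
  have e7 : v 7 = v 1 := hv 1
  have e8 : v 8 = v 2 := hv 2
  have e9 : v 9 = v 3 := hv 3
  have e10 : v 10 = v 4 := hv 4
  have e11 : v 11 = v 5 := hv 5
  rw [PX2 s hs]
  ext j
  fin_cases j <;> simp [Q, cross_apply, X, va, vb, vc, tri, e6, e7, e8, e9, e10, e11] <;> ring_nf <;> simp only [hs] <;> ring

lemma CX3 (s : ℝ) (hs : s ^ 2 = 5) (v : V) (hv : ∀ i, v (i + 6) = v i) :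
    P (X s) 3 ⨯₃ Q (X s) v 3 = ![((-1/4)+(1/4)*s)*v 1 0 + ((-1/4)+(1/4)*s)*v 1 1 + ((1/4)+(-1/4)*s)*v 1 2 + ((-1/4)+(-1/4)*s)*v 3 0 + ((-1/4)+(-1/4)*s)*v 3 1 + ((1/4)+(1/4)*s)*v 3 2 + (1/2)*v 4 0 + (1/2)*v 4 1 + (-1/2)*v 4 2,
      (1/2)*v 1 0 + (1/2)*v 1 1 + (-1/2)*v 1 2 + ((-1/4)+(1/4)*s)*v 3 0 + ((-1/4)+(1/4)*s)*v 3 1 + ((1/4)+(-1/4)*s)*v 3 2 + ((-1/4)+(-1/4)*s)*v 4 0 + ((-1/4)+(-1/4)*s)*v 4 1 + ((1/4)+(1/4)*s)*v 4 2,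
      ((1/4)+(1/4)*s)*v 1 0 + ((1/4)+(1/4)*s)*v 1 1 + ((-1/4)+(-1/4)*s)*v 1 2 + (-1/2)*v 3 0 + (-1/2)*v 3 1 + (1/2)*v 3 2 + ((1/4)+(-1/4)*s)*v 4 0 + ((1/4)+(-1/4)*s)*v 4 1 + ((-1/4)+(1/4)*s)*v 4 2] := by
  have e6 : v 6 = v 0 := hv 0
  have e7 : v 7 = v 1 := hv 1
  have e8 : v 8 = v 2 := hv 2
  have e9 : v 9 = v 3 := hv 3
  have e10 : v 10 = v 4 := hv 4
  have e11 : v 11 = v 5 := hv 5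
  rw [PX3 s hs]
  ext j
  fin_cases j <;> simp [Q, cross_apply, X, va, vb, vc, tri, e6, e7, e8, e9, e10, e11] <;> ring_nf <;> simp only [hs] <;> ring

lemma CX4 (s : ℝ) (hs : s ^ 2 = 5) (v : V) (hv : ∀ i, v (i + 6) = v i) :
    P (X s) 4 ⨯₃ Q (X s) v 4 = ![(-1/2)*v 0 0 + ((-3/4)+(-1/4)*s)*v 0 1 + (1/2)*v 1 0 + ((3/4)+(1/4)*s)*v 1 1,
      ((3/4)+(-1/4)*s)*v 0 0 + (1/2)*v 0 1 + ((-3/4)+(1/4)*s)*v 1 0 + (-1/2)*v 1 1,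
      ((1/4)+(-1/4)*s)*v 0 0 + ((-1/4)+(-1/4)*s)*v 0 1 + ((1/4)+(-1/4)*s)*v 1 0 + ((-1/4)+(-1/4)*s)*v 1 1 + ((-1/2)+(1/2)*s)*v 4 0 + ((1/2)+(1/2)*s)*v 4 1] := by
  have e6 : v 6 = v 0 := hv 0
  have e7 : v 7 = v 1 := hv 1
  have e8 : v 8 = v 2 := hv 2
  have e9 : v 9 = v 3 := hv 3
  have e10 : v 10 = v 4 := hv 4
  have e11 : v 11 = v 5 := hv 5
  rw [PX4 s hs]
  ext j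
  fin_cases j <;> simp [Q, cross_apply, X, va, vb, vc, tri, e6, e7, e8, e9, e10, e11] <;> ring_nf <;> simp only [hs] <;> ring

lemma FX0 (s : ℝ) (hs : s ^ 2 = 5) (v : V) (hv : ∀ i, v (i + 6) = v i) :
    P (X s) 0 ⬝ᵥ P v 0 + nn (P (X s) 0 ⨯₃ Q (X s) v 0) / 6
      = (1/2)*(1*((v 2 1-v 0 1)*(v 4 2-v 0 2)-(v 2 2-v 0 2)*(v 4 1-v 0 1)) + 1*((v 2 2-v 0 2)*(v 4 0-v 0 0)-(v 2 0-v 0 0)*(v 4 2-v 0 2)) + 1*((v 2 0-v 0 0)*(v 4 1-v 0 1)-(v 2 1-v 0 1)*(v 4 0-v 0 0)))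
        + ((((-1/4)+(1/4)*s)*v 0 0 + ((-1/4)+(1/4)*s)*v 0 1 + ((-1/4)+(1/4)*s)*v 0 2 + ((-1/4)+(-1/4)*s)*v 2 0 + ((-1/4)+(-1/4)*s)*v 2 1 + ((-1/4)+(-1/4)*s)*v 2 2 + (1/2)*v 4 0 + (1/2)*v 4 1 + (1/2)*v 4 2)^2
        + ((1/2)*v 0 0 + (1/2)*v 0 1 + (1/2)*v 0 2 + ((-1/4)+(1/4)*s)*v 2 0 + ((-1/4)+(1/4)*s)*v 2 1 + ((-1/4)+(1/4)*s)*v 2 2 + ((-1/4)+(-1/4)*s)*v 4 0 + ((-1/4)+(-1/4)*s)*v 4 1 + ((-1/4)+(-1/4)*s)*v 4 2)^2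
        + (((-1/4)+(-1/4)*s)*v 0 0 + ((-1/4)+(-1/4)*s)*v 0 1 + ((-1/4)+(-1/4)*s)*v 0 2 + (1/2)*v 2 0 + (1/2)*v 2 1 + (1/2)*v 2 2 + ((-1/4)+(1/4)*s)*v 4 0 + ((-1/4)+(1/4)*s)*v 4 1 + ((-1/4)+(1/4)*s)*v 4 2)^2) / 6 := by
  have e6 : v 6 = v 0 := hv 0
  have e7 : v 7 = v 1 := hv 1
  have e8 : v 8 = v 2 := hv 2
  have e9 : v 9 = v 3 := hv 3
  have e10 : v 10 = v 4 := hv 4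
  have e11 : v 11 = v 5 := hv 5
  rw [CX0 s hs v hv, PX0 s hs]
  simp [nn, dotProduct, Fin.sum_univ_three, P, fS, cross_apply, va, vb, vc, tri, e6, e7, e8, e9,
    e10, e11]
  ring

lemma FX1 (s : ℝ) (hs : s ^ 2 = 5) (v : V) (hv : ∀ i, v (i + 6) = v i) :
    P (X s) 1 ⬝ᵥ P v 1 + nn (P (X s) 1 ⨯₃ Q (X s) v 1) / 6
      = (1/2)*(1*((v 3 1-v 0 1)*(v 5 2-v 0 2)-(v 3 2-v 0 2)*(v 5 1-v 0 1)) + (-1)*((v 3 2-v 0 2)*(v 5 0-v 0 0)-(v 3 0-v 0 0)*(v 5 2-v 0 2)) + (-1)*((v 3 0-v 0 0)*(v 5 1-v 0 1)-(v 3 1-v 0 1)*(v 5 0-v 0 0)))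
        + ((((-1/4)+(1/4)*s)*v 0 0 + ((1/4)+(-1/4)*s)*v 0 1 + ((1/4)+(-1/4)*s)*v 0 2 + ((-1/4)+(-1/4)*s)*v 3 0 + ((1/4)+(1/4)*s)*v 3 1 + ((1/4)+(1/4)*s)*v 3 2 + (1/2)*v 5 0 + (-1/2)*v 5 1 + (-1/2)*v 5 2)^2
        + ((-1/2)*v 0 0 + (1/2)*v 0 1 + (1/2)*v 0 2 + ((1/4)+(-1/4)*s)*v 3 0 + ((-1/4)+(1/4)*s)*v 3 1 + ((-1/4)+(1/4)*s)*v 3 2 + ((1/4)+(1/4)*s)*v 5 0 + ((-1/4)+(-1/4)*s)*v 5 1 + ((-1/4)+(-1/4)*s)*v 5 2)^2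
        + (((1/4)+(1/4)*s)*v 0 0 + ((-1/4)+(-1/4)*s)*v 0 1 + ((-1/4)+(-1/4)*s)*v 0 2 + (-1/2)*v 3 0 + (1/2)*v 3 1 + (1/2)*v 3 2 + ((1/4)+(-1/4)*s)*v 5 0 + ((-1/4)+(1/4)*s)*v 5 1 + ((-1/4)+(1/4)*s)*v 5 2)^2) / 6 := by
  have e6 : v 6 = v 0 := hv 0
  have e7 : v 7 = v 1 := hv 1
  have e8 : v 8 = v 2 := hv 2
  have e9 : v 9 = v 3 := hv 3
  have e10 : v 10 = v 4 := hv 4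
  have e11 : v 11 = v 5 := hv 5
  rw [CX1 s hs v hv, PX1 s hs]
  simp [nn, dotProduct, Fin.sum_univ_three, P, fS, cross_apply, va, vb, vc, tri, e6, e7, e8, e9,
    e10, e11]
  ring

lemma FX2 (s : ℝ) (hs : s ^ 2 = 5) (v : V) (hv : ∀ i, v (i + 6) = v i) :
    P (X s) 2 ⬝ᵥ P v 2 + nn (P (X s) 2 ⨯₃ Q (X s) v 2) / 6
      = (1/2)*((-1)*((v 2 1-v 1 1)*(v 5 2-v 1 2)-(v 2 2-v 1 2)*(v 5 1-v 1 1)) + 1*((v 2 2-v 1 2)*(v 5 0-v 1 0)-(v 2 0-v 1 0)*(v 5 2-v 1 2)) + (-1)*((v 2 0-v 1 0)*(v 5 1-v 1 1)-(v 2 1-v 1 1)*(v 5 0-v 1 0)))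
        + ((((-1/4)+(1/4)*s)*v 1 0 + ((1/4)+(-1/4)*s)*v 1 1 + ((-1/4)+(1/4)*s)*v 1 2 + ((-1/4)+(-1/4)*s)*v 2 0 + ((1/4)+(1/4)*s)*v 2 1 + ((-1/4)+(-1/4)*s)*v 2 2 + (1/2)*v 5 0 + (-1/2)*v 5 1 + (1/2)*v 5 2)^2
        + ((-1/2)*v 1 0 + (1/2)*v 1 1 + (-1/2)*v 1 2 + ((1/4)+(-1/4)*s)*v 2 0 + ((-1/4)+(1/4)*s)*v 2 1 + ((1/4)+(-1/4)*s)*v 2 2 + ((1/4)+(1/4)*s)*v 5 0 + ((-1/4)+(-1/4)*s)*v 5 1 + ((1/4)+(1/4)*s)*v 5 2)^2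
        + (((-1/4)+(-1/4)*s)*v 1 0 + ((1/4)+(1/4)*s)*v 1 1 + ((-1/4)+(-1/4)*s)*v 1 2 + (1/2)*v 2 0 + (-1/2)*v 2 1 + (1/2)*v 2 2 + ((-1/4)+(1/4)*s)*v 5 0 + ((1/4)+(-1/4)*s)*v 5 1 + ((-1/4)+(1/4)*s)*v 5 2)^2) / 6 := by
  have e6 : v 6 = v 0 := hv 0
  have e7 : v 7 = v 1 := hv 1
  have e8 : v 8 = v 2 := hv 2
  have e9 : v 9 = v 3 := hv 3
  have e10 : v 10 = v 4 := hv 4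
  have e11 : v 11 = v 5 := hv 5
  rw [CX2 s hs v hv, PX2 s hs]
  simp [nn, dotProduct, Fin.sum_univ_three, P, fS, cross_apply, va, vb, vc, tri, e6, e7, e8, e9,
    e10, e11]
  ring

lemma FX3 (s : ℝ) (hs : s ^ 2 = 5) (v : V) (hv : ∀ i, v (i + 6) = v i) :
    P (X s) 3 ⬝ᵥ P v 3 + nn (P (X s) 3 ⨯₃ Q (X s) v 3) / 6
      = (1/2)*((-1)*((v 3 1-v 1 1)*(v 4 2-v 1 2)-(v 3 2-v 1 2)*(v 4 1-v 1 1)) + (-1)*((v 3 2-v 1 2)*(v 4 0-v 1 0)-(v 3 0-v 1 0)*(v 4 2-v 1 2)) + 1*((v 3 0-v 1 0)*(v 4 1-v 1 1)-(v 3 1-v 1 1)*(v 4 0-v 1 0)))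
        + ((((-1/4)+(1/4)*s)*v 1 0 + ((-1/4)+(1/4)*s)*v 1 1 + ((1/4)+(-1/4)*s)*v 1 2 + ((-1/4)+(-1/4)*s)*v 3 0 + ((-1/4)+(-1/4)*s)*v 3 1 + ((1/4)+(1/4)*s)*v 3 2 + (1/2)*v 4 0 + (1/2)*v 4 1 + (-1/2)*v 4 2)^2
        + ((1/2)*v 1 0 + (1/2)*v 1 1 + (-1/2)*v 1 2 + ((-1/4)+(1/4)*s)*v 3 0 + ((-1/4)+(1/4)*s)*v 3 1 + ((1/4)+(-1/4)*s)*v 3 2 + ((-1/4)+(-1/4)*s)*v 4 0 + ((-1/4)+(-1/4)*s)*v 4 1 + ((1/4)+(1/4)*s)*v 4 2)^2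
        + (((1/4)+(1/4)*s)*v 1 0 + ((1/4)+(1/4)*s)*v 1 1 + ((-1/4)+(-1/4)*s)*v 1 2 + (-1/2)*v 3 0 + (-1/2)*v 3 1 + (1/2)*v 3 2 + ((1/4)+(-1/4)*s)*v 4 0 + ((1/4)+(-1/4)*s)*v 4 1 + ((-1/4)+(1/4)*s)*v 4 2)^2) / 6 := by
  have e6 : v 6 = v 0 := hv 0
  have e7 : v 7 = v 1 := hv 1
  have e8 : v 8 = v 2 := hv 2
  have e9 : v 9 = v 3 := hv 3
  have e10 : v 10 = v 4 := hv 4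
  have e11 : v 11 = v 5 := hv 5
  rw [CX3 s hs v hv, PX3 s hs]
  simp [nn, dotProduct, Fin.sum_univ_three, P, fS, cross_apply, va, vb, vc, tri, e6, e7, e8, e9,
    e10, e11]
  ring

lemma FX4 (s : ℝ) (hs : s ^ 2 = 5) (v : V) (hv : ∀ i, v (i + 6) = v i) :
    P (X s) 4 ⬝ᵥ P v 4 + nn (P (X s) 4 ⨯₃ Q (X s) v 4) / 6
      = (1/2)*(((-1/2)+(1/2)*s)*((v 0 1-v 1 1)*(v 4 2-v 1 2)-(v 0 2-v 1 2)*(v 4 1-v 1 1)) + ((1/2)+(1/2)*s)*((v 0 2-v 1 2)*(v 4 0-v 1 0)-(v 0 0-v 1 0)*(v 4 2-v 1 2)))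
        + (((-1/2)*v 0 0 + ((-3/4)+(-1/4)*s)*v 0 1 + (1/2)*v 1 0 + ((3/4)+(1/4)*s)*v 1 1)^2
        + (((3/4)+(-1/4)*s)*v 0 0 + (1/2)*v 0 1 + ((-3/4)+(1/4)*s)*v 1 0 + (-1/2)*v 1 1)^2
        + (((1/4)+(-1/4)*s)*v 0 0 + ((-1/4)+(-1/4)*s)*v 0 1 + ((1/4)+(-1/4)*s)*v 1 0 + ((-1/4)+(-1/4)*s)*v 1 1 + ((-1/2)+(1/2)*s)*v 4 0 + ((1/2)+(1/2)*s)*v 4 1)^2) / 6 := by
  have e6 : v 6 = v 0 := hv 0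
  have e7 : v 7 = v 1 := hv 1
  have e8 : v 8 = v 2 := hv 2
  have e9 : v 9 = v 3 := hv 3
  have e10 : v 10 = v 4 := hv 4
  have e11 : v 11 = v 5 := hv 5
  rw [CX4 s hs v hv, PX4 s hs]
  simp [nn, dotProduct, Fin.sum_univ_three, P, fS, cross_apply, va, vb, vc, tri, e6, e7, e8, e9,
    e10, e11]
  ring

end Pool.Agent.IcoLocal
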