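import Pool.Agent.IcoLocal.Faces

/-!
# Local minimality of the regular icosahedron: the second variation
The regular icosahedron and its face vectors.
-/

open Matrix

namespace Pool.Agent.IcoLocal

open Pool.Agent.Lib_helper76.Ico
open Pool.Agent.Results.MP_fa01f0_gt.CentrallySymmetric

/-- The regular icosahedron, in terms of `s = √5`. -/
noncomputable def X (s : ℝ) : V :=
  ![![0, ((1/2)+(1/2)*s), 1],
    ![0, ((1/2)+(1/2)*s), (-1)],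
    ![1, 0, ((1/2)+(1/2)*s)],
    ![(-1), 0, ((1/2)+(1/2)*s)],
    ![((1/2)+(1/2)*s), 1, 0],
    ![((1/2)+(1/2)*s), (-1), 0],
    ![0, ((-1/2)+(-1/2)*s), (-1)],
    ![0, ((-1/2)+(-1/2)*s), 1],
    ![(-1), 0, ((-1/2)+(-1/2)*s)],
    ![1, 0, ((-1/2)+(-1/2)*s)],
    ![((-1/2)+(-1/2)*s), (-1), 0],
    ![((-1/2)+(-1/2)*s), 1, 0]]

lemma PX0 (s : ℝ) (hs : s ^ 2 = 5) : P (X s) 0 = ![1, 1, 1] := by
  ext j
  fin_cases j <;> simp [P, fS, cross_apply, X, va, vb, vc, tri] <;> nlinarith [hs]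

lemma PX1 (s : ℝ) (hs : s ^ 2 = 5) : P (X s) 1 = ![1, (-1), (-1)] := by
  ext j
  fin_cases j <;> simp [P, fS, cross_apply, X, va, vb, vc, tri] <;> nlinarith [hs]

lemma PX2 (s : ℝ) (hs : s ^ 2 = 5) : P (X s) 2 = ![(-1), 1, (-1)] := by
  ext j
  fin_cases j <;> simp [P, fS, cross_apply, X, va, vb, vc, tri] <;> nlinarith [hs]

lemma PX3 (s : ℝ) (hs : s ^ 2 = 5) : P (X s) 3 = ![(-1), (-1), 1] := by
  ext j
  fin_cases j <;> simp [P, fS, cross_apply, X, va, vb, vc, tri] <;> nlinarith [hs]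

lemma PX4 (s : ℝ) (hs : s ^ 2 = 5) : P (X s) 4 = ![((-1/2)+(1/2)*s), ((1/2)+(1/2)*s), 0] := by
  ext j
  fin_cases j <;> simp [P, fS, cross_apply, X, va, vb, vc, tri] <;> nlinarith [hs]

lemma PX5 (s : ℝ) (hs : s ^ 2 = 5) : P (X s) 5 = ![((1/2)+(-1/2)*s), ((1/2)+(1/2)*s), 0] := by
  ext j
  fin_cases j <;> simp [P, fS, cross_apply, X, va, vb, vc, tri] <;> nlinarith [hs]

lemma PX6 (s : ℝ) (hs : s ^ 2 = 5) : P (X s) 6 = ![0, ((-1/2)+(1/2)*s), ((1/2)+(1/2)*s)] := by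
  ext j
  fin_cases j <;> simp [P, fS, cross_apply, X, va, vb, vc, tri] <;> nlinarith [hs]

lemma PX7 (s : ℝ) (hs : s ^ 2 = 5) : P (X s) 7 = ![0, ((1/2)+(-1/2)*s), ((1/2)+(1/2)*s)] := by
  ext j
  fin_cases j <;> simp [P, fS, cross_apply, X, va, vb, vc, tri] <;> nlinarith [hs]

lemma PX8 (s : ℝ) (hs : s ^ 2 = 5) : P (X s) 8 = ![((1/2)+(1/2)*s), 0, ((-1/2)+(1/2)*s)] := by
  ext j
  fin_cases j <;> simp [P, fS, cross_apply, X, va, vb, vc, tri] <;> nlinarith [hs]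

lemma PX9 (s : ℝ) (hs : s ^ 2 = 5) : P (X s) 9 = ![((1/2)+(1/2)*s), 0, ((1/2)+(-1/2)*s)] := by
  ext j
  fin_cases j <;> simp [P, fS, cross_apply, X, va, vb, vc, tri] <;> nlinarith [hs]

end Pool.Agent.IcoLocal
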