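import Pool.Agent.IcoLocal.SecDef

/-!
# Local minimality of the regular icosahedron: the second variation
Generated: the volume term.
-/

open Matrix

namespace Pool.Agent.IcoLocal

open Pool.Agent.Lib_helper76.Ico
open Pool.Agent.Results.MP_fa01f0_gt.CentrallySymmetric

lemma sum10 (F : Fin 10 → ℝ) :
    ∑ f, F f = F 0 + F 1 + F 2 + F 3 + F 4 + F 5 + F 6 + F 7 + F 8 + F 9 := by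
  simp only [Fin.sum_univ_castSucc, Fin.sum_univ_zero, zero_add]
  rfl

lemma etaX (s : ℝ) (v : V) (hv : ∀ i, v (i + 6) = v i) :
    eta (X s) v = ((0*(v 2 1*v 4 2-v 2 2*v 4 1)-((1/2)+(1/2)*s)*(v 2 0*v 4 2-v 2 2*v 4 0)+1*(v 2 0*v 4 1-v 2 1*v 4 0)) + (v 0 0*(0*v 4 2-((1/2)+(1/2)*s)*v 4 1)-v 0 1*(1*v 4 2-((1/2)+(1/2)*s)*v 4 0)+v 0 2*(1*v 4 1-0*v 4 0)) + (v 0 0*(v 2 1*0-v 2 2*1)-v 0 1*(v 2 0*0-v 2 2*((1/2)+(1/2)*s))+v 0 2*(v 2 0*1-v 2 1*((1/2)+(1/2)*s))))/3 +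
      ((0*(v 3 1*v 5 2-v 3 2*v 5 1)-((-1/2)+(-1/2)*s)*(v 3 0*v 5 2-v 3 2*v 5 0)+(-1)*(v 3 0*v 5 1-v 3 1*v 5 0)) + (v 0 0*(0*v 5 2-((-1/2)+(-1/2)*s)*v 5 1)-v 0 1*(1*v 5 2-((-1/2)+(-1/2)*s)*v 5 0)+v 0 2*(1*v 5 1-0*v 5 0)) + (v 0 0*(v 3 1*0-v 3 2*(-1))-v 0 1*(v 3 0*0-v 3 2*((1/2)+(1/2)*s))+v 0 2*(v 3 0*(-1)-v 3 1*((1/2)+(1/2)*s))))/3 +
      ((0*(v 2 1*v 5 2-v 2 2*v 5 1)-((1/2)+(1/2)*s)*(v 2 0*v 5 2-v 2 2*v 5 0)+(-1)*(v 2 0*v 5 1-v 2 1*v 5 0)) + (v 1 0*(0*v 5 2-((-1/2)+(-1/2)*s)*v 5 1)-v 1 1*((-1)*v 5 2-((-1/2)+(-1/2)*s)*v 5 0)+v 1 2*((-1)*v 5 1-0*v 5 0)) + (v 1 0*(v 2 1*0-v 2 2*1)-v 1 1*(v 2 0*0-v 2 2*((-1/2)+(-1/2)*s))+v 1 2*(v 2 0*1-v 2 1*((-1/2)+(-1/2)*s))))/3 +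
      ((0*(v 3 1*v 4 2-v 3 2*v 4 1)-((-1/2)+(-1/2)*s)*(v 3 0*v 4 2-v 3 2*v 4 0)+1*(v 3 0*v 4 1-v 3 1*v 4 0)) + (v 1 0*(0*v 4 2-((1/2)+(1/2)*s)*v 4 1)-v 1 1*((-1)*v 4 2-((1/2)+(1/2)*s)*v 4 0)+v 1 2*((-1)*v 4 1-0*v 4 0)) + (v 1 0*(v 3 1*0-v 3 2*(-1))-v 1 1*(v 3 0*0-v 3 2*((-1/2)+(-1/2)*s))+v 1 2*(v 3 0*(-1)-v 3 1*((-1/2)+(-1/2)*s))))/3 +
      ((0*(v 0 1*v 4 2-v 0 2*v 4 1)-((1/2)+(1/2)*s)*(v 0 0*v 4 2-v 0 2*v 4 0)+(-1)*(v 0 0*v 4 1-v 0 1*v 4 0)) + (v 1 0*(((1/2)+(1/2)*s)*v 4 2-1*v 4 1)-v 1 1*(0*v 4 2-1*v 4 0)+v 1 2*(0*v 4 1-((1/2)+(1/2)*s)*v 4 0)) + (v 1 0*(v 0 1*0-v 0 2*1)-v 1 1*(v 0 0*0-v 0 2*((1/2)+(1/2)*s))+v 1 2*(v 0 0*1-v 0 1*((1/2)+(1/2)*s))))/3 +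
      ((0*(v 1 1*v 5 2-v 1 2*v 5 1)-((1/2)+(1/2)*s)*(v 1 0*v 5 2-v 1 2*v 5 0)+1*(v 1 0*v 5 1-v 1 1*v 5 0)) + (v 0 0*(((1/2)+(1/2)*s)*v 5 2-(-1)*v 5 1)-v 0 1*(0*v 5 2-(-1)*v 5 0)+v 0 2*(0*v 5 1-((1/2)+(1/2)*s)*v 5 0)) + (v 0 0*(v 1 1*0-v 1 2*1)-v 0 1*(v 1 0*0-v 1 2*((-1/2)+(-1/2)*s))+v 0 2*(v 1 0*1-v 1 1*((-1/2)+(-1/2)*s))))/3 +
      (((-1)*(v 2 1*v 0 2-v 2 2*v 0 1)-0*(v 2 0*v 0 2-v 2 2*v 0 0)+((1/2)+(1/2)*s)*(v 2 0*v 0 1-v 2 1*v 0 0)) + (v 3 0*(0*v 0 2-((1/2)+(1/2)*s)*v 0 1)-v 3 1*(1*v 0 2-((1/2)+(1/2)*s)*v 0 0)+v 3 2*(1*v 0 1-0*v 0 0)) + (v 3 0*(v 2 1*1-v 2 2*((1/2)+(1/2)*s))-v 3 1*(v 2 0*1-v 2 2*0)+v 3 2*(v 2 0*((1/2)+(1/2)*s)-v 2 1*0)))/3 +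
      ((1*(v 3 1*v 1 2-v 3 2*v 1 1)-0*(v 3 0*v 1 2-v 3 2*v 1 0)+((1/2)+(1/2)*s)*(v 3 0*v 1 1-v 3 1*v 1 0)) + (v 2 0*(0*v 1 2-((1/2)+(1/2)*s)*v 1 1)-v 2 1*((-1)*v 1 2-((1/2)+(1/2)*s)*v 1 0)+v 2 2*((-1)*v 1 1-0*v 1 0)) + (v 2 0*(v 3 1*1-v 3 2*((-1/2)+(-1/2)*s))-v 2 1*(v 3 0*1-v 3 2*0)+v 2 2*(v 3 0*((-1/2)+(-1/2)*s)-v 3 1*0)))/3 +
      ((((1/2)+(1/2)*s)*(v 4 1*v 2 2-v 4 2*v 2 1)-(-1)*(v 4 0*v 2 2-v 4 2*v 2 0)+0*(v 4 0*v 2 1-v 4 1*v 2 0)) + (v 5 0*(1*v 2 2-0*v 2 1)-v 5 1*(((1/2)+(1/2)*s)*v 2 2-0*v 2 0)+v 5 2*(((1/2)+(1/2)*s)*v 2 1-1*v 2 0)) + (v 5 0*(v 4 1*((1/2)+(1/2)*s)-v 4 2*0)-v 5 1*(v 4 0*((1/2)+(1/2)*s)-v 4 2*1)+v 5 2*(v 4 0*0-v 4 1*1)))/3 +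
      ((((1/2)+(1/2)*s)*(v 5 1*v 3 2-v 5 2*v 3 1)-1*(v 5 0*v 3 2-v 5 2*v 3 0)+0*(v 5 0*v 3 1-v 5 1*v 3 0)) + (v 4 0*((-1)*v 3 2-0*v 3 1)-v 4 1*(((1/2)+(1/2)*s)*v 3 2-0*v 3 0)+v 4 2*(((1/2)+(1/2)*s)*v 3 1-(-1)*v 3 0)) + (v 4 0*(v 5 1*((-1/2)+(-1/2)*s)-v 5 2*0)-v 4 1*(v 5 0*((-1/2)+(-1/2)*s)-v 5 2*1)+v 4 2*(v 5 0*0-v 5 1*1)))/3 := by
  have e6 : v 6 = v 0 := hv 0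
  have e7 : v 7 = v 1 := hv 1
  have e8 : v 8 = v 2 := hv 2
  have e9 : v 9 = v 3 := hv 3
  have e10 : v 10 = v 4 := hv 4
  have e11 : v 11 = v 5 := hv 5
  rw [eta, sum10]
  simp [d3, X, va, vb, vc, tri, e6, e7, e8, e9, e10, e11]
  try ring

end Pool.Agent.IcoLocal
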