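import Pool.Agent.IcoLocal.SecondQ

/-!
The quadratic form of the second variation in coordinates.
-/

namespace Pool.Agent.IcoLocal

lemma secA (s : ℝ) (hs : s ^ 2 = 5) (v : Fin 12 → Fin 3 → ℝ) :
    (3 + s) * (((1/2)*(1*((v 2 1-v 0 1)*(v 4 2-v 0 2)-(v 2 2-v 0 2)*(v 4 1-v 0 1)) + 1*((v 2 2-v 0 2)*(v 4 0-v 0 0)-(v 2 0-v 0 0)*(v 4 2-v 0 2)) + 1*((v 2 0-v 0 0)*(v 4 1-v 0 1)-(v 2 1-v 0 1)*(v 4 0-v 0 0)))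
        + ((((-1/4)+(1/4)*s)*v 0 0 + ((-1/4)+(1/4)*s)*v 0 1 + ((-1/4)+(1/4)*s)*v 0 2 + ((-1/4)+(-1/4)*s)*v 2 0 + ((-1/4)+(-1/4)*s)*v 2 1 + ((-1/4)+(-1/4)*s)*v 2 2 + (1/2)*v 4 0 + (1/2)*v 4 1 + (1/2)*v 4 2)^2
        + ((1/2)*v 0 0 + (1/2)*v 0 1 + (1/2)*v 0 2 + ((-1/4)+(1/4)*s)*v 2 0 + ((-1/4)+(1/4)*s)*v 2 1 + ((-1/4)+(1/4)*s)*v 2 2 + ((-1/4)+(-1/4)*s)*v 4 0 + ((-1/4)+(-1/4)*s)*v 4 1 + ((-1/4)+(-1/4)*s)*v 4 2)^2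
        + (((-1/4)+(-1/4)*s)*v 0 0 + ((-1/4)+(-1/4)*s)*v 0 1 + ((-1/4)+(-1/4)*s)*v 0 2 + (1/2)*v 2 0 + (1/2)*v 2 1 + (1/2)*v 2 2 + ((-1/4)+(1/4)*s)*v 4 0 + ((-1/4)+(1/4)*s)*v 4 1 + ((-1/4)+(1/4)*s)*v 4 2)^2) / 6)
    + ((1/2)*(1*((v 3 1-v 0 1)*(v 5 2-v 0 2)-(v 3 2-v 0 2)*(v 5 1-v 0 1)) + (-1)*((v 3 2-v 0 2)*(v 5 0-v 0 0)-(v 3 0-v 0 0)*(v 5 2-v 0 2)) + (-1)*((v 3 0-v 0 0)*(v 5 1-v 0 1)-(v 3 1-v 0 1)*(v 5 0-v 0 0)))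
        + ((((-1/4)+(1/4)*s)*v 0 0 + ((1/4)+(-1/4)*s)*v 0 1 + ((1/4)+(-1/4)*s)*v 0 2 + ((-1/4)+(-1/4)*s)*v 3 0 + ((1/4)+(1/4)*s)*v 3 1 + ((1/4)+(1/4)*s)*v 3 2 + (1/2)*v 5 0 + (-1/2)*v 5 1 + (-1/2)*v 5 2)^2
        + ((-1/2)*v 0 0 + (1/2)*v 0 1 + (1/2)*v 0 2 + ((1/4)+(-1/4)*s)*v 3 0 + ((-1/4)+(1/4)*s)*v 3 1 + ((-1/4)+(1/4)*s)*v 3 2 + ((1/4)+(1/4)*s)*v 5 0 + ((-1/4)+(-1/4)*s)*v 5 1 + ((-1/4)+(-1/4)*s)*v 5 2)^2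
        + (((1/4)+(1/4)*s)*v 0 0 + ((-1/4)+(-1/4)*s)*v 0 1 + ((-1/4)+(-1/4)*s)*v 0 2 + (-1/2)*v 3 0 + (1/2)*v 3 1 + (1/2)*v 3 2 + ((1/4)+(-1/4)*s)*v 5 0 + ((-1/4)+(1/4)*s)*v 5 1 + ((-1/4)+(1/4)*s)*v 5 2)^2) / 6)
    + ((1/2)*((-1)*((v 2 1-v 1 1)*(v 5 2-v 1 2)-(v 2 2-v 1 2)*(v 5 1-v 1 1)) + 1*((v 2 2-v 1 2)*(v 5 0-v 1 0)-(v 2 0-v 1 0)*(v 5 2-v 1 2)) + (-1)*((v 2 0-v 1 0)*(v 5 1-v 1 1)-(v 2 1-v 1 1)*(v 5 0-v 1 0)))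
        + ((((-1/4)+(1/4)*s)*v 1 0 + ((1/4)+(-1/4)*s)*v 1 1 + ((-1/4)+(1/4)*s)*v 1 2 + ((-1/4)+(-1/4)*s)*v 2 0 + ((1/4)+(1/4)*s)*v 2 1 + ((-1/4)+(-1/4)*s)*v 2 2 + (1/2)*v 5 0 + (-1/2)*v 5 1 + (1/2)*v 5 2)^2
        + ((-1/2)*v 1 0 + (1/2)*v 1 1 + (-1/2)*v 1 2 + ((1/4)+(-1/4)*s)*v 2 0 + ((-1/4)+(1/4)*s)*v 2 1 + ((1/4)+(-1/4)*s)*v 2 2 + ((1/4)+(1/4)*s)*v 5 0 + ((-1/4)+(-1/4)*s)*v 5 1 + ((1/4)+(1/4)*s)*v 5 2)^2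
        + (((-1/4)+(-1/4)*s)*v 1 0 + ((1/4)+(1/4)*s)*v 1 1 + ((-1/4)+(-1/4)*s)*v 1 2 + (1/2)*v 2 0 + (-1/2)*v 2 1 + (1/2)*v 2 2 + ((-1/4)+(1/4)*s)*v 5 0 + ((1/4)+(-1/4)*s)*v 5 1 + ((-1/4)+(1/4)*s)*v 5 2)^2) / 6)
    + ((1/2)*((-1)*((v 3 1-v 1 1)*(v 4 2-v 1 2)-(v 3 2-v 1 2)*(v 4 1-v 1 1)) + (-1)*((v 3 2-v 1 2)*(v 4 0-v 1 0)-(v 3 0-v 1 0)*(v 4 2-v 1 2)) + 1*((v 3 0-v 1 0)*(v 4 1-v 1 1)-(v 3 1-v 1 1)*(v 4 0-v 1 0)))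
        + ((((-1/4)+(1/4)*s)*v 1 0 + ((-1/4)+(1/4)*s)*v 1 1 + ((1/4)+(-1/4)*s)*v 1 2 + ((-1/4)+(-1/4)*s)*v 3 0 + ((-1/4)+(-1/4)*s)*v 3 1 + ((1/4)+(1/4)*s)*v 3 2 + (1/2)*v 4 0 + (1/2)*v 4 1 + (-1/2)*v 4 2)^2
        + ((1/2)*v 1 0 + (1/2)*v 1 1 + (-1/2)*v 1 2 + ((-1/4)+(1/4)*s)*v 3 0 + ((-1/4)+(1/4)*s)*v 3 1 + ((1/4)+(-1/4)*s)*v 3 2 + ((-1/4)+(-1/4)*s)*v 4 0 + ((-1/4)+(-1/4)*s)*v 4 1 + ((1/4)+(1/4)*s)*v 4 2)^2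
        + (((1/4)+(1/4)*s)*v 1 0 + ((1/4)+(1/4)*s)*v 1 1 + ((-1/4)+(-1/4)*s)*v 1 2 + (-1/2)*v 3 0 + (-1/2)*v 3 1 + (1/2)*v 3 2 + ((1/4)+(-1/4)*s)*v 4 0 + ((1/4)+(-1/4)*s)*v 4 1 + ((-1/4)+(1/4)*s)*v 4 2)^2) / 6)
    + ((1/2)*(((-1/2)+(1/2)*s)*((v 0 1-v 1 1)*(v 4 2-v 1 2)-(v 0 2-v 1 2)*(v 4 1-v 1 1)) + ((1/2)+(1/2)*s)*((v 0 2-v 1 2)*(v 4 0-v 1 0)-(v 0 0-v 1 0)*(v 4 2-v 1 2)))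
        + (((-1/2)*v 0 0 + ((-3/4)+(-1/4)*s)*v 0 1 + (1/2)*v 1 0 + ((3/4)+(1/4)*s)*v 1 1)^2
        + (((3/4)+(-1/4)*s)*v 0 0 + (1/2)*v 0 1 + ((-3/4)+(1/4)*s)*v 1 0 + (-1/2)*v 1 1)^2
        + (((1/4)+(-1/4)*s)*v 0 0 + ((-1/4)+(-1/4)*s)*v 0 1 + ((1/4)+(-1/4)*s)*v 1 0 + ((-1/4)+(-1/4)*s)*v 1 1 + ((-1/2)+(1/2)*s)*v 4 0 + ((1/2)+(1/2)*s)*v 4 1)^2) / 6)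
    + ((1/2)*(((1/2)+(-1/2)*s)*((v 1 1-v 0 1)*(v 5 2-v 0 2)-(v 1 2-v 0 2)*(v 5 1-v 0 1)) + ((1/2)+(1/2)*s)*((v 1 2-v 0 2)*(v 5 0-v 0 0)-(v 1 0-v 0 0)*(v 5 2-v 0 2)))
        + (((1/2)*v 0 0 + ((-3/4)+(-1/4)*s)*v 0 1 + (-1/2)*v 1 0 + ((3/4)+(1/4)*s)*v 1 1)^2
        + (((3/4)+(-1/4)*s)*v 0 0 + (-1/2)*v 0 1 + ((-3/4)+(1/4)*s)*v 1 0 + (1/2)*v 1 1)^2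
        + (((1/4)+(-1/4)*s)*v 0 0 + ((1/4)+(1/4)*s)*v 0 1 + ((1/4)+(-1/4)*s)*v 1 0 + ((1/4)+(1/4)*s)*v 1 1 + ((-1/2)+(1/2)*s)*v 5 0 + ((-1/2)+(-1/2)*s)*v 5 1)^2) / 6)
    + ((1/2)*(((-1/2)+(1/2)*s)*((v 2 2-v 3 2)*(v 0 0-v 3 0)-(v 2 0-v 3 0)*(v 0 2-v 3 2)) + ((1/2)+(1/2)*s)*((v 2 0-v 3 0)*(v 0 1-v 3 1)-(v 2 1-v 3 1)*(v 0 0-v 3 0)))
        + ((((-1/2)+(1/2)*s)*v 0 1 + ((1/2)+(1/2)*s)*v 0 2 + ((1/4)+(-1/4)*s)*v 2 1 + ((-1/4)+(-1/4)*s)*v 2 2 + ((1/4)+(-1/4)*s)*v 3 1 + ((-1/4)+(-1/4)*s)*v 3 2)^2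
        + ((-1/2)*v 2 1 + ((-3/4)+(-1/4)*s)*v 2 2 + (1/2)*v 3 1 + ((3/4)+(1/4)*s)*v 3 2)^2
        + (((3/4)+(-1/4)*s)*v 2 1 + (1/2)*v 2 2 + ((-3/4)+(1/4)*s)*v 3 1 + (-1/2)*v 3 2)^2) / 6)
    + ((1/2)*(((1/2)+(-1/2)*s)*((v 3 2-v 2 2)*(v 1 0-v 2 0)-(v 3 0-v 2 0)*(v 1 2-v 2 2)) + ((1/2)+(1/2)*s)*((v 3 0-v 2 0)*(v 1 1-v 2 1)-(v 3 1-v 2 1)*(v 1 0-v 2 0)))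
        + ((((-1/2)+(1/2)*s)*v 1 1 + ((-1/2)+(-1/2)*s)*v 1 2 + ((1/4)+(-1/4)*s)*v 2 1 + ((1/4)+(1/4)*s)*v 2 2 + ((1/4)+(-1/4)*s)*v 3 1 + ((1/4)+(1/4)*s)*v 3 2)^2
        + ((1/2)*v 2 1 + ((-3/4)+(-1/4)*s)*v 2 2 + (-1/2)*v 3 1 + ((3/4)+(1/4)*s)*v 3 2)^2
        + (((3/4)+(-1/4)*s)*v 2 1 + (-1/2)*v 2 2 + ((-3/4)+(1/4)*s)*v 3 1 + (1/2)*v 3 2)^2) / 6)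
    + ((1/2)*(((1/2)+(1/2)*s)*((v 4 1-v 5 1)*(v 2 2-v 5 2)-(v 4 2-v 5 2)*(v 2 1-v 5 1)) + ((-1/2)+(1/2)*s)*((v 4 0-v 5 0)*(v 2 1-v 5 1)-(v 4 1-v 5 1)*(v 2 0-v 5 0)))
        + (((1/2)*v 4 0 + ((3/4)+(-1/4)*s)*v 4 2 + (-1/2)*v 5 0 + ((-3/4)+(1/4)*s)*v 5 2)^2
        + (((1/2)+(1/2)*s)*v 2 0 + ((-1/2)+(1/2)*s)*v 2 2 + ((-1/4)+(-1/4)*s)*v 4 0 + ((1/4)+(-1/4)*s)*v 4 2 + ((-1/4)+(-1/4)*s)*v 5 0 + ((1/4)+(-1/4)*s)*v 5 2)^2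
        + (((-3/4)+(-1/4)*s)*v 4 0 + (-1/2)*v 4 2 + ((3/4)+(1/4)*s)*v 5 0 + (1/2)*v 5 2)^2) / 6)
    + ((1/2)*(((1/2)+(1/2)*s)*((v 5 1-v 4 1)*(v 3 2-v 4 2)-(v 5 2-v 4 2)*(v 3 1-v 4 1)) + ((1/2)+(-1/2)*s)*((v 5 0-v 4 0)*(v 3 1-v 4 1)-(v 5 1-v 4 1)*(v 3 0-v 4 0)))
        + (((-1/2)*v 4 0 + ((3/4)+(-1/4)*s)*v 4 2 + (1/2)*v 5 0 + ((-3/4)+(1/4)*s)*v 5 2)^2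
        + (((-1/2)+(-1/2)*s)*v 3 0 + ((-1/2)+(1/2)*s)*v 3 2 + ((1/4)+(1/4)*s)*v 4 0 + ((1/4)+(-1/4)*s)*v 4 2 + ((1/4)+(1/4)*s)*v 5 0 + ((1/4)+(-1/4)*s)*v 5 2)^2
        + (((-3/4)+(-1/4)*s)*v 4 0 + (1/2)*v 4 2 + ((3/4)+(1/4)*s)*v 5 0 + (-1/2)*v 5 2)^2) / 6)) - 6 * (((0*(v 2 1*v 4 2-v 2 2*v 4 1)-((1/2)+(1/2)*s)*(v 2 0*v 4 2-v 2 2*v 4 0)+1*(v 2 0*v 4 1-v 2 1*v 4 0)) + (v 0 0*(0*v 4 2-((1/2)+(1/2)*s)*v 4 1)-v 0 1*(1*v 4 2-((1/2)+(1/2)*s)*v 4 0)+v 0 2*(1*v 4 1-0*v 4 0)) + (v 0 0*(v 2 1*0-v 2 2*1)-v 0 1*(v 2 0*0-v 2 2*((1/2)+(1/2)*s))+v 0 2*(v 2 0*1-v 2 1*((1/2)+(1/2)*s))))/3 +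
      ((0*(v 3 1*v 5 2-v 3 2*v 5 1)-((-1/2)+(-1/2)*s)*(v 3 0*v 5 2-v 3 2*v 5 0)+(-1)*(v 3 0*v 5 1-v 3 1*v 5 0)) + (v 0 0*(0*v 5 2-((-1/2)+(-1/2)*s)*v 5 1)-v 0 1*(1*v 5 2-((-1/2)+(-1/2)*s)*v 5 0)+v 0 2*(1*v 5 1-0*v 5 0)) + (v 0 0*(v 3 1*0-v 3 2*(-1))-v 0 1*(v 3 0*0-v 3 2*((1/2)+(1/2)*s))+v 0 2*(v 3 0*(-1)-v 3 1*((1/2)+(1/2)*s))))/3 +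
      ((0*(v 2 1*v 5 2-v 2 2*v 5 1)-((1/2)+(1/2)*s)*(v 2 0*v 5 2-v 2 2*v 5 0)+(-1)*(v 2 0*v 5 1-v 2 1*v 5 0)) + (v 1 0*(0*v 5 2-((-1/2)+(-1/2)*s)*v 5 1)-v 1 1*((-1)*v 5 2-((-1/2)+(-1/2)*s)*v 5 0)+v 1 2*((-1)*v 5 1-0*v 5 0)) + (v 1 0*(v 2 1*0-v 2 2*1)-v 1 1*(v 2 0*0-v 2 2*((-1/2)+(-1/2)*s))+v 1 2*(v 2 0*1-v 2 1*((-1/2)+(-1/2)*s))))/3 +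
      ((0*(v 3 1*v 4 2-v 3 2*v 4 1)-((-1/2)+(-1/2)*s)*(v 3 0*v 4 2-v 3 2*v 4 0)+1*(v 3 0*v 4 1-v 3 1*v 4 0)) + (v 1 0*(0*v 4 2-((1/2)+(1/2)*s)*v 4 1)-v 1 1*((-1)*v 4 2-((1/2)+(1/2)*s)*v 4 0)+v 1 2*((-1)*v 4 1-0*v 4 0)) + (v 1 0*(v 3 1*0-v 3 2*(-1))-v 1 1*(v 3 0*0-v 3 2*((-1/2)+(-1/2)*s))+v 1 2*(v 3 0*(-1)-v 3 1*((-1/2)+(-1/2)*s))))/3 +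
      ((0*(v 0 1*v 4 2-v 0 2*v 4 1)-((1/2)+(1/2)*s)*(v 0 0*v 4 2-v 0 2*v 4 0)+(-1)*(v 0 0*v 4 1-v 0 1*v 4 0)) + (v 1 0*(((1/2)+(1/2)*s)*v 4 2-1*v 4 1)-v 1 1*(0*v 4 2-1*v 4 0)+v 1 2*(0*v 4 1-((1/2)+(1/2)*s)*v 4 0)) + (v 1 0*(v 0 1*0-v 0 2*1)-v 1 1*(v 0 0*0-v 0 2*((1/2)+(1/2)*s))+v 1 2*(v 0 0*1-v 0 1*((1/2)+(1/2)*s))))/3 +
      ((0*(v 1 1*v 5 2-v 1 2*v 5 1)-((1/2)+(1/2)*s)*(v 1 0*v 5 2-v 1 2*v 5 0)+1*(v 1 0*v 5 1-v 1 1*v 5 0)) + (v 0 0*(((1/2)+(1/2)*s)*v 5 2-(-1)*v 5 1)-v 0 1*(0*v 5 2-(-1)*v 5 0)+v 0 2*(0*v 5 1-((1/2)+(1/2)*s)*v 5 0)) + (v 0 0*(v 1 1*0-v 1 2*1)-v 0 1*(v 1 0*0-v 1 2*((-1/2)+(-1/2)*s))+v 0 2*(v 1 0*1-v 1 1*((-1/2)+(-1/2)*s))))/3 +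
      (((-1)*(v 2 1*v 0 2-v 2 2*v 0 1)-0*(v 2 0*v 0 2-v 2 2*v 0 0)+((1/2)+(1/2)*s)*(v 2 0*v 0 1-v 2 1*v 0 0)) + (v 3 0*(0*v 0 2-((1/2)+(1/2)*s)*v 0 1)-v 3 1*(1*v 0 2-((1/2)+(1/2)*s)*v 0 0)+v 3 2*(1*v 0 1-0*v 0 0)) + (v 3 0*(v 2 1*1-v 2 2*((1/2)+(1/2)*s))-v 3 1*(v 2 0*1-v 2 2*0)+v 3 2*(v 2 0*((1/2)+(1/2)*s)-v 2 1*0)))/3 +
      ((1*(v 3 1*v 1 2-v 3 2*v 1 1)-0*(v 3 0*v 1 2-v 3 2*v 1 0)+((1/2)+(1/2)*s)*(v 3 0*v 1 1-v 3 1*v 1 0)) + (v 2 0*(0*v 1 2-((1/2)+(1/2)*s)*v 1 1)-v 2 1*((-1)*v 1 2-((1/2)+(1/2)*s)*v 1 0)+v 2 2*((-1)*v 1 1-0*v 1 0)) + (v 2 0*(v 3 1*1-v 3 2*((-1/2)+(-1/2)*s))-v 2 1*(v 3 0*1-v 3 2*0)+v 2 2*(v 3 0*((-1/2)+(-1/2)*s)-v 3 1*0)))/3 +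
      ((((1/2)+(1/2)*s)*(v 4 1*v 2 2-v 4 2*v 2 1)-(-1)*(v 4 0*v 2 2-v 4 2*v 2 0)+0*(v 4 0*v 2 1-v 4 1*v 2 0)) + (v 5 0*(1*v 2 2-0*v 2 1)-v 5 1*(((1/2)+(1/2)*s)*v 2 2-0*v 2 0)+v 5 2*(((1/2)+(1/2)*s)*v 2 1-1*v 2 0)) + (v 5 0*(v 4 1*((1/2)+(1/2)*s)-v 4 2*0)-v 5 1*(v 4 0*((1/2)+(1/2)*s)-v 4 2*1)+v 5 2*(v 4 0*0-v 4 1*1)))/3 +
      ((((1/2)+(1/2)*s)*(v 5 1*v 3 2-v 5 2*v 3 1)-1*(v 5 0*v 3 2-v 5 2*v 3 0)+0*(v 5 0*v 3 1-v 5 1*v 3 0)) + (v 4 0*((-1)*v 3 2-0*v 3 1)-v 4 1*(((1/2)+(1/2)*s)*v 3 2-0*v 3 0)+v 4 2*(((1/2)+(1/2)*s)*v 3 1-(-1)*v 3 0)) + (v 4 0*(v 5 1*((-1/2)+(-1/2)*s)-v 5 2*0)-v 4 1*(v 5 0*((-1/2)+(-1/2)*s)-v 5 2*1)+v 4 2*(v 5 0*0-v 5 1*1)))/3)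
      = 2 * (v 0 0^2 + v 0 1^2 + v 0 2^2 + v 1 0^2 + v 1 1^2 + v 1 2^2 + v 2 0^2 + v 2 1^2 + v 2 2^2 + v 3 0^2 + v 3 1^2 + v 3 2^2 + v 4 0^2 + v 4 1^2 + v 4 2^2 + v 5 0^2 + v 5 1^2 + v 5 2^2)
        - (1/3) * ((v 0 0 + v 1 0 + v 2 0 + v 3 0 + v 4 0 + v 5 0)^2 + (v 0 1 + v 1 1 + v 2 1 + v 3 1 + v 4 1 + v 5 1)^2 + (v 0 2 + v 1 2 + v 2 2 + v 3 2 + v 4 2 + v 5 2)^2) + secQ s v := by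
  unfold secQ
  linear_combination (
    (1/12 + 1/12*s)*(v 0 0*v 0 0) + (1/6)*(v 0 0*v 1 0) + (-1/16 - 1/48*s)*(v 0 0*v 2 0) + (-5/16
    - 1/48*s)*(v 0 0*v 2 1) + (3/16 - 1/48*s)*(v 0 0*v 2 2) + (-1/16 - 1/48*s)*(v 0 0*v 3 0) +
    (5/16 + 1/48*s)*(v 0 0*v 3 1) + (-3/16 + 1/48*s)*(v 0 0*v 3 2) + (-5/48 - 1/16*s)*(v 0 0*v 4
    0) + (-3/16 - 1/16*s)*(v 0 0*v 4 1) + (-5/16 - 1/48*s)*(v 0 0*v 4 2) + (-5/48 - 1/16*s)*(v 0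
    0*v 5 0) + (3/16 + 1/16*s)*(v 0 0*v 5 1) + (5/16 + 1/48*s)*(v 0 0*v 5 2) + (11/24 + 1/8*s)*(v
    0 1*v 0 1) + (1/2 + 1/6*s)*(v 0 1*v 0 2) + (-1/6)*(v 0 1*v 1 1) + (-1/2)*(v 0 1*v 1 2) + (3/16
    - 1/48*s)*(v 0 1*v 2 0) + (-5/48 - 1/16*s)*(v 0 1*v 2 1) + (-3/16 - 1/16*s)*(v 0 1*v 2 2) +
    (-3/16 + 1/48*s)*(v 0 1*v 3 0) + (-5/48 - 1/16*s)*(v 0 1*v 3 1) + (-3/16 - 1/16*s)*(v 0 1*v 3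
    2) + (-3/16 - 1/16*s)*(v 0 1*v 4 0) + (-13/48 - 1/16*s)*(v 0 1*v 4 1) + (3/16 - 1/48*s)*(v 0
    1*v 4 2) + (3/16 + 1/16*s)*(v 0 1*v 5 0) + (-13/48 - 1/16*s)*(v 0 1*v 5 1) + (3/16 -
    1/48*s)*(v 0 1*v 5 2) + (1/3 + 1/12*s)*(v 0 2*v 0 2) + (1/2)*(v 0 2*v 1 1) + (-5/16 -
    1/48*s)*(v 0 2*v 2 0) + (-3/16 - 1/16*s)*(v 0 2*v 2 1) + (-13/48 - 1/16*s)*(v 0 2*v 2 2) +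
    (5/16 + 1/48*s)*(v 0 2*v 3 0) + (-3/16 - 1/16*s)*(v 0 2*v 3 1) + (-13/48 - 1/16*s)*(v 0 2*v 3
    2) + (3/16 - 1/48*s)*(v 0 2*v 4 0) + (-5/16 - 1/48*s)*(v 0 2*v 4 1) + (-1/16 - 1/48*s)*(v 0
    2*v 4 2) + (-3/16 + 1/48*s)*(v 0 2*v 5 0) + (-5/16 - 1/48*s)*(v 0 2*v 5 1) + (-1/16 -
    1/48*s)*(v 0 2*v 5 2) + (1/12 + 1/12*s)*(v 1 0*v 1 0) + (-1/16 - 1/48*s)*(v 1 0*v 2 0) + (5/16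
    + 1/48*s)*(v 1 0*v 2 1) + (3/16 - 1/48*s)*(v 1 0*v 2 2) + (-1/16 - 1/48*s)*(v 1 0*v 3 0) +
    (-5/16 - 1/48*s)*(v 1 0*v 3 1) + (-3/16 + 1/48*s)*(v 1 0*v 3 2) + (-5/48 - 1/16*s)*(v 1 0*v 4
    0) + (-3/16 - 1/16*s)*(v 1 0*v 4 1) + (5/16 + 1/48*s)*(v 1 0*v 4 2) + (-5/48 - 1/16*s)*(v 1
    0*v 5 0) + (3/16 + 1/16*s)*(v 1 0*v 5 1) + (-5/16 - 1/48*s)*(v 1 0*v 5 2) + (11/24 + 1/8*s)*(v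
    1 1*v 1 1) + (-1/2 - 1/6*s)*(v 1 1*v 1 2) + (-3/16 + 1/48*s)*(v 1 1*v 2 0) + (-5/48 -
    1/16*s)*(v 1 1*v 2 1) + (3/16 + 1/16*s)*(v 1 1*v 2 2) + (3/16 - 1/48*s)*(v 1 1*v 3 0) + (-5/48
    - 1/16*s)*(v 1 1*v 3 1) + (3/16 + 1/16*s)*(v 1 1*v 3 2) + (-3/16 - 1/16*s)*(v 1 1*v 4 0) +
    (-13/48 - 1/16*s)*(v 1 1*v 4 1) + (-3/16 + 1/48*s)*(v 1 1*v 4 2) + (3/16 + 1/16*s)*(v 1 1*v 5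
    0) + (-13/48 - 1/16*s)*(v 1 1*v 5 1) + (-3/16 + 1/48*s)*(v 1 1*v 5 2) + (1/3 + 1/12*s)*(v 1
    2*v 1 2) + (-5/16 - 1/48*s)*(v 1 2*v 2 0) + (3/16 + 1/16*s)*(v 1 2*v 2 1) + (-13/48 -
    1/16*s)*(v 1 2*v 2 2) + (5/16 + 1/48*s)*(v 1 2*v 3 0) + (3/16 + 1/16*s)*(v 1 2*v 3 1) +
    (-13/48 - 1/16*s)*(v 1 2*v 3 2) + (-3/16 + 1/48*s)*(v 1 2*v 4 0) + (5/16 + 1/48*s)*(v 1 2*v 4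
    1) + (-1/16 - 1/48*s)*(v 1 2*v 4 2) + (3/16 - 1/48*s)*(v 1 2*v 5 0) + (5/16 + 1/48*s)*(v 1 2*v
    5 1) + (-1/16 - 1/48*s)*(v 1 2*v 5 2) + (1/3 + 1/12*s)*(v 2 0*v 2 0) + (1/2 + 1/6*s)*(v 2 0*v
    2 2) + (1/2)*(v 2 0*v 3 2) + (-13/48 - 1/16*s)*(v 2 0*v 4 0) + (-5/16 - 1/48*s)*(v 2 0*v 4 1)
    + (-3/16 - 1/16*s)*(v 2 0*v 4 2) + (-13/48 - 1/16*s)*(v 2 0*v 5 0) + (5/16 + 1/48*s)*(v 2 0*v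
    5 1) + (-3/16 - 1/16*s)*(v 2 0*v 5 2) + (1/12 + 1/12*s)*(v 2 1*v 2 1) + (1/6)*(v 2 1*v 3 1) +
    (3/16 - 1/48*s)*(v 2 1*v 4 0) + (-1/16 - 1/48*s)*(v 2 1*v 4 1) + (-5/16 - 1/48*s)*(v 2 1*v 4
    2) + (-3/16 + 1/48*s)*(v 2 1*v 5 0) + (-1/16 - 1/48*s)*(v 2 1*v 5 1) + (5/16 + 1/48*s)*(v 2
    1*v 5 2) + (11/24 + 1/8*s)*(v 2 2*v 2 2) + (-1/2)*(v 2 2*v 3 0) + (-1/6)*(v 2 2*v 3 2) +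
    (-3/16 - 1/16*s)*(v 2 2*v 4 0) + (3/16 - 1/48*s)*(v 2 2*v 4 1) + (-5/48 - 1/16*s)*(v 2 2*v 4
    2) + (-3/16 - 1/16*s)*(v 2 2*v 5 0) + (-3/16 + 1/48*s)*(v 2 2*v 5 1) + (-5/48 - 1/16*s)*(v 2
    2*v 5 2) + (1/3 + 1/12*s)*(v 3 0*v 3 0) + (-1/2 - 1/6*s)*(v 3 0*v 3 2) + (-13/48 - 1/16*s)*(v
    3 0*v 4 0) + (-5/16 - 1/48*s)*(v 3 0*v 4 1) + (3/16 + 1/16*s)*(v 3 0*v 4 2) + (-13/48 -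
    1/16*s)*(v 3 0*v 5 0) + (5/16 + 1/48*s)*(v 3 0*v 5 1) + (3/16 + 1/16*s)*(v 3 0*v 5 2) + (1/12
    + 1/12*s)*(v 3 1*v 3 1) + (3/16 - 1/48*s)*(v 3 1*v 4 0) + (-1/16 - 1/48*s)*(v 3 1*v 4 1) +
    (5/16 + 1/48*s)*(v 3 1*v 4 2) + (-3/16 + 1/48*s)*(v 3 1*v 5 0) + (-1/16 - 1/48*s)*(v 3 1*v 5
    1) + (-5/16 - 1/48*s)*(v 3 1*v 5 2) + (11/24 + 1/8*s)*(v 3 2*v 3 2) + (3/16 + 1/16*s)*(v 3 2*v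
    4 0) + (-3/16 + 1/48*s)*(v 3 2*v 4 1) + (-5/48 - 1/16*s)*(v 3 2*v 4 2) + (3/16 + 1/16*s)*(v 3
    2*v 5 0) + (3/16 - 1/48*s)*(v 3 2*v 5 1) + (-5/48 - 1/16*s)*(v 3 2*v 5 2) + (11/24 + 1/8*s)*(v
    4 0*v 4 0) + (1/2 + 1/6*s)*(v 4 0*v 4 1) + (-1/6)*(v 4 0*v 5 0) + (-1/2)*(v 4 0*v 5 1) + (1/3
    + 1/12*s)*(v 4 1*v 4 1) + (1/2)*(v 4 1*v 5 0) + (1/12 + 1/12*s)*(v 4 2*v 4 2) + (1/6)*(v 4 2*v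
    5 2) + (11/24 + 1/8*s)*(v 5 0*v 5 0) + (-1/2 - 1/6*s)*(v 5 0*v 5 1) + (1/3 + 1/12*s)*(v 5 1*v
    5 1) + (1/12 + 1/12*s)*(v 5 2*v 5 2)) * hs

end Pool.Agent.IcoLocal
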