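import Pool.Agent.IcoLocal.SecondQ

/-!
The sum of squares of the second variation: the first three squares.
-/

namespace Pool.Agent.IcoLocal

lemma secQ_first (s : ℝ) (hs : s ^ 2 = 5) (v : Fin 12 → Fin 3 → ℝ) :
    ((1/3)*s)*(1*v 0 0 + ((-1/4)+(1/20)*s)*v 2 0 + (1/2)*v 2 1 + ((-1/4)+(3/20)*s)*v 2 2 + ((-1/4)+(1/20)*s)*v 3 0 + (-1/2)*v 3 1 + ((1/4)+(-3/20)*s)*v 3 2 + ((-1/4)+(-1/20)*s)*v 4 0 + ((1/4)+(3/20)*s)*v 4 1 + (1/2)*v 4 2 + ((-1/4)+(-1/20)*s)*v 5 0 + ((-1/4)+(-3/20)*s)*v 5 1 + (-1/2)*v 5 2)^2 +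
    (2+(4/3)*s)*(1*v 0 1 + ((3/44)+(9/44)*s)*v 0 2 + ((-15/44)+(-1/44)*s)*v 1 1 + ((21/44)+(-3/44)*s)*v 1 2 + (-1/4)*v 2 0 + ((-7/88)+(1/88)*s)*v 2 1 + ((-5/88)+(-15/88)*s)*v 2 2 + (1/4)*v 3 0 + ((-7/88)+(1/88)*s)*v 3 1 + ((-5/88)+(-15/88)*s)*v 3 2 + ((-5/88)+(-15/88)*s)*v 4 0 + (-1/4)*v 4 1 + ((-19/88)+(9/88)*s)*v 4 2 + ((5/88)+(15/88)*s)*v 5 0 + (-1/4)*v 5 1 + ((-19/88)+(9/88)*s)*v 5 2)^2 +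
    ((1/3)*s)*(1*v 1 0 + ((-1/4)+(1/20)*s)*v 2 0 + (-1/2)*v 2 1 + ((-1/4)+(3/20)*s)*v 2 2 + ((-1/4)+(1/20)*s)*v 3 0 + (1/2)*v 3 1 + ((1/4)+(-3/20)*s)*v 3 2 + ((-1/4)+(-1/20)*s)*v 4 0 + ((1/4)+(3/20)*s)*v 4 1 + (-1/2)*v 4 2 + ((-1/4)+(-1/20)*s)*v 5 0 + ((-1/4)+(-3/20)*s)*v 5 1 + (1/2)*v 5 2)^2 + secR s v = secQ s v := by
  unfold secR secQ
  linear_combination (
    (1/30)*(v 0 0*v 2 0) + (1/10)*(v 0 0*v 2 2) + (1/30)*(v 0 0*v 3 0) + (-1/10)*(v 0 0*v 3 2) +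
    (-1/30)*(v 0 0*v 4 0) + (1/10)*(v 0 0*v 4 1) + (-1/30)*(v 0 0*v 5 0) + (-1/10)*(v 0 0*v 5 1) +
    (6/11)*(v 0 1*v 0 2) + (-2/33)*(v 0 1*v 1 1) + (-2/11)*(v 0 1*v 1 2) + (1/33)*(v 0 1*v 2 1) +
    (-5/11)*(v 0 1*v 2 2) + (1/33)*(v 0 1*v 3 1) + (-5/11)*(v 0 1*v 3 2) + (-5/11)*(v 0 1*v 4 0) +
    (3/11)*(v 0 1*v 4 2) + (5/11)*(v 0 1*v 5 0) + (3/11)*(v 0 1*v 5 2) + (117/968 + 27/484*s)*(v 0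
    2*v 0 2) + (-101/484 - 3/242*s)*(v 0 2*v 1 1) + (93/484 - 9/242*s)*(v 0 2*v 1 2) + (-3/22)*(v
    0 2*v 2 0) + (-31/968 + 3/484*s)*(v 0 2*v 2 1) + (-195/968 - 45/484*s)*(v 0 2*v 2 2) +
    (3/22)*(v 0 2*v 3 0) + (-31/968 + 3/484*s)*(v 0 2*v 3 1) + (-195/968 - 45/484*s)*(v 0 2*v 3 2)
    + (-195/968 - 45/484*s)*(v 0 2*v 4 0) + (-3/22)*(v 0 2*v 4 1) + (-15/968 + 27/484*s)*(v 0 2*v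
    4 2) + (195/968 + 45/484*s)*(v 0 2*v 5 0) + (-3/22)*(v 0 2*v 5 1) + (-15/968 + 27/484*s)*(v 0
    2*v 5 2) + (1/30)*(v 1 0*v 2 0) + (1/10)*(v 1 0*v 2 2) + (1/30)*(v 1 0*v 3 0) + (-1/10)*(v 1
    0*v 3 2) + (-1/30)*(v 1 0*v 4 0) + (1/10)*(v 1 0*v 4 1) + (-1/30)*(v 1 0*v 5 0) + (-1/10)*(v 1
    0*v 5 1) + (21/968 + 1/1452*s)*(v 1 1*v 1 1) + (19/484 + 1/242*s)*(v 1 1*v 1 2) + (1/66)*(v 1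
    1*v 2 0) + (-19/2904 - 1/1452*s)*(v 1 1*v 2 1) + (505/2904 + 5/484*s)*(v 1 1*v 2 2) +
    (-1/66)*(v 1 1*v 3 0) + (-19/2904 - 1/1452*s)*(v 1 1*v 3 1) + (505/2904 + 5/484*s)*(v 1 1*v 3
    2) + (505/2904 + 5/484*s)*(v 1 1*v 4 0) + (1/66)*(v 1 1*v 4 1) + (-259/2904 - 3/484*s)*(v 1
    1*v 4 2) + (-505/2904 - 5/484*s)*(v 1 1*v 5 0) + (1/66)*(v 1 1*v 5 1) + (-259/2904 -
    3/484*s)*(v 1 1*v 5 2) + (-75/968 + 3/484*s)*(v 1 2*v 1 2) + (1/22)*(v 1 2*v 2 0) + (25/968 -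
    1/484*s)*(v 1 2*v 2 1) + (-155/968 + 15/484*s)*(v 1 2*v 2 2) + (-1/22)*(v 1 2*v 3 0) + (25/968
    - 1/484*s)*(v 1 2*v 3 1) + (-155/968 + 15/484*s)*(v 1 2*v 3 2) + (-155/968 + 15/484*s)*(v 1
    2*v 4 0) + (1/22)*(v 1 2*v 4 1) + (137/968 - 9/484*s)*(v 1 2*v 4 2) + (155/968 - 15/484*s)*(v
    1 2*v 5 0) + (1/22)*(v 1 2*v 5 1) + (137/968 - 9/484*s)*(v 1 2*v 5 2) + (-1/60 + 1/600*s)*(v 2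
    0*v 2 0) + (-1/132)*(v 2 0*v 2 1) + (31/660 + 1/100*s)*(v 2 0*v 2 2) + (-1/30 + 1/300*s)*(v 2
    0*v 3 0) + (-1/132)*(v 2 0*v 3 1) + (119/660 - 1/100*s)*(v 2 0*v 3 2) + (5/44 - 1/300*s)*(v 2
    0*v 4 0) + (-1/30 + 1/100*s)*(v 2 0*v 4 1) + (-3/44)*(v 2 0*v 4 2) + (-5/44 - 1/300*s)*(v 2
    0*v 5 0) + (1/30 - 1/100*s)*(v 2 0*v 5 1) + (-3/44)*(v 2 0*v 5 2) + (-25/11616 + 1/5808*s)*(v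
    2 1*v 2 1) + (155/5808 - 5/968*s)*(v 2 1*v 2 2) + (1/132)*(v 2 1*v 3 0) + (-25/5808 +
    1/2904*s)*(v 2 1*v 3 1) + (155/5808 - 5/968*s)*(v 2 1*v 3 2) + (155/5808 - 5/968*s)*(v 2 1*v 4
    0) + (-1/132)*(v 2 1*v 4 1) + (-137/5808 + 3/968*s)*(v 2 1*v 4 2) + (-155/5808 + 5/968*s)*(v 2
    1*v 5 0) + (-1/132)*(v 2 1*v 5 1) + (-137/5808 + 3/968*s)*(v 2 1*v 5 2) + (657/19360 +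
    2601/48400*s)*(v 2 2*v 2 2) + (-119/660 + 1/100*s)*(v 2 2*v 3 0) + (155/5808 - 5/968*s)*(v 2
    2*v 3 1) + (2593/9680 + 1149/24200*s)*(v 2 2*v 3 2) + (3907/29040 + 1633/24200*s)*(v 2 2*v 4
    0) + (5/44 + 3/100*s)*(v 2 2*v 4 1) + (25/1936 - 45/968*s)*(v 2 2*v 4 2) + (-5843/29040 -
    2117/24200*s)*(v 2 2*v 5 0) + (5/44 - 3/100*s)*(v 2 2*v 5 1) + (25/1936 - 45/968*s)*(v 2 2*v 5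
    2) + (-1/60 + 1/600*s)*(v 3 0*v 3 0) + (1/132)*(v 3 0*v 3 1) + (-31/660 - 1/100*s)*(v 3 0*v 3
    2) + (-5/44 - 1/300*s)*(v 3 0*v 4 0) + (-1/30 + 1/100*s)*(v 3 0*v 4 1) + (3/44)*(v 3 0*v 4 2)
    + (5/44 - 1/300*s)*(v 3 0*v 5 0) + (1/30 - 1/100*s)*(v 3 0*v 5 1) + (3/44)*(v 3 0*v 5 2) +
    (-25/11616 + 1/5808*s)*(v 3 1*v 3 1) + (155/5808 - 5/968*s)*(v 3 1*v 3 2) + (155/5808 -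
    5/968*s)*(v 3 1*v 4 0) + (-1/132)*(v 3 1*v 4 1) + (-137/5808 + 3/968*s)*(v 3 1*v 4 2) +
    (-155/5808 + 5/968*s)*(v 3 1*v 5 0) + (-1/132)*(v 3 1*v 5 1) + (-137/5808 + 3/968*s)*(v 3 1*v
    5 2) + (657/19360 + 2601/48400*s)*(v 3 2*v 3 2) + (5843/29040 + 2117/24200*s)*(v 3 2*v 4 0) +
    (5/44 - 3/100*s)*(v 3 2*v 4 1) + (25/1936 - 45/968*s)*(v 3 2*v 4 2) + (-3907/29040 -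
    1633/24200*s)*(v 3 2*v 5 0) + (5/44 + 3/100*s)*(v 3 2*v 5 1) + (25/1936 - 45/968*s)*(v 3 2*v 5
    2) + (5843/58080 + 5867/145200*s)*(v 4 0*v 4 0) + (31/660 - 1/100*s)*(v 4 0*v 4 1) + (25/1936
    - 45/968*s)*(v 4 0*v 4 2) + (-3907/29040 - 5383/72600*s)*(v 4 0*v 5 0) + (119/660 +
    1/100*s)*(v 4 0*v 5 1) + (25/1936 - 45/968*s)*(v 4 0*v 5 2) + (1/20 + 3/200*s)*(v 4 1*v 4 1) +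
    (-3/44)*(v 4 1*v 4 2) + (-119/660 - 1/100*s)*(v 4 1*v 5 0) + (-1/10 - 3/100*s)*(v 4 1*v 5 1) +
    (-3/44)*(v 4 1*v 5 2) + (-147/3872 + 27/1936*s)*(v 4 2*v 4 2) + (-25/1936 + 45/968*s)*(v 4 2*v
    5 0) + (-3/44)*(v 4 2*v 5 1) + (-147/1936 + 27/968*s)*(v 4 2*v 5 2) + (5843/58080 +
    5867/145200*s)*(v 5 0*v 5 0) + (-31/660 + 1/100*s)*(v 5 0*v 5 1) + (-25/1936 + 45/968*s)*(v 5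
    0*v 5 2) + (1/20 + 3/200*s)*(v 5 1*v 5 1) + (-3/44)*(v 5 1*v 5 2) + (-147/3872 + 27/1936*s)*(v
    5 2*v 5 2)) * hs

end Pool.Agent.IcoLocal
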