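import Pool.Agent.IcoLocal.SecA
import Pool.Agent.IcoLocal.SecB
import Pool.Agent.IcoLocal.SecE
import Pool.Agent.IcoLocal.SecondA
import Pool.Agent.IcoLocal.SecondS1
import Pool.Agent.IcoLocal.SecondS2

/-!
# Local minimality of the regular icosahedron: the second variation
Generated certificate: the quadratic form is a sum of squares over `ℚ(√5)`.
-/

open Matrix

namespace Pool.Agent.IcoLocal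

open Pool.Agent.Lib_helper76.Ico
open Pool.Agent.Results.MP_fa01f0_gt.CentrallySymmetric

/-- The sum of squares. -/
noncomputable def sosQ (s : ℝ) (v : V) : ℝ :=
  ((1/3)*s)*(1*v 0 0 + ((-1/4)+(1/20)*s)*v 2 0 + (1/2)*v 2 1 + ((-1/4)+(3/20)*s)*v 2 2 + ((-1/4)+(1/20)*s)*v 3 0 + (-1/2)*v 3 1 + ((1/4)+(-3/20)*s)*v 3 2 + ((-1/4)+(-1/20)*s)*v 4 0 + ((1/4)+(3/20)*s)*v 4 1 + (1/2)*v 4 2 + ((-1/4)+(-1/20)*s)*v 5 0 + ((-1/4)+(-3/20)*s)*v 5 1 + (-1/2)*v 5 2)^2 +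
    (2+(4/3)*s)*(1*v 0 1 + ((3/44)+(9/44)*s)*v 0 2 + ((-15/44)+(-1/44)*s)*v 1 1 + ((21/44)+(-3/44)*s)*v 1 2 + (-1/4)*v 2 0 + ((-7/88)+(1/88)*s)*v 2 1 + ((-5/88)+(-15/88)*s)*v 2 2 + (1/4)*v 3 0 + ((-7/88)+(1/88)*s)*v 3 1 + ((-5/88)+(-15/88)*s)*v 3 2 + ((-5/88)+(-15/88)*s)*v 4 0 + (-1/4)*v 4 1 + ((-19/88)+(9/88)*s)*v 4 2 + ((5/88)+(15/88)*s)*v 5 0 + (-1/4)*v 5 1 + ((-19/88)+(9/88)*s)*v 5 2)^2 +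
    ((1/3)*s)*(1*v 1 0 + ((-1/4)+(1/20)*s)*v 2 0 + (-1/2)*v 2 1 + ((-1/4)+(3/20)*s)*v 2 2 + ((-1/4)+(1/20)*s)*v 3 0 + (1/2)*v 3 1 + ((1/4)+(-3/20)*s)*v 3 2 + ((-1/4)+(-1/20)*s)*v 4 0 + ((1/4)+(3/20)*s)*v 4 1 + (-1/2)*v 4 2 + ((-1/4)+(-1/20)*s)*v 5 0 + ((-1/4)+(-3/20)*s)*v 5 1 + (1/2)*v 5 2)^2 +
    ((1/8)+(19/30)*s)*(((515/5731)+(-699/5731)*s)*v 0 2 + ((-3925/5731)+(-1127/5731)*s)*v 1 1 + ((1585/5731)+(1521/5731)*s)*v 1 2 + ((-1083/5731)+(-1390/5731)*s)*v 2 0 + ((-1945/11462)+(303/11462)*s)*v 2 1 + ((-8003/11462)+(-2625/11462)*s)*v 2 2 + ((347/5731)+(-994/5731)*s)*v 3 0 + ((-1945/11462)+(303/11462)*s)*v 3 1 + ((423/1042)+(45/1042)*s)*v 3 2 + ((7461/11462)+(4607/11462)*s)*v 4 0 + 1*v 4 1 + ((-425/11462)+(243/11462)*s)*v 4 2 + ((-5989/11462)+(161/11462)*s)*v 5 0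 + ((139/5731)+(824/5731)*s)*v 5 1 + ((-425/11462)+(243/11462)*s)*v 5 2)^2 +
    ((773/34386)+(4871/34386)*s)*(((220/271)+(97/271)*s)*v 0 2 + ((-321/271)+(-59/271)*s)*v 1 1 + ((-64/271)+(-43/271)*s)*v 1 2 + ((-81/542)+(-101/542)*s)*v 2 0 + 1*v 2 1 + ((-279/542)+(-107/542)*s)*v 2 2 + ((155/542)+(-61/542)*s)*v 3 0 + 1*v 3 1 + ((89/542)+(-63/542)*s)*v 3 2 + ((-1/2)+(1/2)*s)*v 4 0 + ((-61/542)+(31/542)*s)*v 4 2 + ((197/542)+(-109/542)*s)*v 5 0 + ((-221/271)+(59/271)*s)*v 5 1 + ((-61/542)+(31/542)*s)*v 5 2)^2 +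
    ((742/8943)+(4030/8943)*s)*(((29/356)+(-39/356)*s)*v 0 2 + ((-35/178)+(-45/178)*s)*v 1 1 + ((219/356)+(-49/356)*s)*v 1 2 + 1*v 2 0 + ((-13/356)+(85/356)*s)*v 2 2 + ((-24/89)+(20/89)*s)*v 3 0 + ((-343/356)+(-85/356)*s)*v 3 2 + ((27/178)+(11/89)*s)*v 4 2 + ((-65/89)+(-20/89)*s)*v 5 0 + ((35/178)+(45/178)*s)*v 5 1 + ((27/178)+(11/89)*s)*v 5 2)^2 +
    ((6/89)+(74/267)*s)*(((-3/4)+(1/4)*s)*v 0 2 + 1*v 1 1 + ((-1/4)+(-1/4)*s)*v 1 2 + ((-3/4)+(-1/4)*s)*v 2 2 + ((-1/2)+(-1/2)*s)*v 3 0 + ((3/4)+(1/4)*s)*v 3 2 + (1/2)*v 4 2 + ((1/2)+(1/2)*s)*v 5 0 + (-1)*v 5 1 + (1/2)*v 5 2)^2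

lemma main_id (s : ℝ) (hs : s ^ 2 = 5) (v : V) (hv : ∀ i, v (i + 6) = v i) :
    (3 + s) * ∑ f, (P (X s) f ⬝ᵥ P v f + nn (P (X s) f ⨯₃ Q (X s) v f) / 6) - 6 * eta (X s) v
      = 2 * (v 0 0^2 + v 0 1^2 + v 0 2^2 + v 1 0^2 + v 1 1^2 + v 1 2^2 + v 2 0^2 + v 2 1^2 + v 2 2^2 + v 3 0^2 + v 3 1^2 + v 3 2^2 + v 4 0^2 + v 4 1^2 + v 4 2^2 + v 5 0^2 + v 5 1^2 + v 5 2^2)
        - (1/3) * ((v 0 0 + v 1 0 + v 2 0 + v 3 0 + v 4 0 + v 5 0)^2 + (v 0 1 + v 1 1 + v 2 1 + v 3 1 + v 4 1 + v 5 1)^2 + (v 0 2 + v 1 2 + v 2 2 + v 3 2 + v 4 2 + v 5 2)^2) + sosQ s v := by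
  rw [sum10, etaX s v hv, FX0 s hs v hv, FX1 s hs v hv, FX2 s hs v hv, FX3 s hs v hv,
    FX4 s hs v hv, FX5 s hs v hv, FX6 s hs v hv, FX7 s hs v hv, FX8 s hs v hv, FX9 s hs v hv, sosQ]
  rw [secA s hs v, ← secQ_first s hs v, ← secR_eq s hs v]
  simp only [add_assoc]

end Pool.Agent.IcoLocal
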