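import Mathlib

/-!
The quadratic form of the second variation and its last four squares, written out in coordinates
(see `Second`).
-/

namespace Pool.Agent.IcoLocal

/-- The sum of squares, expanded. -/
noncomputable def secQ (s : ℝ) (v : Fin 12 → Fin 3 → ℝ) : ℝ :=
  (1/3*s)*(v 0 0*v 0 0) + (1/6 - 1/6*s)*(v 0 0*v 2 0) + (1/3*s)*(v 0 0*v 2 1) + (1/2 - 1/6*s)*(v 0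
  0*v 2 2) + (1/6 - 1/6*s)*(v 0 0*v 3 0) + (-1/3*s)*(v 0 0*v 3 1) + (-1/2 + 1/6*s)*(v 0 0*v 3 2) +
  (-1/6 - 1/6*s)*(v 0 0*v 4 0) + (1/2 + 1/6*s)*(v 0 0*v 4 1) + (1/3*s)*(v 0 0*v 4 2) + (-1/6 -
  1/6*s)*(v 0 0*v 5 0) + (-1/2 - 1/6*s)*(v 0 0*v 5 1) + (-1/3*s)*(v 0 0*v 5 2) + (2 + 4/3*s)*(v 0
  1*v 0 1) + (3 + 1*s)*(v 0 1*v 0 2) + (-5/3 - 1*s)*(v 0 1*v 1 1) + (1 + 1*s)*(v 0 1*v 1 2) + (-1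
  - 2/3*s)*(v 0 1*v 2 0) + (-1/6 - 1/6*s)*(v 0 1*v 2 1) + (-5/2 - 5/6*s)*(v 0 1*v 2 2) + (1 +
  2/3*s)*(v 0 1*v 3 0) + (-1/6 - 1/6*s)*(v 0 1*v 3 1) + (-5/2 - 5/6*s)*(v 0 1*v 3 2) + (-5/2 -
  5/6*s)*(v 0 1*v 4 0) + (-1 - 2/3*s)*(v 0 1*v 4 1) + (1/2 - 1/6*s)*(v 0 1*v 4 2) + (5/2 +
  5/6*s)*(v 0 1*v 5 0) + (-1 - 2/3*s)*(v 0 1*v 5 1) + (1/2 - 1/6*s)*(v 0 1*v 5 2) + (1/2 +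
  5/6*s)*(v 0 2*v 0 2) + (-1 - 1*s)*(v 0 2*v 1 1) + (2/3)*(v 0 2*v 1 2) + (-3/2 - 1/6*s)*(v 0 2*v
  2 0) + (1/2 + 1/6*s)*(v 0 2*v 2 1) + (-1 - 2/3*s)*(v 0 2*v 2 2) + (3/2 + 1/6*s)*(v 0 2*v 3 0) +
  (1/2 + 1/6*s)*(v 0 2*v 3 1) + (-1 - 2/3*s)*(v 0 2*v 3 2) + (-1 - 2/3*s)*(v 0 2*v 4 0) + (-3/2 -
  1/6*s)*(v 0 2*v 4 1) + (1/6 - 1/6*s)*(v 0 2*v 4 2) + (1 + 2/3*s)*(v 0 2*v 5 0) + (-3/2 -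
  1/6*s)*(v 0 2*v 5 1) + (1/6 - 1/6*s)*(v 0 2*v 5 2) + (1/3*s)*(v 1 0*v 1 0) + (1/6 - 1/6*s)*(v 1
  0*v 2 0) + (-1/3*s)*(v 1 0*v 2 1) + (1/2 - 1/6*s)*(v 1 0*v 2 2) + (1/6 - 1/6*s)*(v 1 0*v 3 0) +
  (1/3*s)*(v 1 0*v 3 1) + (-1/2 + 1/6*s)*(v 1 0*v 3 2) + (-1/6 - 1/6*s)*(v 1 0*v 4 0) + (1/2 +
  1/6*s)*(v 1 0*v 4 1) + (-1/3*s)*(v 1 0*v 4 2) + (-1/6 - 1/6*s)*(v 1 0*v 5 0) + (-1/2 - 1/6*s)*(v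
  1 0*v 5 1) + (1/3*s)*(v 1 0*v 5 2) + (2 + 4/3*s)*(v 1 1*v 1 1) + (-3 - 1*s)*(v 1 1*v 1 2) + (1 +
  2/3*s)*(v 1 1*v 2 0) + (-1/6 - 1/6*s)*(v 1 1*v 2 1) + (5/2 + 5/6*s)*(v 1 1*v 2 2) + (-1 -
  2/3*s)*(v 1 1*v 3 0) + (-1/6 - 1/6*s)*(v 1 1*v 3 1) + (5/2 + 5/6*s)*(v 1 1*v 3 2) + (-5/2 -
  5/6*s)*(v 1 1*v 4 0) + (-1 - 2/3*s)*(v 1 1*v 4 1) + (-1/2 + 1/6*s)*(v 1 1*v 4 2) + (5/2 +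
  5/6*s)*(v 1 1*v 5 0) + (-1 - 2/3*s)*(v 1 1*v 5 1) + (-1/2 + 1/6*s)*(v 1 1*v 5 2) + (1/2 +
  5/6*s)*(v 1 2*v 1 2) + (-3/2 - 1/6*s)*(v 1 2*v 2 0) + (-1/2 - 1/6*s)*(v 1 2*v 2 1) + (-1 -
  2/3*s)*(v 1 2*v 2 2) + (3/2 + 1/6*s)*(v 1 2*v 3 0) + (-1/2 - 1/6*s)*(v 1 2*v 3 1) + (-1 -
  2/3*s)*(v 1 2*v 3 2) + (1 + 2/3*s)*(v 1 2*v 4 0) + (3/2 + 1/6*s)*(v 1 2*v 4 1) + (1/6 -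
  1/6*s)*(v 1 2*v 4 2) + (-1 - 2/3*s)*(v 1 2*v 5 0) + (3/2 + 1/6*s)*(v 1 2*v 5 1) + (1/6 -
  1/6*s)*(v 1 2*v 5 2) + (1/2 + 5/6*s)*(v 2 0*v 2 0) + (3 + 1*s)*(v 2 0*v 2 2) + (2/3)*(v 2 0*v 3
  0) + (-1 - 1*s)*(v 2 0*v 3 2) + (-1 - 2/3*s)*(v 2 0*v 4 0) + (-3/2 - 1/6*s)*(v 2 0*v 4 1) + (1/2
  + 1/6*s)*(v 2 0*v 4 2) + (-1 - 2/3*s)*(v 2 0*v 5 0) + (3/2 + 1/6*s)*(v 2 0*v 5 1) + (1/2 +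
  1/6*s)*(v 2 0*v 5 2) + (1/3*s)*(v 2 1*v 2 1) + (1/2 - 1/6*s)*(v 2 1*v 4 0) + (1/6 - 1/6*s)*(v 2
  1*v 4 1) + (1/3*s)*(v 2 1*v 4 2) + (-1/2 + 1/6*s)*(v 2 1*v 5 0) + (1/6 - 1/6*s)*(v 2 1*v 5 1) +
  (-1/3*s)*(v 2 1*v 5 2) + (2 + 4/3*s)*(v 2 2*v 2 2) + (1 + 1*s)*(v 2 2*v 3 0) + (-5/3 - 1*s)*(v 2
  2*v 3 2) + (-5/2 - 5/6*s)*(v 2 2*v 4 0) + (-1 - 2/3*s)*(v 2 2*v 4 1) + (-1/6 - 1/6*s)*(v 2 2*v 4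
  2) + (-5/2 - 5/6*s)*(v 2 2*v 5 0) + (1 + 2/3*s)*(v 2 2*v 5 1) + (-1/6 - 1/6*s)*(v 2 2*v 5 2) +
  (1/2 + 5/6*s)*(v 3 0*v 3 0) + (-3 - 1*s)*(v 3 0*v 3 2) + (-1 - 2/3*s)*(v 3 0*v 4 0) + (-3/2 -
  1/6*s)*(v 3 0*v 4 1) + (-1/2 - 1/6*s)*(v 3 0*v 4 2) + (-1 - 2/3*s)*(v 3 0*v 5 0) + (3/2 +
  1/6*s)*(v 3 0*v 5 1) + (-1/2 - 1/6*s)*(v 3 0*v 5 2) + (1/3*s)*(v 3 1*v 3 1) + (1/2 - 1/6*s)*(v 3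
  1*v 4 0) + (1/6 - 1/6*s)*(v 3 1*v 4 1) + (-1/3*s)*(v 3 1*v 4 2) + (-1/2 + 1/6*s)*(v 3 1*v 5 0) +
  (1/6 - 1/6*s)*(v 3 1*v 5 1) + (1/3*s)*(v 3 1*v 5 2) + (2 + 4/3*s)*(v 3 2*v 3 2) + (5/2 +
  5/6*s)*(v 3 2*v 4 0) + (1 + 2/3*s)*(v 3 2*v 4 1) + (-1/6 - 1/6*s)*(v 3 2*v 4 2) + (5/2 +
  5/6*s)*(v 3 2*v 5 0) + (-1 - 2/3*s)*(v 3 2*v 5 1) + (-1/6 - 1/6*s)*(v 3 2*v 5 2) + (2 +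
  4/3*s)*(v 4 0*v 4 0) + (3 + 1*s)*(v 4 0*v 4 1) + (-5/3 - 1*s)*(v 4 0*v 5 0) + (1 + 1*s)*(v 4 0*v
  5 1) + (1/2 + 5/6*s)*(v 4 1*v 4 1) + (-1 - 1*s)*(v 4 1*v 5 0) + (2/3)*(v 4 1*v 5 1) + (1/3*s)*(v
  4 2*v 4 2) + (2 + 4/3*s)*(v 5 0*v 5 0) + (-3 - 1*s)*(v 5 0*v 5 1) + (1/2 + 5/6*s)*(v 5 1*v 5 1)
  + (1/3*s)*(v 5 2*v 5 2)

/-- The last four squares, expanded. -/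
noncomputable def secR (s : ℝ) (v : Fin 12 → Fin 3 → ℝ) : ℝ :=
  (-5/44 + 65/132*s)*(v 0 2*v 0 2) + (3/22 - 13/22*s)*(v 0 2*v 1 1) + (-14/33 - 3/11*s)*(v 0 2*v 1
  2) + (-3/4 + 1/12*s)*(v 0 2*v 2 0) + (15/22 + 7/33*s)*(v 0 2*v 2 1) + (1/44 - 13/132*s)*(v 0 2*v
  2 2) + (3/4 - 1/12*s)*(v 0 2*v 3 0) + (15/22 + 7/33*s)*(v 0 2*v 3 1) + (1/44 - 13/132*s)*(v 0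
  2*v 3 2) + (1/44 - 13/132*s)*(v 0 2*v 4 0) + (-3/4 + 1/12*s)*(v 0 2*v 4 1) + (10/33 -
  17/66*s)*(v 0 2*v 4 2) + (-1/44 + 13/132*s)*(v 0 2*v 5 0) + (-3/4 + 1/12*s)*(v 0 2*v 5 1) +
  (10/33 - 17/66*s)*(v 0 2*v 5 2) + (73/44 + 151/132*s)*(v 1 1*v 1 1) + (-28/11 - 7/11*s)*(v 1 1*v
  1 2) + (7/12 + 5/12*s)*(v 1 1*v 2 0) + (-8/33 - 5/22*s)*(v 1 1*v 2 1) + (205/132 + 65/132*s)*(v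
  1 1*v 2 2) + (-7/12 - 5/12*s)*(v 1 1*v 3 0) + (-8/33 - 5/22*s)*(v 1 1*v 3 1) + (205/132 +
  65/132*s)*(v 1 1*v 3 2) + (-455/132 - 155/132*s)*(v 1 1*v 4 0) + (-17/12 - 11/12*s)*(v 1 1*v 4
  1) + (-23/66 + 4/33*s)*(v 1 1*v 4 2) + (455/132 + 155/132*s)*(v 1 1*v 5 0) + (-17/12 -
  11/12*s)*(v 1 1*v 5 1) + (-23/66 + 4/33*s)*(v 1 1*v 5 2) + (19/44 + 83/132*s)*(v 1 2*v 1 2) +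
  (-5/4 + 1/12*s)*(v 1 2*v 2 0) + (-21/44 - 13/132*s)*(v 1 2*v 2 1) + (-1/11 - 29/66*s)*(v 1 2*v 2
  2) + (5/4 - 1/12*s)*(v 1 2*v 3 0) + (-21/44 - 13/132*s)*(v 1 2*v 3 1) + (-1/11 - 29/66*s)*(v 1
  2*v 3 2) + (21/11 + 59/66*s)*(v 1 2*v 4 0) + (7/4 + 5/12*s)*(v 1 2*v 4 1) + (-17/132 -
  7/132*s)*(v 1 2*v 4 2) + (-21/11 - 59/66*s)*(v 1 2*v 5 0) + (7/4 + 5/12*s)*(v 1 2*v 5 1) +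
  (-17/132 - 7/132*s)*(v 1 2*v 5 2) + (11/24 + 7/10*s)*(v 2 0*v 2 0) + (-1/24 - 1/24*s)*(v 2 0*v 2
  1) + (65/24 + 79/120*s)*(v 2 0*v 2 2) + (13/12 + 1/15*s)*(v 2 0*v 3 0) + (-1/24 - 1/24*s)*(v 2
  0*v 3 1) + (-47/24 - 43/40*s)*(v 2 0*v 3 2) + (-13/8 - 113/120*s)*(v 2 0*v 4 0) + (-19/12 -
  3/10*s)*(v 2 0*v 4 1) + (5/8 + 1/8*s)*(v 2 0*v 4 2) + (-3/8 - 21/40*s)*(v 2 0*v 5 0) + (13/12 -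
  1/30*s)*(v 2 0*v 5 1) + (5/8 + 1/8*s)*(v 2 0*v 5 2) + (-1/528 + 85/528*s)*(v 2 1*v 2 1) + (-5/33
  - 5/132*s)*(v 2 1*v 2 2) + (1/24 + 1/24*s)*(v 2 1*v 3 0) + (-1/264 + 85/264*s)*(v 2 1*v 3 1) +
  (-5/33 - 5/132*s)*(v 2 1*v 3 2) + (23/66 - 9/44*s)*(v 2 1*v 4 0) + (1/8 - 5/24*s)*(v 2 1*v 4 1)
  + (13/264 - 5/264*s)*(v 2 1*v 4 2) + (-23/66 + 9/44*s)*(v 2 1*v 5 0) + (1/8 - 5/24*s)*(v 2 1*v 5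
  1) + (13/264 - 5/264*s)*(v 2 1*v 5 2) + (321/176 + 2587/2640*s)*(v 2 2*v 2 2) + (47/24 +
  43/40*s)*(v 2 2*v 3 0) + (-5/33 - 5/132*s)*(v 2 2*v 3 1) + (-797/264 - 1637/1320*s)*(v 2 2*v 3
  2) + (-841/264 - 1769/1320*s)*(v 2 2*v 4 0) + (-13/8 - 113/120*s)*(v 2 2*v 4 1) + (-37/132 -
  1/11*s)*(v 2 2*v 4 2) + (-391/264 - 173/440*s)*(v 2 2*v 5 0) + (3/8 + 21/40*s)*(v 2 2*v 5 1) +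
  (-37/132 - 1/11*s)*(v 2 2*v 5 2) + (11/24 + 7/10*s)*(v 3 0*v 3 0) + (1/24 + 1/24*s)*(v 3 0*v 3
  1) + (-65/24 - 79/120*s)*(v 3 0*v 3 2) + (-3/8 - 21/40*s)*(v 3 0*v 4 0) + (-13/12 + 1/30*s)*(v 3
  0*v 4 1) + (-5/8 - 1/8*s)*(v 3 0*v 4 2) + (-13/8 - 113/120*s)*(v 3 0*v 5 0) + (19/12 +
  3/10*s)*(v 3 0*v 5 1) + (-5/8 - 1/8*s)*(v 3 0*v 5 2) + (-1/528 + 85/528*s)*(v 3 1*v 3 1) +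
  (-5/33 - 5/132*s)*(v 3 1*v 3 2) + (23/66 - 9/44*s)*(v 3 1*v 4 0) + (1/8 - 5/24*s)*(v 3 1*v 4 1)
  + (13/264 - 5/264*s)*(v 3 1*v 4 2) + (-23/66 + 9/44*s)*(v 3 1*v 5 0) + (1/8 - 5/24*s)*(v 3 1*v 5
  1) + (13/264 - 5/264*s)*(v 3 1*v 5 2) + (321/176 + 2587/2640*s)*(v 3 2*v 3 2) + (391/264 +
  173/440*s)*(v 3 2*v 4 0) + (3/8 + 21/40*s)*(v 3 2*v 4 1) + (-37/132 - 1/11*s)*(v 3 2*v 4 2) +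
  (841/264 + 1769/1320*s)*(v 3 2*v 5 0) + (-13/8 - 113/120*s)*(v 3 2*v 5 1) + (-37/132 -
  1/11*s)*(v 3 2*v 5 2) + (787/528 + 921/880*s)*(v 4 0*v 4 0) + (65/24 + 37/40*s)*(v 4 0*v 4 1) +
  (-5/44 + 5/66*s)*(v 4 0*v 4 2) + (-259/264 - 827/1320*s)*(v 4 0*v 5 0) + (1/24 + 79/120*s)*(v 4
  0*v 5 1) + (-5/44 + 5/66*s)*(v 4 0*v 5 2) + (1/8 + 19/30*s)*(v 4 1*v 4 1) + (1/8 - 1/24*s)*(v 4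
  1*v 4 2) + (-1/24 - 79/120*s)*(v 4 1*v 5 0) + (11/12 + 1/15*s)*(v 4 1*v 5 1) + (1/8 - 1/24*s)*(v
  4 1*v 5 2) + (17/176 + 65/528*s)*(v 4 2*v 4 2) + (5/44 - 5/66*s)*(v 4 2*v 5 0) + (1/8 -
  1/24*s)*(v 4 2*v 5 1) + (17/88 + 65/264*s)*(v 4 2*v 5 2) + (787/528 + 921/880*s)*(v 5 0*v 5 0) +
  (-65/24 - 37/40*s)*(v 5 0*v 5 1) + (5/44 - 5/66*s)*(v 5 0*v 5 2) + (1/8 + 19/30*s)*(v 5 1*v 5 1)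
  + (1/8 - 1/24*s)*(v 5 1*v 5 2) + (17/176 + 65/528*s)*(v 5 2*v 5 2)

end Pool.Agent.IcoLocal
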