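import Pool.Agent.IcoLocal.Main

/-!
# Local minimality of the regular icosahedron: the case of equality
-/

open Matrix Filter Topology

namespace Pool.Agent.IcoLocal

open Pool.Agent.Lib_helper76.Ico
open Pool.Agent.Results.MP_fa01f0_gt.CentrallySymmetric

lemma nn_mulVec (R : Matrix (Fin 3) (Fin 3) ℝ) (hR : Rᵀ * R = 1) (a : Fin 3 → ℝ) :
    nn (R *ᵥ a) = nn a := by
  unfold nn
  rw [Matrix.dotProduct_mulVec, Matrix.vecMul_mulVec, hR, Matrix.vecMul_one]

lemma dist_sq_eq (a b : E3) : dist a b ^ 2 = nn (a.ofLp - b.ofLp) := by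
  rw [dist_eq_norm, EuclideanSpace.norm_sq_eq, nn, dotProduct]
  refine Finset.sum_congr rfl fun j _ => ?_
  rw [Real.norm_eq_abs, sq_abs, sq]
  rfl

/-- The conclusion of the equality case, in terms of distances. -/
lemma similar_of_odd (w : Fin 12 → E3) (he : evenPart w = 0) (c : ℝ)
    (R : Matrix (Fin 3) (Fin 3) ℝ) (hc : 0 < c) (hR : Rᵀ * R = 1)
    (hx : ∀ i, oddPart w i = c • (R *ᵥ X5 i)) :
    ∃ r > 0, ∀ i j, dist (w i) (w j) = r * dist (regular i) (regular j) := by
  refine ⟨c, hc, fun i j => ?_⟩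
  have h1 : (w i).ofLp - (w j).ofLp = c • (R *ᵥ (X5 i - X5 j)) := by
    have hi := congrArg WithLp.ofLp (split_eq w i)
    have hj := congrArg WithLp.ofLp (split_eq w j)
    rw [he, add_zero] at hi hj
    have hi' : oddPart w i = (w i).ofLp - cen w := hi
    have hj' : oddPart w j = (w j).ofLp - cen w := hj
    rw [Matrix.mulVec_sub, smul_sub, ← hx i, ← hx j, hi', hj']
    abel
  have h2 : ∀ k, (regular k).ofLp = X5 k := fun k => by
    rw [← toE_X]
    rfl
  have h3 : dist (w i) (w j) ^ 2 = (c * dist (regular i) (regular j)) ^ 2 := by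
    rw [dist_sq_eq, h1, mul_pow, dist_sq_eq, h2, h2]
    have : nn (c • (R *ᵥ (X5 i - X5 j))) = c ^ 2 * nn (R *ᵥ (X5 i - X5 j)) := by
      simp only [nn, dotProduct, Fin.sum_univ_three, Pi.smul_apply, smul_eq_mul]
      ring
    rw [this, nn_mulVec R hR]
  exact (sq_eq_sq₀ dist_nonneg (mul_nonneg hc.le dist_nonneg)).1 h3

end Pool.Agent.IcoLocal
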