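import Pool.Agent.Lib_helper76.IcoAlgDefs

/-!
# Steiner's question for icosahedral polyhedra: area, volume, the regular icosahedron
-/

open scoped RealInnerProductSpace

namespace Pool.Agent.Results.MP_fa01f0_gt.CentrallySymmetric

open Pool.Agent.Lib_helper76.Ico

/-- Euclidean three-space. -/
abbrev E3 : Type := EuclideanSpace ℝ (Fin 3)

/-- The twenty triangles of the icosahedron on the vertex set `Fin 12`, coherently oriented. The
vertex opposite to `i` is `i + 6` (modulo `12`). -/
def tri : Fin 20 → Fin 3 → Fin 12 :=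
  ![![0, 2, 4], ![6, 9, 5], ![1, 8, 11], ![7, 3, 10], ![1, 0, 4],
    ![0, 1, 11], ![3, 2, 0], ![2, 3, 7], ![5, 4, 2], ![4, 5, 9],
    ![6, 10, 8], ![0, 11, 3], ![7, 5, 2], ![1, 4, 9], ![7, 10, 6],
    ![6, 5, 7], ![9, 6, 8], ![8, 1, 9], ![11, 8, 10], ![10, 3, 11]]

/-- Area of the triangle with vertices `x, y, z`: half the area of the parallelogram spanned by
two edges, the latter being the square root of their Gram determinant. -/
noncomputable def triArea (x y z : E3) : ℝ :=
  1 / 2 * Real.sqrt (‖y - x‖ ^ 2 * ‖z - x‖ ^ 2 - ⟪y - x, z - x⟫ ^ 2)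

/-- Total area of the twenty triangles of the polyhedral surface with vertices `w`. -/
noncomputable def area (w : Fin 12 → E3) : ℝ :=
  ∑ f, triArea (w (tri f 0)) (w (tri f 1)) (w (tri f 2))

/-- (Signed) volume enclosed by the polyhedral surface with vertices `w`: the sum of the signed
volumes of the twenty tetrahedra spanned by the origin and the triangles. -/
noncomputable def vol (w : Fin 12 → E3) : ℝ :=
  ∑ f, (Matrix.of fun i j => w (tri f i) j).det / 6

/-- The vertices of the regular icosahedron with edge length two. -/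
noncomputable def regular : Fin 12 → E3 :=
  ![!₂[0, Real.goldenRatio, 1], !₂[0, Real.goldenRatio, -1],
    !₂[1, 0, Real.goldenRatio], !₂[-1, 0, Real.goldenRatio],
    !₂[Real.goldenRatio, 1, 0], !₂[Real.goldenRatio, -1, 0],
    !₂[0, -Real.goldenRatio, -1], !₂[0, -Real.goldenRatio, 1],
    !₂[-1, 0, -Real.goldenRatio], !₂[1, 0, -Real.goldenRatio],
    !₂[-Real.goldenRatio, -1, 0], !₂[-Real.goldenRatio, 1, 0]]

lemma triArea_eq (x y z : E3) :
    triArea x y z = Real.sqrt (fS x.ofLp y.ofLp z.ofLp ⬝ᵥ fS x.ofLp y.ofLp z.ofLp) := by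
  rw [fS_dot, triArea]
  have h1 : ∀ a b : E3, ⟪a, b⟫ = a.ofLp ⬝ᵥ b.ofLp := by
    intro a b
    rw [PiLp.inner_apply]
    simp [dotProduct, Fin.sum_univ_three, mul_comm]
  have h2 : ∀ a : E3, ‖a‖ ^ 2 = a.ofLp ⬝ᵥ a.ofLp := by
    intro a
    rw [← h1, real_inner_self_eq_norm_sq]
  rw [h2, h2, h1, WithLp.ofLp_sub, WithLp.ofLp_sub]
  have h3 : (1 / 4 : ℝ) = (1 / 2) ^ 2 := by norm_num
  rw [h3, Real.sqrt_mul (by positivity), Real.sqrt_sq (by norm_num)]

end Pool.Agent.Results.MP_fa01f0_gt.CentrallySymmetric
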